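import Pool.Agent.H471.QP.Blk

set_option autoImplicit false

/-!
The block bound for the difference of the products.
-/

namespace Pool.Agent.H471.QP

open Complex MeasureTheory Set
open Pool.Agent.Y969.GP (ht lam FR PS cr PX ff)
open Pool.Agent.H471.GS (mem_FR' ht_pos ff_cont)

/-- the summand -/
noncomputable def fn {k : ℕ} (α β : ℝ) (d e : Fin k → ℕ) (x y : ℕ → Fin k → ℝ) (w : ℕ → ℂ) (n0 n : ℕ)
    (θ : Fin k → ℝ × ℝ) : ℂ :=
  if n0 ≤ n then w n * (∏ j, gF α β (d j) (e j) (x n j) (y n j) (θ j) -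
    ∏ j, gL α β (d j) (e j) (x n j) (y n j) (θ j)) else 0

/-- the telescoped factors -/
noncomputable def gi {k : ℕ} (F L D : ℕ → Fin k → ℝ × ℝ → ℂ) (i : Fin k) (n : ℕ) (j : Fin k) : ℝ × ℝ → ℂ :=
  if j < i then L n j else if j = i then D n j else F n j

lemma tri {k : ℕ} (a b : Fin k → ℂ) : ‖∑ i, (a i + b i)‖ ^ 2 ≤ 2 * k * ∑ i, (‖a i‖ ^ 2 + ‖b i‖ ^ 2) := by
  have h1 : ‖∑ i, (a i + b i)‖ ^ 2 ≤ (∑ i, ‖a i + b i‖) ^ 2 :=
    pow_le_pow_left₀ (norm_nonneg _) (norm_sum_le _ _) 2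
  have h2 : (∑ i, ‖a i + b i‖) ^ 2 ≤ k * ∑ i, ‖a i + b i‖ ^ 2 := by
    have := sq_sum_le_card_mul_sum_sq (s := (Finset.univ : Finset (Fin k))) (f := fun i => ‖a i + b i‖)
    rwa [Finset.card_fin] at this
  have h3 : ∑ i, ‖a i + b i‖ ^ 2 ≤ ∑ i, 2 * (‖a i‖ ^ 2 + ‖b i‖ ^ 2) := by
    apply Finset.sum_le_sum
    intro i _
    have := norm_add_le (a i) (b i)
    have n0 := norm_nonneg (a i + b i)
    calc ‖a i + b i‖ ^ 2 ≤ (‖a i‖ + ‖b i‖) ^ 2 := by gcongr
      _ ≤ _ := by nlinarith [sq_nonneg (‖a i‖ - ‖b i‖)]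
  calc _ ≤ k * ∑ i, ‖a i + b i‖ ^ 2 := h1.trans h2
    _ ≤ k * ∑ i, 2 * (‖a i‖ ^ 2 + ‖b i‖ ^ 2) := by gcongr
    _ = _ := by rw [← Finset.mul_sum]; ring

lemma kap_comm (n m : ℕ) : kap n m = kap m n := by
  unfold kap
  rw [abs_sub_comm, mul_comm ((n : ℝ) + 1)]
  by_cases h : n = m
  · rw [if_pos h, if_pos h.symm]
  · rw [if_neg h, if_neg (Ne.symm h)]

lemma x_ge {k : ℕ} {x : ℕ → Fin k → ℝ} (hx0 : ∀ j, 1 ≤ x 0 j) (hx : ∀ n j, x n j + 1 ≤ x (n + 1) j) (n : ℕ) (j : Fin k) :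
    (n : ℝ) + 1 ≤ x n j := by
  induction n with
  | zero => simpa using hx0 j
  | succ n ih =>
    have := hx n j
    push_cast
    linarith

lemma x_gap {k : ℕ} {x : ℕ → Fin k → ℝ} (hx : ∀ n j, x n j + 1 ≤ x (n + 1) j) (j : Fin k) {n m : ℕ}
    (hnm : n ≤ m) : x n j + ((m : ℝ) - n) ≤ x m j := by
  induction m, hnm using Nat.le_induction with
  | base => simp
  | succ m _ ih =>
    have := hx m j
    push_cast
    linarith

lemma gF_meas {α β x y : ℝ} {d e : ℕ} : Measurable (gF α β d e x y) := by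
  unfold gF
  exact ((Complex.continuous_ofReal.comp (rt_cont α β)).mul
    (Complex.continuous_ofReal.comp (ff_cont.comp (uu_cont d e x y)))).measurable

lemma gL_meas {α β x y : ℝ} {d e : ℕ} : Measurable (gL α β d e x y) := by
  unfold gL
  apply Measurable.mul
  · exact (Complex.continuous_ofReal.comp (rt_cont α β)).measurable
  · apply Complex.measurable_ofReal.comp
    have h1 : Measurable LL := by
      unfold LL
      exact (Real.measurable_log.comp (measurable_id.div_const _)).add_const _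
    exact h1.comp (uu_cont d e x y).measurable

lemma fn_meas {k : ℕ} (α β : ℝ) (d e : Fin k → ℕ) (x y : ℕ → Fin k → ℝ) (w : ℕ → ℂ) (n0 n : ℕ) :
    Measurable (fn α β d e x y w n0 n) := by
  unfold fn
  split_ifs
  · apply Measurable.const_mul
    apply Measurable.sub
    · exact Finset.measurable_fun_prod _ fun j _ => gF_meas.comp (measurable_pi_apply j)
    · exact Finset.measurable_fun_prod _ fun j _ => gL_meas.comp (measurable_pi_apply j)
  · exact measurable_const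

theorem block {k : ℕ} (α β γ : ℝ) (hα : 0 < α) (hαβ : α ≤ β) (hγ : 0 ≤ γ) (d e : Fin k → ℕ) (he : ∀ j, 1 ≤ e j)
    (hed : ∀ j, e j < d j) (x : ℕ → Fin k → ℝ) (hx0 : ∀ j, 1 ≤ x 0 j) (hx : ∀ n j, x n j + 1 ≤ x (n + 1) j)
    (B : ℝ) (hB : ∀ (n : ℕ) (j : Fin k), x n j ≤ ((n : ℝ) + 2) ^ B) (y : ℕ → Fin k → ℝ) (Y0 : ℝ) (hY0 : 0 ≤ Y0)
    (hy : ∀ n j, 0 ≤ y n j ∧ y n j ≤ Y0 * x n j ^ d j) (w : ℕ → ℂ) (hw : ∀ n, ‖w n‖ ≤ 1) (ε : ℝ) (hε : 0 < ε) :
    ∃ (C : ℝ) (n0 : ℕ), 0 ≤ C ∧ ∀ M H : ℕ,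
      Integrable (fun θ : Fin k → ℝ × ℝ => ‖∑ n ∈ Finset.Ico M (M + H), fn α β d e x y w n0 n θ‖ ^ 2)
        (Measure.pi fun _ => volume.restrict (bx α β γ)) ∧
      ∫ θ : Fin k → ℝ × ℝ, ‖∑ n ∈ Finset.Ico M (M + H), fn α β d e x y w n0 n θ‖ ^ 2
        ∂(Measure.pi fun _ => volume.restrict (bx α β γ)) ≤ C * H * ((M + H : ℕ) : ℝ) ^ ε := by
  have hk0 : (0 : ℝ) ≤ k := Nat.cast_nonneg k
  have hBa : 0 ≤ |B| := abs_nonneg B
  obtain ⟨δ, hδ⟩ : ∃ δ : ℝ, δ = ε / (4 * (|B| + 1) * (k + 1)) := ⟨_, rfl⟩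
  have hδ0 : 0 < δ := by rw [hδ]; positivity
  have hδ2 : |B| * δ * (2 * k) ≤ ε / 2 := by
    have e1 : ε / 2 = (|B| + 1) * δ * (2 * (k + 1)) := by rw [hδ]; field_simp; ring
    rw [e1]
    gcongr <;> linarith
  choose C x0 X hC hx0' hA hK using fun j => fac α β γ Y0 hα hαβ hγ hY0 δ hδ0 (d j) (e j) (he j) (hed j)
  obtain ⟨A, hAdef⟩ : ∃ A : ℝ, A = 1 + ∑ j, C j := ⟨_, rfl⟩
  have hAC : ∀ j, C j ≤ A := by
    intro j
    have := Finset.single_le_sum (f := C) (fun j _ => (hC j).le) (Finset.mem_univ j)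
    rw [hAdef]
    linarith
  have hA1 : 1 ≤ A := by
    have : 0 ≤ ∑ j, C j := Finset.sum_nonneg fun j _ => (hC j).le
    rw [hAdef]
    linarith
  have hA0 : 0 < A := by linarith
  obtain ⟨n0, hn0⟩ : ∃ n0 : ℕ, n0 = ⌈∑ j, x0 j⌉₊ := ⟨_, rfl⟩
  have hxn0 : ∀ n, n0 ≤ n → ∀ j, x0 j ≤ x n j := by
    intro n hn j
    have h1 := Finset.single_le_sum (f := x0) (fun j _ => by linarith [hx0' j]) (Finset.mem_univ j)
    have h2 : ∑ j, x0 j ≤ n0 := by rw [hn0]; exact Nat.le_ceil _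
    have h3 : (n0 : ℝ) ≤ n := by exact_mod_cast hn
    have h4 := x_ge hx0 hx n j
    linarith
  refine ⟨2 * k * (k * (2 * (A ^ k * 25 * (1 + 1 / (ε / 2)) * 2 ^ ε))), n0, by positivity, fun M H => ?_⟩
  rcases Nat.eq_zero_or_pos H with hH0 | hH0
  · subst hH0
    simp
  -- notation
  obtain ⟨F, hF⟩ : ∃ F : ℕ → Fin k → ℝ × ℝ → ℂ, F = fun n j => gF α β (d j) (e j) (x n j) (y n j) := ⟨_, rfl⟩
  obtain ⟨L, hL⟩ : ∃ L : ℕ → Fin k → ℝ × ℝ → ℂ, L = fun n j => gL α β (d j) (e j) (x n j) (y n j) := ⟨_, rfl⟩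
  obtain ⟨P, hP⟩ : ∃ P : ℕ → Fin k → ℝ × ℝ → ℂ, P = fun n j => gP α β (X j (x n j)) (d j) (e j) (x n j) (y n j) :=
    ⟨_, rfl⟩
  obtain ⟨E, hE⟩ : ∃ E : ℕ → Fin k → ℝ × ℝ → ℂ, E = fun n j => gE α β (X j (x n j)) (d j) (e j) (x n j) (y n j) :=
    ⟨_, rfl⟩
  have hx1 : ∀ n j, 1 ≤ x n j := fun n j => by
    have := x_ge hx0 hx n j
    have h0 : (0 : ℝ) ≤ n := Nat.cast_nonneg n
    linarith
  have cF : ∀ n j, ContinuousOn (F n j) (bx α β γ) := fun n j => by rw [hF]; exact gF_cont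
  have cL : ∀ n j, ContinuousOn (L n j) (bx α β γ) := fun n j => by
    rw [hL]; exact gL_cont hα (hx1 n j) (hy n j).1
  have cP : ∀ n j, ContinuousOn (P n j) (bx α β γ) := fun n j => by
    rw [hP]; exact gP_cont hα (hx1 n j) (hy n j).1
  have cE : ∀ n j, ContinuousOn (E n j) (bx α β γ) := fun n j => by
    rw [hE]; exact gE_cont hα (hx1 n j) (hy n j).1
  -- the size
  obtain ⟨T, hT⟩ : ∃ T : ℝ, T = 2 * ((M + H : ℕ) : ℝ) := ⟨_, rfl⟩
  have hMH : (1 : ℝ) ≤ ((M + H : ℕ) : ℝ) := by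
    have : 1 ≤ M + H := by omega
    exact_mod_cast this
  have hT2 : 2 ≤ T := by rw [hT]; linarith
  have hT0 : 0 < T := by linarith
  obtain ⟨W, hW⟩ : ∃ W : ℝ, W = (T ^ |B|) ^ δ := ⟨_, rfl⟩
  have hTB : 1 ≤ T ^ |B| := Real.one_le_rpow (by linarith) hBa
  have hW1 : 1 ≤ W := by rw [hW]; exact Real.one_le_rpow hTB hδ0.le
  have hW0 : 0 < W := by linarith
  have hxT : ∀ n j, n < M + H → x n j ≤ T ^ |B| := by
    intro n j hn
    have h1 : (n : ℝ) + 2 ≤ T := by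
      have : n + 1 ≤ M + H := hn
      have h2 : ((n + 1 : ℕ) : ℝ) ≤ ((M + H : ℕ) : ℝ) := by exact_mod_cast this
      push_cast at h2
      rw [hT]
      push_cast
      push_cast at hMH
      linarith
    have h0 : (0 : ℝ) ≤ n := Nat.cast_nonneg n
    calc x n j ≤ ((n : ℝ) + 2) ^ B := hB n j
      _ ≤ ((n : ℝ) + 2) ^ |B| := Real.rpow_le_rpow_of_exponent_le (by linarith) (le_abs_self B)
      _ ≤ T ^ |B| := Real.rpow_le_rpow (by linarith) h1 hBa
  have hxW : ∀ n j, n < M + H → x n j ^ δ ≤ W := by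
    intro n j hn
    rw [hW]
    exact Real.rpow_le_rpow (by linarith [hx1 n j]) (hxT n j hn) hδ0.le
  obtain ⟨Z, hZ⟩ : ∃ Z : ℝ, Z = A * W ^ 2 := ⟨_, rfl⟩
  have hAWZ : A * W ≤ Z := by
    rw [hZ]
    have : W ≤ W ^ 2 := by nlinarith
    gcongr
  have hZ0 : 0 ≤ Z := by rw [hZ]; positivity
  have hAZ : A ≤ Z := by
    have : A * 1 ≤ A * W := by gcongr
    linarith
  -- second moments
  have mF : ∀ n j, n0 ≤ n → n < M + H → ∫ θ in bx α β γ, ‖F n j θ‖ ^ 2 ≤ A * W := by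
    intro n j h1 h2
    rw [hF]
    refine (hA j (x n j) (y n j) (hxn0 n h1 j) (hy n j).1 (hy n j).2).1.trans ?_
    exact mul_le_mul (hAC j) (hxW n j h2) (Real.rpow_nonneg (by linarith [hx1 n j]) _) hA0.le
  have mL : ∀ n j, n0 ≤ n → n < M + H → ∫ θ in bx α β γ, ‖L n j θ‖ ^ 2 ≤ A * W := by
    intro n j h1 h2
    rw [hL]
    refine (hA j (x n j) (y n j) (hxn0 n h1 j) (hy n j).1 (hy n j).2).2.1.trans ?_
    exact mul_le_mul (hAC j) (hxW n j h2) (Real.rpow_nonneg (by linarith [hx1 n j]) _) hA0.le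
  have mP : ∀ n j, n0 ≤ n → n < M + H → ∫ θ in bx α β γ, ‖P n j θ‖ ^ 2 ≤ A * W := by
    intro n j h1 h2
    rw [hP]
    refine (hA j (x n j) (y n j) (hxn0 n h1 j) (hy n j).1 (hy n j).2).2.2.1.trans ?_
    exact mul_le_mul (hAC j) (hxW n j h2) (Real.rpow_nonneg (by linarith [hx1 n j]) _) hA0.le
  have mE : ∀ n j, n0 ≤ n → ∫ θ in bx α β γ, ‖E n j θ‖ ^ 2 ≤ A * (x n j)⁻¹ := by
    intro n j h1
    rw [hE]
    refine (hA j (x n j) (y n j) (hxn0 n h1 j) (hy n j).1 (hy n j).2).2.2.2.trans ?_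
    have : 0 ≤ (x n j)⁻¹ := inv_nonneg.2 (by linarith [hx1 n j])
    exact mul_le_mul_of_nonneg_right (hAC j) this
  have hsq : √(A * W * (A * W)) ≤ Z := by rw [Real.sqrt_mul_self (by positivity)]; exact hAWZ
  -- off position
  have off : ∀ (D : ℕ → Fin k → ℝ × ℝ → ℂ) (i : Fin k), ∀ n m : ℕ, n0 ≤ n → n < M + H → n0 ≤ m → m < M + H →
      ∀ j, j ≠ i → ‖∫ θ in bx α β γ, gi F L D i n j θ * (starRingEnd ℂ) (gi F L D i m j θ)‖ ≤ Z := by
    intro D i n m a1 a2 b1 b2 j hj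
    have hAW : 0 < A * W := by positivity
    unfold gi
    by_cases h : j < i
    · simp only [if_pos h]
      exact (cs_int (cL n j) (cL m j) hAW hAW (mL n j a1 a2) (mL m j b1 b2)).trans hsq
    · simp only [if_neg h, if_neg hj]
      exact (cs_int (cF n j) (cF m j) hAW hAW (mF n j a1 a2) (mF m j b1 b2)).trans hsq
  -- the polynomial
  have onPlt : ∀ (i : Fin k), ∀ n m : ℕ, n0 ≤ n → n < M + H → n0 ≤ m → m < M + H → n < m →
      ‖∫ θ in bx α β γ, P n i θ * (starRingEnd ℂ) (P m i θ)‖ ≤ Z * kap n m := by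
    intro i n m a1 a2 b1 b2 hnm
    have g1 := x_gap hx i hnm.le
    have hmn : (1 : ℝ) ≤ (m : ℝ) - n := by
      have : n + 1 ≤ m := hnm
      have h2 : ((n + 1 : ℕ) : ℝ) ≤ m := by exact_mod_cast this
      push_cast at h2
      linarith
    have hlt : x n i < x m i := by linarith
    have g2 := hK i (x n i) (x m i) (y n i) (y m i) (hxn0 n a1 i) hlt (hy n i).1 (hy n i).2 (hy m i).1 (hy m i).2
    have g3 := gap_kap hnm (x_ge hx0 hx n i) g1
    rw [hP]
    refine g2.trans ?_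
    have p1 : 0 ≤ x n i ^ δ := Real.rpow_nonneg (by linarith [hx1 n i]) _
    have p2 : 0 ≤ x m i ^ δ := Real.rpow_nonneg (by linarith [hx1 m i]) _
    have q1 := hxW n i a2
    have q2 := hxW m i b2
    rw [Real.mul_rpow (by linarith [hx1 n i]) (by linarith [hx1 m i])]
    have g4 : C i * (x n i ^ δ * x m i ^ δ) ≤ Z := by
      rw [hZ]
      calc C i * (x n i ^ δ * x m i ^ δ) ≤ A * (W * W) := by
            apply mul_le_mul (hAC i) (mul_le_mul q1 q2 p2 hW0.le) (by positivity) hA0.le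
        _ = _ := by ring
    have g5 : 0 ≤ √(x m i / x n i) / (x m i - x n i) := div_nonneg (Real.sqrt_nonneg _) (by linarith)
    exact mul_le_mul g4 g3 g5 hZ0
  have onP : ∀ (i : Fin k), ∀ n m : ℕ, n0 ≤ n → n < M + H → n0 ≤ m → m < M + H →
      ‖∫ θ in bx α β γ, P n i θ * (starRingEnd ℂ) (P m i θ)‖ ≤ Z * kap n m := by
    intro i n m a1 a2 b1 b2
    rcases lt_trichotomy n m with h | h | h
    · exact onPlt i n m a1 a2 b1 b2 h
    · subst h
      have hAW : 0 < A * W := by positivity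
      have h1 := (cs_int (cP n i) (cP n i) hAW hAW (mP n i a1 a2) (mP n i a1 a2)).trans hsq
      have h2 : 1 ≤ kap n n := by
        unfold kap
        rw [if_pos rfl]
        have : 0 ≤ 4 / √(((n : ℝ) + 1) * (n + 1)) := by positivity
        linarith
      calc _ ≤ Z := h1
        _ = Z * 1 := by ring
        _ ≤ _ := by gcongr
    · have h1 := onPlt i m n b1 b2 a1 a2 h
      have h2 : ∫ θ in bx α β γ, P n i θ * (starRingEnd ℂ) (P m i θ) =
          (starRingEnd ℂ) (∫ θ in bx α β γ, P m i θ * (starRingEnd ℂ) (P n i θ)) := by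
        rw [← integral_conj]
        congr 1
        funext θ
        rw [map_mul, Complex.conj_conj]
        ring
      rw [h2, RCLike.norm_conj, kap_comm]
      exact h1
  have onE : ∀ (i : Fin k), ∀ n m : ℕ, n0 ≤ n → n0 ≤ m →
      ‖∫ θ in bx α β γ, E n i θ * (starRingEnd ℂ) (E m i θ)‖ ≤ Z * kap n m := by
    intro i n m a1 b1
    have u1 := x_ge hx0 hx n i
    have u2 := x_ge hx0 hx m i
    have v1 : (0 : ℝ) ≤ n := Nat.cast_nonneg n
    have v2 : (0 : ℝ) ≤ m := Nat.cast_nonneg m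
    have w1 : 0 < x n i := by linarith
    have w2 : 0 < x m i := by linarith
    have h1 := cs_int (cE n i) (cE m i) (by positivity) (by positivity) (mE n i a1) (mE m i b1)
    refine h1.trans ?_
    have h2 : √(A * (x n i)⁻¹ * (A * (x m i)⁻¹)) ≤ A * (1 / √(((n : ℝ) + 1) * (m + 1))) := by
      apply Real.sqrt_le_iff.2
      refine ⟨by positivity, ?_⟩
      rw [mul_pow, div_pow, Real.sq_sqrt (by positivity)]
      have h3 : (x n i)⁻¹ * (x m i)⁻¹ ≤ 1 / (((n : ℝ) + 1) * (m + 1)) := by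
        rw [← mul_inv, one_div]
        apply inv_anti₀ (by positivity)
        gcongr
      calc A * (x n i)⁻¹ * (A * (x m i)⁻¹) = A ^ 2 * ((x n i)⁻¹ * (x m i)⁻¹) := by ring
        _ ≤ A ^ 2 * (1 / (((n : ℝ) + 1) * (m + 1))) := by gcongr
        _ = _ := by ring
    have h4 : 1 / √(((n : ℝ) + 1) * (m + 1)) ≤ kap n m := by
      unfold kap
      have h5 : 1 / √(((n : ℝ) + 1) * (m + 1)) ≤ 4 / √(((n : ℝ) + 1) * (m + 1)) := by
        gcongr
        norm_num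
      have h6 : (0 : ℝ) ≤ (if n = m then 1 else 2 / |(n : ℝ) - m|) := by split_ifs <;> positivity
      linarith
    calc _ ≤ A * (1 / √(((n : ℝ) + 1) * (m + 1))) := h2
      _ ≤ Z * kap n m := mul_le_mul hAZ h4 (by positivity) hZ0
  -- the blocks
  have kP := fun i : Fin k => blk2 (α := α) (β := β) (γ := γ) (gi F L P i) w hw n0 (by
    intro n _ j
    unfold gi
    split_ifs
    · exact cL n j
    · exact cP n j
    · exact cF n j) i M H Z hZ0 (off P i) (by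
    intro n m a1 a2 b1 b2
    have := onP i n m a1 a2 b1 b2
    unfold gi
    simpa only [lt_irrefl, if_false, if_true] using this)
  have kE := fun i : Fin k => blk2 (α := α) (β := β) (γ := γ) (gi F L E i) w hw n0 (by
    intro n _ j
    unfold gi
    split_ifs
    · exact cL n j
    · exact cE n j
    · exact cF n j) i M H Z hZ0 (off E i) (by
    intro n m a1 a2 b1 b2
    have := onE i n m a1 b1
    unfold gi
    simpa only [lt_irrefl, if_false, if_true] using this)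
  -- the pointwise bound
  have pt : ∀ θ : Fin k → ℝ × ℝ, ‖∑ n ∈ Finset.Ico M (M + H), fn α β d e x y w n0 n θ‖ ^ 2 ≤
      2 * k * ∑ i, (‖∑ n ∈ (Finset.Ico M (M + H)).filter (fun n => n0 ≤ n), w n * ∏ j, gi F L P i n j (θ j)‖ ^ 2 +
        ‖∑ n ∈ (Finset.Ico M (M + H)).filter (fun n => n0 ≤ n), w n * ∏ j, gi F L E i n j (θ j)‖ ^ 2) := by
    intro θ
    have e1 : ∑ n ∈ Finset.Ico M (M + H), fn α β d e x y w n0 n θ =
        ∑ i, ((∑ n ∈ (Finset.Ico M (M + H)).filter (fun n => n0 ≤ n), w n * ∏ j, gi F L P i n j (θ j)) +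
          (∑ n ∈ (Finset.Ico M (M + H)).filter (fun n => n0 ≤ n), w n * ∏ j, gi F L E i n j (θ j))) := by
      unfold fn
      rw [← Finset.sum_filter]
      simp_rw [← Finset.sum_add_distrib]
      rw [Finset.sum_comm]
      refine Finset.sum_congr rfl fun n _ => ?_
      have := tel2 (fun j => F n j (θ j)) (fun j => L n j (θ j)) (fun j => P n j (θ j)) (fun j => E n j (θ j)) (by
        intro j
        rw [hF, hL, hP, hE]
        rfl)
      have e2 : ∏ j, gF α β (d j) (e j) (x n j) (y n j) (θ j) - ∏ j, gL α β (d j) (e j) (x n j) (y n j) (θ j) =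
          ∏ j, F n j (θ j) - ∏ j, L n j (θ j) := by rw [hF, hL]
      rw [e2, this, Finset.mul_sum]
      refine Finset.sum_congr rfl fun i _ => ?_
      rw [mul_add]
      congr 2
      · refine Finset.prod_congr rfl fun j _ => ?_
        unfold gi
        split_ifs <;> rfl
      · refine Finset.prod_congr rfl fun j _ => ?_
        unfold gi
        split_ifs <;> rfl
    rw [e1]
    exact tri _ _
  have iR : Integrable (fun θ : Fin k → ℝ × ℝ => 2 * (k : ℝ) *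
      ∑ i, (‖∑ n ∈ (Finset.Ico M (M + H)).filter (fun n => n0 ≤ n), w n * ∏ j, gi F L P i n j (θ j)‖ ^ 2 +
        ‖∑ n ∈ (Finset.Ico M (M + H)).filter (fun n => n0 ≤ n), w n * ∏ j, gi F L E i n j (θ j)‖ ^ 2))
      (Measure.pi fun _ => volume.restrict (bx α β γ)) := by
    apply Integrable.const_mul
    exact integrable_finsetSum _ fun i _ => (kP i).1.add (kE i).1
  have iL : Integrable (fun θ : Fin k → ℝ × ℝ => ‖∑ n ∈ Finset.Ico M (M + H), fn α β d e x y w n0 n θ‖ ^ 2)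
      (Measure.pi fun _ => volume.restrict (bx α β γ)) := by
    refine iR.mono' ?_ (Filter.Eventually.of_forall fun θ => ?_)
    · exact ((Finset.measurable_fun_sum _ fun n _ => fn_meas α β d e x y w n0 n).norm.pow_const 2).aestronglyMeasurable
    · rw [Real.norm_of_nonneg (by positivity)]
      exact pt θ
  refine ⟨iL, ?_⟩
  have h1 := integral_mono iL iR pt
  have iPE : ∀ i ∈ (Finset.univ : Finset (Fin k)), Integrable (fun θ : Fin k → ℝ × ℝ =>
      ‖∑ n ∈ (Finset.Ico M (M + H)).filter (fun n => n0 ≤ n), w n * ∏ j, gi F L P i n j (θ j)‖ ^ 2 +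
        ‖∑ n ∈ (Finset.Ico M (M + H)).filter (fun n => n0 ≤ n), w n * ∏ j, gi F L E i n j (θ j)‖ ^ 2)
      (Measure.pi fun _ => volume.restrict (bx α β γ)) := fun i _ => (kP i).1.add (kE i).1
  rw [integral_const_mul, integral_finsetSum _ iPE] at h1
  have hlog : 0 ≤ Real.log ((H : ℝ) + 1) := Real.log_nonneg (by linarith [(Nat.cast_nonneg H : (0:ℝ) ≤ H)])
  have h2 : ∀ i : Fin k, ∫ θ : Fin k → ℝ × ℝ,
      (‖∑ n ∈ (Finset.Ico M (M + H)).filter (fun n => n0 ≤ n), w n * ∏ j, gi F L P i n j (θ j)‖ ^ 2 +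
        ‖∑ n ∈ (Finset.Ico M (M + H)).filter (fun n => n0 ≤ n), w n * ∏ j, gi F L E i n j (θ j)‖ ^ 2)
      ∂(Measure.pi fun _ => volume.restrict (bx α β γ)) ≤ 2 * (Z ^ k * (25 * (H * (1 + Real.log (H + 1))))) := by
    intro i
    rw [integral_add (kP i).1 (kE i).1]
    linarith [(kP i).2, (kE i).2]
  have hTk : (W ^ 2) ^ k * (1 + Real.log (H + 1)) ≤ (1 + 1 / (ε / 2)) * (2 ^ ε * ((M + H : ℕ) : ℝ) ^ ε) := by
    have b1 : (W ^ 2) ^ k ≤ T ^ (ε / 2) := by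
      rw [hW, ← pow_mul, ← Real.rpow_natCast, ← Real.rpow_mul (by positivity), ← Real.rpow_mul (by positivity)]
      apply Real.rpow_le_rpow_of_exponent_le (by linarith)
      push_cast
      linarith
    have b2 : 1 + Real.log (H + 1) ≤ (1 + 1 / (ε / 2)) * T ^ (ε / 2) := by
      refine (one_log (by positivity : 0 < ε / 2) (by linarith [(Nat.cast_nonneg H : (0:ℝ) ≤ H)])).trans ?_
      have b3 : (H : ℝ) + 1 ≤ T := by
        rw [hT]
        push_cast
        have : (1:ℝ) ≤ H := by exact_mod_cast hH0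
        have : (0:ℝ) ≤ M := Nat.cast_nonneg M
        linarith
      gcongr
    calc (W ^ 2) ^ k * (1 + Real.log (H + 1)) ≤ T ^ (ε / 2) * ((1 + 1 / (ε / 2)) * T ^ (ε / 2)) := by gcongr
      _ = (1 + 1 / (ε / 2)) * (T ^ (ε / 2) * T ^ (ε / 2)) := by ring
      _ = (1 + 1 / (ε / 2)) * T ^ ε := by
        rw [← Real.rpow_add hT0]
        congr 2
        ring
      _ = _ := by rw [hT, Real.mul_rpow (by norm_num) (by linarith)]
  calc _ ≤ 2 * (k : ℝ) * ∑ i : Fin k, ∫ θ : Fin k → ℝ × ℝ,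
      (‖∑ n ∈ (Finset.Ico M (M + H)).filter (fun n => n0 ≤ n), w n * ∏ j, gi F L P i n j (θ j)‖ ^ 2 +
        ‖∑ n ∈ (Finset.Ico M (M + H)).filter (fun n => n0 ≤ n), w n * ∏ j, gi F L E i n j (θ j)‖ ^ 2)
      ∂(Measure.pi fun _ => volume.restrict (bx α β γ)) := h1
    _ ≤ 2 * (k : ℝ) * ∑ i : Fin k, 2 * (Z ^ k * (25 * (H * (1 + Real.log (H + 1))))) := by
        gcongr with i _
        exact h2 i
    _ = 2 * k * (k * (2 * (A ^ k * 25 * ((W ^ 2) ^ k * (1 + Real.log (H + 1)))))) * H := by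
        rw [Finset.sum_const, Finset.card_fin, nsmul_eq_mul, hZ, mul_pow]
        ring
    _ ≤ 2 * k * (k * (2 * (A ^ k * 25 * ((1 + 1 / (ε / 2)) * (2 ^ ε * ((M + H : ℕ) : ℝ) ^ ε))))) * H := by
        gcongr
    _ = _ := by ring

end Pool.Agent.H471.QP
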