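import Pool.Agent.H471.QP.Box

set_option autoImplicit false

/-!
From the box to all parameters.
-/

namespace Pool.Agent.H471.QP

open Complex MeasureTheory Set
open Pool.Agent.Y969.GP (ht lam FR PS cr PX ff)
open Pool.Agent.H471.GS (mem_FR' ht_pos ff_cont)

/-- changing finitely many terms -/
lemma fin_change {f h : ℕ → ℂ} {n0 : ℕ} (hfh : ∀ n, n0 ≤ n → f n = h n) {s : ℝ} (hs : 0 < s)
    (hf : ∃ K : ℝ, ∀ N : ℕ, ‖∑ n ∈ Finset.range N, f n‖ ≤ K * (N : ℝ) ^ s) :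
    ∃ K : ℝ, ∀ N : ℕ, ‖∑ n ∈ Finset.range N, h n‖ ≤ K * (N : ℝ) ^ s := by
  obtain ⟨K, hK⟩ := hf
  refine ⟨K + ∑ n ∈ Finset.range n0, ‖h n - f n‖, fun N => ?_⟩
  rcases Nat.eq_zero_or_pos N with hN | hN
  · subst hN
    simp [Real.zero_rpow hs.ne']
  have hN1 : (1 : ℝ) ≤ (N : ℝ) ^ s := Real.one_le_rpow (by exact_mod_cast hN) hs.le
  have h1 : ∑ n ∈ Finset.range N, h n = ∑ n ∈ Finset.range N, f n + ∑ n ∈ Finset.range N, (h n - f n) := by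
    rw [← Finset.sum_add_distrib]
    refine Finset.sum_congr rfl fun n _ => ?_
    ring
  have h2 : ∑ n ∈ Finset.range N, ‖h n - f n‖ ≤ ∑ n ∈ Finset.range n0, ‖h n - f n‖ := by
    have h3 : ∑ n ∈ Finset.range n0, ‖h n - f n‖ = ∑ n ∈ Finset.range (N + n0), ‖h n - f n‖ := by
      apply Finset.sum_subset (Finset.range_subset_range.2 (by omega))
      intro n _ hn
      rw [Finset.mem_range, not_lt] at hn
      rw [hfh n hn, sub_self, norm_zero]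
    rw [h3]
    exact Finset.sum_le_sum_of_subset_of_nonneg (Finset.range_subset_range.2 (by omega)) fun _ _ _ => norm_nonneg _
  have h4 : 0 ≤ ∑ n ∈ Finset.range n0, ‖h n - f n‖ := Finset.sum_nonneg fun _ _ => norm_nonneg _
  rw [h1]
  calc _ ≤ ‖∑ n ∈ Finset.range N, f n‖ + ‖∑ n ∈ Finset.range N, (h n - f n)‖ := norm_add_le _ _
    _ ≤ K * (N : ℝ) ^ s + ∑ n ∈ Finset.range N, ‖h n - f n‖ := add_le_add (hK N) (norm_sum_le _ _)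
    _ ≤ K * (N : ℝ) ^ s + (∑ n ∈ Finset.range n0, ‖h n - f n‖) * 1 := by linarith
    _ ≤ K * (N : ℝ) ^ s + (∑ n ∈ Finset.range n0, ‖h n - f n‖) * (N : ℝ) ^ s := by gcongr
    _ = _ := by ring

/-- the summand without weight -/
noncomputable def SS {k : ℕ} (d e : Fin k → ℕ) (x y : ℕ → Fin k → ℝ) (w : ℕ → ℂ) (n : ℕ) (θ : Fin k → ℝ × ℝ) : ℂ :=
  w n * (∏ j, (ff (uu (d j) (e j) (x n j) (y n j) (θ j)) : ℂ) -
    ∏ j, (LL (uu (d j) (e j) (x n j) (y n j) (θ j)) : ℂ))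

lemma SS_mul {k : ℕ} (α β : ℝ) (d e : Fin k → ℕ) (x y : ℕ → Fin k → ℝ) (w : ℕ → ℂ) (n : ℕ) (θ : Fin k → ℝ × ℝ) :
    w n * (∏ j, gF α β (d j) (e j) (x n j) (y n j) (θ j) - ∏ j, gL α β (d j) (e j) (x n j) (y n j) (θ j)) =
    (∏ j, (rt α β (θ j) : ℂ)) * SS d e x y w n θ := by
  unfold gF gL SS
  rw [Finset.prod_mul_distrib, Finset.prod_mul_distrib]
  ring

theorem on_box {k : ℕ} (α β γ : ℝ) (hα : 0 < α) (hαβ : α ≤ β) (hγ : 0 ≤ γ) (d e : Fin k → ℕ) (he : ∀ j, 1 ≤ e j)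
    (hed : ∀ j, e j < d j) (x : ℕ → Fin k → ℝ) (hx0 : ∀ j, 1 ≤ x 0 j) (hx : ∀ n j, x n j + 1 ≤ x (n + 1) j)
    (B : ℝ) (hB : ∀ (n : ℕ) (j : Fin k), x n j ≤ ((n : ℝ) + 2) ^ B) (y : ℕ → Fin k → ℝ) (Y0 : ℝ) (hY0 : 0 ≤ Y0)
    (hy : ∀ n j, 0 ≤ y n j ∧ y n j ≤ Y0 * x n j ^ d j) (w : ℕ → ℂ) (hw : ∀ n, ‖w n‖ ≤ 1) (ε : ℝ) (hε : 0 < ε) :
    ∀ᵐ θ : Fin k → ℝ × ℝ, (∀ j, θ j ∈ Ioo α β ×ˢ Icc 0 γ) →
      ∃ K : ℝ, ∀ N : ℕ, ‖∑ n ∈ Finset.range N, SS d e x y w n θ‖ ≤ K * (N : ℝ) ^ (1 / 2 + ε) := by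
  obtain ⟨C, n0, hC, hb⟩ := block α β γ hα hαβ hγ d e he hed x hx0 hx B hB y Y0 hY0 hy w hw (ε / 2) (by positivity)
  have h1 := gk (Measure.pi fun _ : Fin k => (volume : Measure (ℝ × ℝ)).restrict (bx α β γ))
    (fn α β d e x y w n0) (ε := ε / 2) (C := C) (by positivity) hC (fun M H => (hb M H).1) (fun M H => (hb M H).2)
  rw [← Measure.restrict_pi_pi, ae_restrict_iff' (MeasurableSet.univ_pi fun _ => (bx_cpt α β γ).measurableSet)] at h1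
  rw [volume_pi]
  filter_upwards [h1] with θ hθ hj
  obtain ⟨K, hK⟩ := hθ (by
    intro j _
    exact ⟨Ioo_subset_Icc_self (hj j).1, (hj j).2⟩)
  have hR : 0 < ∏ j, rt α β (θ j) := by
    apply Finset.prod_pos
    intro j _
    unfold rt eta
    apply Real.sqrt_pos.2
    have := (hj j).1
    exact mul_pos (by linarith [this.1]) (by linarith [this.2])
  have e2 : (1 / 2 + 2 * (ε / 2) : ℝ) = 1 / 2 + ε := by ring
  rw [e2] at hK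
  have h2 := fin_change (f := fun n => fn α β d e x y w n0 n θ) (h := fun n => (∏ j, (rt α β (θ j) : ℂ)) * SS d e x y w n θ)
    (n0 := n0) (s := 1 / 2 + ε) (by
      intro n hn
      simp only [fn]
      rw [if_pos hn, SS_mul]) (by positivity) ⟨K, hK⟩
  obtain ⟨K', hK'⟩ := h2
  refine ⟨K' / ∏ j, rt α β (θ j), fun N => ?_⟩
  have h3 := hK' N
  rw [← Finset.mul_sum, norm_mul] at h3
  have e3 : ‖∏ j, (rt α β (θ j) : ℂ)‖ = ∏ j, rt α β (θ j) := by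
    rw [← Complex.ofReal_prod, Complex.norm_real, Real.norm_of_nonneg hR.le]
  rw [e3] at h3
  rw [div_mul_eq_mul_div, le_div_iff₀ hR]
  linarith

theorem all_nn {k : ℕ} (d e : Fin k → ℕ) (he : ∀ j, 1 ≤ e j)
    (hed : ∀ j, e j < d j) (x : ℕ → Fin k → ℝ) (hx0 : ∀ j, 1 ≤ x 0 j) (hx : ∀ n j, x n j + 1 ≤ x (n + 1) j)
    (B : ℝ) (hB : ∀ (n : ℕ) (j : Fin k), x n j ≤ ((n : ℝ) + 2) ^ B) (y : ℕ → Fin k → ℝ) (Y0 : ℝ) (hY0 : 0 ≤ Y0)
    (hy : ∀ n j, 0 ≤ y n j ∧ y n j ≤ Y0 * x n j ^ d j) (w : ℕ → ℂ) (hw : ∀ n, ‖w n‖ ≤ 1) (ε : ℝ) (hε : 0 < ε) :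
    ∀ᵐ θ : Fin k → ℝ × ℝ, (∀ j, 0 < (θ j).1 ∧ 0 ≤ (θ j).2) →
      ∃ K : ℝ, ∀ N : ℕ, ‖∑ n ∈ Finset.range N, SS d e x y w n θ‖ ≤ K * (N : ℝ) ^ (1 / 2 + ε) := by
  have h1 : ∀ r : ℕ, ∀ᵐ θ : Fin k → ℝ × ℝ, (∀ j, θ j ∈ Ioo (1 / ((r : ℝ) + 1)) ((r : ℝ) + 1) ×ˢ Icc (0:ℝ) r) →
      ∃ K : ℝ, ∀ N : ℕ, ‖∑ n ∈ Finset.range N, SS d e x y w n θ‖ ≤ K * (N : ℝ) ^ (1 / 2 + ε) := by
    intro r
    have hr : (0 : ℝ) ≤ r := Nat.cast_nonneg r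
    exact on_box (1 / ((r : ℝ) + 1)) ((r : ℝ) + 1) r (by positivity) (by
      rw [div_le_iff₀ (by positivity)]
      nlinarith) hr d e he hed x hx0 hx B hB y Y0 hY0 hy w hw ε hε
  rw [← ae_all_iff] at h1
  filter_upwards [h1] with θ hθ hj
  obtain ⟨r, hr⟩ : ∃ r : ℕ, ∀ j, 1 / (θ j).1 < r ∧ (θ j).1 < r ∧ (θ j).2 ≤ r := by
    obtain ⟨r, hr⟩ := exists_nat_gt (∑ j, (1 / (θ j).1 + (θ j).1 + (θ j).2))
    refine ⟨r, fun j => ?_⟩
    have h2 := Finset.single_le_sum (f := fun j => 1 / (θ j).1 + (θ j).1 + (θ j).2) (fun j _ => by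
      obtain ⟨a1, a2⟩ := hj j
      positivity) (Finset.mem_univ j)
    obtain ⟨a1, a2⟩ := hj j
    have a3 : 0 < 1 / (θ j).1 := by positivity
    refine ⟨?_, ?_, ?_⟩ <;> linarith
  refine hθ r fun j => ?_
  obtain ⟨a1, a2⟩ := hj j
  obtain ⟨b1, b2, b3⟩ := hr j
  refine ⟨⟨?_, by linarith⟩, a2, b3⟩
  rw [div_lt_iff₀ a1] at b1
  rw [div_lt_iff₀ (by positivity)]
  nlinarith

theorem all {k : ℕ} (d e : Fin k → ℕ) (he : ∀ j, 1 ≤ e j)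
    (hed : ∀ j, e j < d j) (x : ℕ → Fin k → ℝ) (hx0 : ∀ j, 1 ≤ x 0 j) (hx : ∀ n j, x n j + 1 ≤ x (n + 1) j)
    (B : ℝ) (hB : ∀ (n : ℕ) (j : Fin k), x n j ≤ ((n : ℝ) + 2) ^ B) (y : ℕ → Fin k → ℝ) (Y0 : ℝ) (hY0 : 0 ≤ Y0)
    (hy : ∀ n j, 0 ≤ y n j ∧ y n j ≤ Y0 * x n j ^ d j) (w : ℕ → ℂ) (hw : ∀ n, ‖w n‖ ≤ 1) :
    ∀ᵐ θ : Fin k → ℝ × ℝ, (∀ j, 0 < (θ j).1) → ∀ ε : ℝ, 0 < ε →
      ∃ K : ℝ, ∀ N : ℕ, ‖∑ n ∈ Finset.range N, SS d e x y w n θ‖ ≤ K * (N : ℝ) ^ (1 / 2 + ε) := by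
  have h1 : ∀ r m : ℕ, ∀ᵐ θ : Fin k → ℝ × ℝ, (∀ j, 1 / ((r : ℝ) + 1) < (θ j).1 ∧ -((r : ℝ) + 1) ≤ (θ j).2) →
      ∃ K : ℝ, ∀ N : ℕ, ‖∑ n ∈ Finset.range N, SS d e x y w n θ‖ ≤ K * (N : ℝ) ^ (1 / 2 + 1 / ((m : ℝ) + 1)) := by
    intro r m
    have hr : (0 : ℝ) ≤ r := Nat.cast_nonneg r
    have hm : (0 : ℝ) ≤ m := Nat.cast_nonneg m
    obtain ⟨R, hR⟩ : ∃ R : ℝ, R = (r : ℝ) + 1 := ⟨_, rfl⟩
    have hR1 : 1 ≤ R := by rw [hR]; linarith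
    have hR0 : 0 < R := by linarith
    have hx1 : ∀ n j, 1 ≤ x n j := fun n j => by
      have := x_ge hx0 hx n j
      have h0 : (0 : ℝ) ≤ n := Nat.cast_nonneg n
      linarith
    obtain ⟨y', hy'⟩ : ∃ y' : ℕ → Fin k → ℝ, y' = fun n j =>
      max 0 (y n j + 1 / (2 * R) * x n j ^ d j - R * x n j ^ e j) := ⟨_, rfl⟩
    have h2 := all_nn d e he hed x hx0 hx B hB y' (Y0 + 1 / (2 * R)) (by positivity) (by
      intro n j
      have p0 : 0 ≤ x n j := by linarith [hx1 n j]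
      have p1 : 0 ≤ x n j ^ d j := pow_nonneg p0 _
      have p2 : 0 ≤ x n j ^ e j := pow_nonneg p0 _
      rw [hy']
      refine ⟨le_max_left _ _, max_le (by positivity) ?_⟩
      have := (hy n j).2
      have p3 : 0 ≤ R * x n j ^ e j := by positivity
      linarith) w hw (1 / ((m : ℝ) + 1)) (by positivity)
    have h3 := (measurePreserving_add_right (volume : Measure (Fin k → ℝ × ℝ))
      (fun _ => (-(1 / (2 * R)), R))).quasiMeasurePreserving.ae h2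
    filter_upwards [h3] with θ hθ hj
    rw [← hR] at hj
    have h4 := hθ (by
      intro j
      obtain ⟨a1, a2⟩ := hj j
      simp only [Pi.add_apply, Prod.fst_add, Prod.snd_add]
      have : 1 / (2 * R) < 1 / R := by
        apply one_div_lt_one_div_of_lt hR0
        linarith
      constructor <;> linarith)
    obtain ⟨n0, hn0⟩ := exists_nat_gt (2 * R ^ 2)
    refine fin_change (n0 := n0) ?_ (by positivity) h4
    intro n hn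
    unfold SS
    have key : ∀ j, uu (d j) (e j) (x n j) (y' n j) ((θ + (fun _ => (-(1 / (2 * R)), R) : Fin k → ℝ × ℝ)) j) =
        uu (d j) (e j) (x n j) (y n j) (θ j) := by
      intro j
      have q1 := x_ge hx0 hx n j
      have q2 : (n0 : ℝ) ≤ n := by exact_mod_cast hn
      have q3 : 2 * R ^ 2 ≤ x n j := by linarith
      have p0 : 0 ≤ x n j := by linarith [hx1 n j]
      have p2 : 0 ≤ x n j ^ e j := pow_nonneg p0 _
      have q4 : x n j * x n j ^ e j ≤ x n j ^ d j := by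
        rw [← pow_succ']
        exact pow_le_pow_right₀ (hx1 n j) (hed j)
      have q5 : R * x n j ^ e j ≤ 1 / (2 * R) * x n j ^ d j := by
        have q6 : 2 * R ^ 2 * x n j ^ e j ≤ x n j ^ d j := le_trans (by gcongr) q4
        calc R * x n j ^ e j = 1 / (2 * R) * (2 * R ^ 2 * x n j ^ e j) := by field_simp
          _ ≤ _ := by gcongr
      have q7 : y' n j = y n j + 1 / (2 * R) * x n j ^ d j - R * x n j ^ e j := by
        rw [hy']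
        exact max_eq_right (by linarith [(hy n j).1])
      unfold uu
      rw [q7]
      simp only [Pi.add_apply, Prod.fst_add, Prod.snd_add]
      ring
    simp only [key]
  have h2 : ∀ᵐ θ : Fin k → ℝ × ℝ, ∀ r m : ℕ, (∀ j, 1 / ((r : ℝ) + 1) < (θ j).1 ∧ -((r : ℝ) + 1) ≤ (θ j).2) →
      ∃ K : ℝ, ∀ N : ℕ, ‖∑ n ∈ Finset.range N, SS d e x y w n θ‖ ≤ K * (N : ℝ) ^ (1 / 2 + 1 / ((m : ℝ) + 1)) := by
    rw [ae_all_iff]
    intro r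
    rw [ae_all_iff]
    exact h1 r
  filter_upwards [h2] with θ hθ hj ε hε
  obtain ⟨r, hr⟩ : ∃ r : ℕ, ∀ j, 1 / (θ j).1 < r ∧ -(θ j).2 ≤ r := by
    obtain ⟨r, hr⟩ := exists_nat_gt (∑ j, (1 / (θ j).1 + |(θ j).2|))
    refine ⟨r, fun j => ?_⟩
    have h2 := Finset.single_le_sum (f := fun j => 1 / (θ j).1 + |(θ j).2|) (fun j _ => by
      have a1 := hj j
      positivity) (Finset.mem_univ j)
    have a1 := hj j
    have a3 : 0 < 1 / (θ j).1 := by positivity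
    have a4 := neg_abs_le (θ j).2
    have a5 := abs_nonneg (θ j).2
    refine ⟨?_, ?_⟩ <;> linarith
  obtain ⟨m, hm⟩ := exists_nat_one_div_lt hε
  obtain ⟨K, hK⟩ := hθ r m (by
    intro j
    obtain ⟨b1, b2⟩ := hr j
    have a1 := hj j
    constructor
    · rw [div_lt_iff₀ a1] at b1
      rw [div_lt_iff₀ (by positivity)]
      nlinarith
    · linarith)
  refine ⟨|K|, fun N => (hK N).trans ?_⟩
  rcases Nat.eq_zero_or_pos N with hN | hN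
  · subst hN
    have hm' : (0 : ℝ) ≤ m := Nat.cast_nonneg m
    rw [Nat.cast_zero, Real.zero_rpow (by positivity), Real.zero_rpow (by positivity)]
    simp
  · have hN1 : (1 : ℝ) ≤ N := by exact_mod_cast hN
    have h5 : (N : ℝ) ^ (1 / 2 + 1 / ((m : ℝ) + 1)) ≤ (N : ℝ) ^ (1 / 2 + ε) :=
      Real.rpow_le_rpow_of_exponent_le hN1 (by linarith)
    calc K * (N : ℝ) ^ (1 / 2 + 1 / ((m : ℝ) + 1)) ≤ |K| * (N : ℝ) ^ (1 / 2 + 1 / ((m : ℝ) + 1)) := by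
          gcongr
          exact le_abs_self K
      _ ≤ _ := by gcongr

end Pool.Agent.H471.QP
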