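import Pool.Agent.H471.QP.Two

set_option autoImplicit false

/-!
The oscillatory integral of a product of two smooth coefficients.
-/

namespace Pool.Agent.H471.QP

open Complex MeasureTheory Set

/-- the weight in the first parameter -/
def eta (α β a : ℝ) : ℝ := (a - α) * (β - a)

lemma eta_c2 (α β : ℝ) : C2 α β (eta α β) (fun a => α + β - 2 * a) (fun _ => -2) ((β - α) * (β - α)) (β - α) 2 := by
  intro a ha
  have h1 : 0 ≤ a - α := by linarith [ha.1]
  have h2 : 0 ≤ β - a := by linarith [ha.2]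
  refine ⟨?_, ?_, continuousAt_const, ?_, ?_, ?_⟩
  · unfold eta
    have := ((hasDerivAt_id a).sub_const α).mul ((hasDerivAt_id a).const_sub β)
    simp only [id] at this
    have e : α + β - 2 * a = 1 * (β - a) + (a - α) * -1 := by ring
    show HasDerivAt (fun a => (a - α) * (β - a)) (α + β - 2 * a) a
    rw [e]
    exact this
  · have := ((hasDerivAt_id a).const_mul 2).const_sub (α + β)
    simpa using this
  · unfold eta
    rw [abs_of_nonneg (by positivity)]
    apply mul_le_mul (by linarith) (by linarith) h2 (by linarith)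
  · rw [abs_le]
    constructor <;> linarith
  · norm_num

/-- the integrand -/
def Gf (f1 f2 : ℝ → ℝ) (α β y1 y2 A A' B B' a b : ℝ) : ℝ :=
  eta α β a * (f1 (y1 + b * A' + a * A) * f2 (y2 + b * B' + a * B))

/-- its derivative in `b` -/
noncomputable def Gfb (f1 f2 : ℝ → ℝ) (α β y1 y2 A A' B B' a b : ℝ) : ℝ :=
  eta α β a * ((A' * deriv f1 (y1 + b * A' + a * A)) * f2 (y2 + b * B' + a * B) +
    f1 (y1 + b * A' + a * A) * (B' * deriv f2 (y2 + b * B' + a * B)))

lemma pq (α β γ : ℝ) (hα : 0 < α) (hαβ : α ≤ β) (hγ : 0 ≤ γ) : ∃ C : ℝ, 0 < C ∧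
    ∀ (f1 f2 : ℝ → ℝ) (F1 F2 y1 y2 A A' B B' τ X Y : ℝ), Sm f1 F1 → Sm f2 F2 → 0 ≤ y1 → 0 ≤ y2 → 0 < A → 0 < A' →
    0 < B → 0 < B' → 0 < τ → A' * τ ≤ A → B' * τ ≤ B →
    ‖∫ a in α..β, ∫ b in (0:ℝ)..γ, (Gf f1 f2 α β y1 y2 A A' B B' a b : ℂ) * ex (a * X) * ex (b * Y)‖ ≤
      C * (F1 * F2) * d2 X ∧
    (Y ≠ 0 → ‖∫ a in α..β, ∫ b in (0:ℝ)..γ, (Gf f1 f2 α β y1 y2 A A' B B' a b : ℂ) * ex (a * X) * ex (b * Y)‖ ≤
      C * (F1 * F2) * (|Y|⁻¹ * (d2 X + d1 X / τ))) := by
  have hl : 0 ≤ β - α := by linarith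
  set E0 := (β - α) * (β - α) with hE0
  have hE0' : 0 ≤ E0 := by positivity
  set c1 : ℝ := 2 * ((β - α) * (E0 + (2 + 4 * (β - α) / α + 4 * E0 / α ^ 2)) + 2 * ((β - α) + 2 * E0 / α)) with hc1
  set c2 : ℝ := 2 * ((β - α) * (2 * E0 / α + 2 * (β - α) / α + 4 * E0 / α ^ 2)) with hc2
  have hc1' : 0 ≤ c1 := by positivity
  have hc2' : 0 ≤ c2 := by positivity
  refine ⟨γ * c1 + 2 * c1 + γ * c2 + 1, by positivity, ?_⟩
  intro f1 f2 F1 F2 y1 y2 A A' B B' τ X Y H1 H2 hy1 hy2 hA hA' hB hB' hτ hAτ hBτ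
  have hF1 := H1.nn
  have hF2 := H2.nn
  have hd1 := (d1_pos X).le
  have hd2 := (d2_pos X).le
  have hpos1 : ∀ a ∈ Icc α β, ∀ b ∈ Icc 0 γ, 0 < y1 + b * A' + a * A := by
    intro a ha b hb
    have : 0 < a := hα.trans_le ha.1
    have := hb.1
    positivity
  have hpos2 : ∀ a ∈ Icc α β, ∀ b ∈ Icc 0 γ, 0 < y2 + b * B' + a * B := by
    intro a ha b hb
    have : 0 < a := hα.trans_le ha.1
    have := hb.1
    positivity
  -- the function
  have b1 : ∀ b ∈ Icc 0 γ, ‖∫ a in α..β, (Gf f1 f2 α β y1 y2 A A' B B' a b : ℂ) * ex (a * X)‖ ≤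
      c1 * (F1 * F2) * d2 X := by
    intro b hb
    have hb0 := hb.1
    have k := (eta_c2 α β).mul ((H1.comp (α := α) (β := β) hα (c := y1 + b * A') (by positivity) hA).mul
      (H2.comp (α := α) (β := β) hα (c := y2 + b * B') (by positivity) hB))
    have o := osc2 hαβ k (by simp [eta]) (by simp [eta]) X
    refine o.trans ?_
    refine mul_le_mul_of_nonneg_right (le_of_eq ?_) hd2
    rw [hc1, hE0]
    field_simp
    ring
  have b2 : ∀ b ∈ Icc 0 γ, ‖∫ a in α..β, (Gfb f1 f2 α β y1 y2 A A' B B' a b : ℂ) * ex (a * X)‖ ≤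
      c2 * (F1 * F2) * (d1 X / τ) := by
    intro b hb
    have hb0 := hb.1
    have k1 := (H1.comp' (α := α) (β := β) hα (c := y1 + b * A') (by positivity) hA hA' hτ hAτ).mul
      (H2.comp (α := α) (β := β) hα (c := y2 + b * B') (by positivity) hB).c1
    have k2 := (H1.comp (α := α) (β := β) hα (c := y1 + b * A') (by positivity) hA).c1.mul
      (H2.comp' (α := α) (β := β) hα (c := y2 + b * B') (by positivity) hB hB' hτ hBτ)
    have k := (eta_c2 α β).c1.mul (k1.add k2)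
    have o := osc1 hαβ k (by simp [eta]) (by simp [eta]) X
    refine o.trans ?_
    have m : ∀ x y : ℝ, 0 ≤ x → 0 ≤ y → max x y ≤ x + y := by
      intro x y hx hy
      exact max_le (by linarith) (by linarith)
    calc _ ≤ 2 * ((β - α) * (E0 * (F1 / α / τ * F2 + F1 * (F2 / α / τ)) + ((β - α) * (F1 / α / τ * F2 + F1 * (F2 / α / τ)) +
          E0 * ((F1 / α ^ 2 / τ * F2 + F1 / α / τ * (F2 / α)) + (F1 / α * (F2 / α / τ) + F1 * (F2 / α ^ 2 / τ)))))) * d1 X := by
          gcongr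
          exact m _ _ (by positivity) (by positivity)
      _ = _ := by
          rw [hc2, hE0]
          field_simp
          ring
  have g3 : ∀ a ∈ Icc α β, ∀ b ∈ Icc 0 γ, HasDerivAt (Gf f1 f2 α β y1 y2 A A' B B' a)
      (Gfb f1 f2 α β y1 y2 A A' B B' a b) b := by
    intro a ha b hb
    have e1 : HasDerivAt (fun b : ℝ => y1 + b * A' + a * A) A' b := by
      simpa using (((hasDerivAt_id b).mul_const A').const_add y1).add_const (a * A)
    have e2 : HasDerivAt (fun b : ℝ => y2 + b * B' + a * B) B' b := by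
      simpa using (((hasDerivAt_id b).mul_const B').const_add y2).add_const (a * B)
    have k1 := (H1 _ (hpos1 a ha b hb)).1.hasDerivAt.comp b e1
    have k2 := (H2 _ (hpos2 a ha b hb)).1.hasDerivAt.comp b e2
    have k := (k1.mul k2).const_mul (eta α β a)
    have e : Gfb f1 f2 α β y1 y2 A A' B B' a b = eta α β a * (deriv f1 (y1 + b * A' + a * A) * A' *
        (f2 ∘ fun b => y2 + b * B' + a * B) b + (f1 ∘ fun b => y1 + b * A' + a * A) b *
        (deriv f2 (y2 + b * B' + a * B) * B')) := by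
      unfold Gfb
      simp only [Function.comp]
      ring
    rw [e]
    exact k
  have cf : ∀ (f : ℝ → ℝ) (y z x : ℝ), (∀ a ∈ Icc α β, ∀ b ∈ Icc 0 γ, ContinuousAt f (y + b * z + a * x)) →
      ContinuousOn (fun p : ℝ × ℝ => f (y + p.2 * z + p.1 * x)) (Icc α β ×ˢ Icc 0 γ) := by
    intro f y z x h p hp
    apply ContinuousAt.continuousWithinAt
    exact ContinuousAt.comp (f := fun p : ℝ × ℝ => y + p.2 * z + p.1 * x) (g := f) (h p.1 hp.1 p.2 hp.2) (by fun_prop)
  have ce : ContinuousOn (fun p : ℝ × ℝ => eta α β p.1) (Icc α β ×ˢ Icc 0 γ) := by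
    unfold eta
    fun_prop
  have q1 := cf f1 y1 A' A (fun a ha b hb => (H1 _ (hpos1 a ha b hb)).1.continuousAt)
  have q2 := cf f2 y2 B' B (fun a ha b hb => (H2 _ (hpos2 a ha b hb)).1.continuousAt)
  have q3 := cf (deriv f1) y1 A' A (fun a ha b hb => (H1 _ (hpos1 a ha b hb)).2.1.continuousAt)
  have q4 := cf (deriv f2) y2 B' B (fun a ha b hb => (H2 _ (hpos2 a ha b hb)).2.1.continuousAt)
  have g4 : ContinuousOn (Function.uncurry (Gf f1 f2 α β y1 y2 A A' B B')) (Icc α β ×ˢ Icc 0 γ) :=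
    ce.mul (q1.mul q2)
  have g5 : ContinuousOn (Function.uncurry (Gfb f1 f2 α β y1 y2 A A' B B')) (Icc α β ×ˢ Icc 0 γ) :=
    ce.mul (((continuousOn_const.mul q3).mul q2).add (q1.mul (continuousOn_const.mul q4)))
  obtain ⟨r1, r2⟩ := two (Y := Y) hαβ hγ b1 b2 g3 g4 g5
  have hFF : 0 ≤ F1 * F2 := by positivity
  constructor
  · refine r1.trans ?_
    have : γ * (c1 * (F1 * F2) * d2 X) = (γ * c1) * (F1 * F2) * d2 X := by ring
    rw [this]
    gcongr
    have : 0 ≤ γ * c2 := by positivity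
    linarith
  · intro hY
    refine (r2 hY).trans ?_
    have hY' : 0 ≤ |Y|⁻¹ := by positivity
    have hd1τ : 0 ≤ d1 X / τ := by positivity
    have h1 : 2 * (c1 * (F1 * F2) * d2 X) + γ * (c2 * (F1 * F2) * (d1 X / τ)) ≤
        (γ * c1 + 2 * c1 + γ * c2 + 1) * (F1 * F2) * (d2 X + d1 X / τ) := by
      have a1 : 2 * (c1 * (F1 * F2) * d2 X) ≤ (γ * c1 + 2 * c1 + γ * c2 + 1) * (F1 * F2) * d2 X := by
        have : 2 * (c1 * (F1 * F2) * d2 X) = (2 * c1) * (F1 * F2) * d2 X := by ring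
        rw [this]
        gcongr
        have : 0 ≤ γ * c2 := by positivity
        have : 0 ≤ γ * c1 := by positivity
        linarith
      have a2 : γ * (c2 * (F1 * F2) * (d1 X / τ)) ≤ (γ * c1 + 2 * c1 + γ * c2 + 1) * (F1 * F2) * (d1 X / τ) := by
        have : γ * (c2 * (F1 * F2) * (d1 X / τ)) = (γ * c2) * (F1 * F2) * (d1 X / τ) := by ring
        rw [this]
        gcongr
        have : 0 ≤ γ * c1 := by positivity
        linarith
      linarith
    calc _ ≤ |Y|⁻¹ * ((γ * c1 + 2 * c1 + γ * c2 + 1) * (F1 * F2) * (d2 X + d1 X / τ)) := by gcongr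
      _ = _ := by ring

end Pool.Agent.H471.QP
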