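import Pool.Agent.H471.QP.Ari
import Pool.Agent.H471.QP.Pq
import Pool.Graph.R_seed8.Y587.GP.V
import Pool.Graph.R_seed8.Y545.GP.CR

set_option autoImplicit false

/-!
The kernel: correlation of the Dirichlet polynomials at two heights moved by `a t ^ d + b t ^ e`.
-/

namespace Pool.Agent.H471.QP

open Complex MeasureTheory Set
open Pool.Agent.Y969.GP (ht lam FR PS cr S_V S_CR)
open Pool.Agent.H471.GS (mem_FR' ht_pos)

/-- sums of the bounds over one variable -/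
lemma dsum {ι : Type} [DecidableEq ι] {S : Finset ι} {x y D : ι → ℝ} {ρ κ Z R τ : ℝ} (hρ : 0 < ρ) (hρ1 : ρ ≤ 1)
    (hs : ∀ i ∈ S, ∀ j ∈ S, i ≠ j → ρ ≤ |x i - x j|) (hκ : 1 ≤ κ) (hZ : 0 < Z) (hR : 1 ≤ R) (hτ : 1 ≤ τ)
    (hx : ∀ i ∈ S, |x i| ≤ R) (hxy : ∀ i ∈ S, 2 * κ * Z ≤ |x i| + κ * |y i|)
    (h1 : ∀ i ∈ S, D i ≤ d2 (x i)) (h2 : ∀ i ∈ S, y i ≠ 0 → D i ≤ |y i|⁻¹ * (d2 (x i) + d1 (x i) / τ)) :
    ∑ i ∈ S, D i ≤ 126 / (ρ * Z) * (1 + Real.log (R / ρ)) := by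
  rw [← Finset.sum_filter_add_sum_filter_not S (fun i => Z ≤ |x i|)]
  have hRρ : 1 ≤ R / ρ := by rw [le_div_iff₀ hρ]; linarith
  have hL : 0 ≤ Real.log (R / ρ) := Real.log_nonneg hRρ
  have a1 : ∑ i ∈ S with Z ≤ |x i|, D i ≤ 60 / (ρ * Z) := by
    calc ∑ i ∈ S with Z ≤ |x i|, D i ≤ ∑ i ∈ S with Z ≤ |x i|, d2 (x i) := by
          refine Finset.sum_le_sum fun i hi => ?_
          rw [Finset.mem_filter] at hi
          exact h1 i hi.1
      _ ≤ 60 / (ρ * (1 + Z)) := by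
          apply sum_d2 hρ hρ1 _ hZ.le
          · intro i hi
            rw [Finset.mem_filter] at hi
            exact hi.2
          · intro i hi j hj hij
            rw [Finset.mem_filter] at hi hj
            exact hs i hi.1 j hj.1 hij
      _ ≤ 60 / (ρ * Z) := by
          gcongr
          linarith
  have a2 : ∑ i ∈ S with ¬ Z ≤ |x i|, D i ≤ Z⁻¹ * (60 / ρ + 6 / ρ * (1 + Real.log (R / ρ))) := by
    calc ∑ i ∈ S with ¬ Z ≤ |x i|, D i ≤ ∑ i ∈ S with ¬ Z ≤ |x i|, Z⁻¹ * (d2 (x i) + d1 (x i)) := by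
          refine Finset.sum_le_sum fun i hi => ?_
          rw [Finset.mem_filter, not_le] at hi
          have b1 := hxy i hi.1
          have b2 : Z ≤ |y i| := by
            have : κ * Z ≤ κ * |y i| := by nlinarith
            exact le_of_mul_le_mul_left this (by linarith)
          have b3 : y i ≠ 0 := by
            intro h
            rw [h, abs_zero] at b2
            linarith
          refine (h2 i hi.1 b3).trans ?_
          have b4 := (d1_pos (x i)).le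
          have b5 := (d2_pos (x i)).le
          have b6 : d1 (x i) / τ ≤ d1 (x i) := div_le_self b4 hτ
          gcongr
      _ = Z⁻¹ * (∑ i ∈ S with ¬ Z ≤ |x i|, d2 (x i) + ∑ i ∈ S with ¬ Z ≤ |x i|, d1 (x i)) := by
          rw [← Finset.mul_sum, Finset.sum_add_distrib]
      _ ≤ Z⁻¹ * (60 / ρ + 6 / ρ * (1 + Real.log (R / ρ))) := by
          gcongr
          · have := sum_d2 (S := S.filter fun i => ¬ Z ≤ |x i|) (x := x) hρ hρ1 (by
              intro i hi j hj hij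
              rw [Finset.mem_filter] at hi hj
              exact hs i hi.1 j hj.1 hij) le_rfl (fun i _ => abs_nonneg _)
            simpa using this
          · apply sum_d1 hρ hρ1 _ hR
            · intro i hi
              rw [Finset.mem_filter] at hi
              exact hx i hi.1
            · intro i hi j hj hij
              rw [Finset.mem_filter] at hi hj
              exact hs i hi.1 j hj.1 hij
  have e : 60 / (ρ * Z) + Z⁻¹ * (60 / ρ + 6 / ρ * (1 + Real.log (R / ρ))) =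
      (126 + 6 * Real.log (R / ρ)) / (ρ * Z) := by
    field_simp
    ring
  refine (add_le_add a1 a2).trans ?_
  rw [e, div_mul_eq_mul_div]
  gcongr
  linarith

/-- Cauchy-Schwarz for the double sum -/
lemma cs2 {ι κ : Type} (S : Finset ι) (T : Finset κ) {f : ι → ℝ} {g : κ → ℝ} {D : ι → κ → ℝ}
    (hD : ∀ i ∈ S, ∀ j ∈ T, 0 ≤ D i j) {P Q : ℝ}
    (hP : ∑ i ∈ S, f i ^ 2 * ∑ j ∈ T, D i j ≤ P) (hQ : ∑ j ∈ T, g j ^ 2 * ∑ i ∈ S, D i j ≤ Q) :
    ∑ i ∈ S, ∑ j ∈ T, f i * g j * D i j ≤ √P * √Q := by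
  rw [← Finset.sum_product' S T (fun i j => f i * g j * D i j)]
  have h1 := Finset.sum_mul_sq_le_sq_mul_sq (S ×ˢ T) (fun z => f z.1 * √(D z.1 z.2)) (fun z => g z.2 * √(D z.1 z.2))
  have e0 : ∑ z ∈ S ×ˢ T, f z.1 * √(D z.1 z.2) * (g z.2 * √(D z.1 z.2)) = ∑ z ∈ S ×ˢ T, f z.1 * g z.2 * D z.1 z.2 := by
    refine Finset.sum_congr rfl fun z hz => ?_
    rw [Finset.mem_product] at hz
    have := Real.mul_self_sqrt (hD z.1 hz.1 z.2 hz.2)
    calc f z.1 * √(D z.1 z.2) * (g z.2 * √(D z.1 z.2)) = f z.1 * g z.2 * (√(D z.1 z.2) * √(D z.1 z.2)) := by ring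
      _ = _ := by rw [this]
  have e1 : ∑ z ∈ S ×ˢ T, (f z.1 * √(D z.1 z.2)) ^ 2 ≤ P := by
    refine le_trans (le_of_eq ?_) hP
    rw [Finset.sum_product]
    refine Finset.sum_congr rfl fun i hi => ?_
    rw [Finset.mul_sum]
    refine Finset.sum_congr rfl fun j hj => ?_
    rw [mul_pow, Real.sq_sqrt (hD i hi j hj)]
  have e2 : ∑ z ∈ S ×ˢ T, (g z.2 * √(D z.1 z.2)) ^ 2 ≤ Q := by
    refine le_trans (le_of_eq ?_) hQ
    rw [Finset.sum_product_right]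
    refine Finset.sum_congr rfl fun j hj => ?_
    rw [Finset.mul_sum]
    refine Finset.sum_congr rfl fun i hi => ?_
    rw [mul_pow, Real.sq_sqrt (hD i hi j hj)]
  rw [e0] at h1
  have h2 : 0 ≤ ∑ z ∈ S ×ˢ T, (f z.1 * √(D z.1 z.2)) ^ 2 := Finset.sum_nonneg fun _ _ => sq_nonneg _
  have h3 : 0 ≤ ∑ z ∈ S ×ˢ T, (g z.2 * √(D z.1 z.2)) ^ 2 := Finset.sum_nonneg fun _ _ => sq_nonneg _
  rw [← Real.sqrt_mul (h2.trans e1)]
  apply Real.le_sqrt_of_sq_le
  refine h1.trans ?_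
  gcongr
  exact h2.trans e1

/-- the off diagonal part of the Dirichlet polynomial -/
noncomputable def PO (X : ℕ) (u : ℝ) : ℂ := ∑ p ∈ FO X, (cr X p u : ℂ) * ex (u * lam p)

lemma cr_sm : ∃ C : ℝ, 0 < C ∧ ∀ (X : ℕ) (p : ℕ × ℕ), p ∈ FR X → Sm (cr X p) (C * (1 + Real.log X) * (√(ht p))⁻¹) := by
  obtain ⟨-, -, C, hC, h⟩ := Pool.Agent.Y545.GP.t_CR Pool.Agent.Y587.GP.t_V
  exact ⟨C, hC, fun X p hp u hu => h X p hp u hu⟩

lemma lam_abs {X : ℕ} {p : ℕ × ℕ} (hp : p ∈ FR X) : |lam p| ≤ X := by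
  rw [mem_FR'] at hp
  obtain ⟨a, b, c, d⟩ := hp
  have hX1 : 1 ≤ X := le_trans (Nat.mul_pos a b) c
  have h1 : p.1 ≤ X := (Nat.le_mul_of_pos_right _ b).trans c
  have h2 : p.2 ≤ X := (Nat.le_mul_of_pos_left _ a).trans c
  have k : ∀ n : ℕ, 1 ≤ n → n ≤ X → 0 ≤ Real.log n ∧ Real.log n ≤ X := by
    intro n hn hnX
    refine ⟨Real.log_nonneg (by exact_mod_cast hn), ?_⟩
    have hn0 : (0:ℝ) < n := by exact_mod_cast hn
    have := Real.log_le_sub_one_of_pos hn0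
    have : (n : ℝ) ≤ X := by exact_mod_cast hnX
    linarith
  obtain ⟨k1, k2⟩ := k p.1 a h1
  obtain ⟨k3, k4⟩ := k p.2 b h2
  unfold lam
  rw [abs_le]
  constructor <;> linarith

lemma Gf_cont {α β γ : ℝ} (hα : 0 < α) {f1 f2 : ℝ → ℝ} {F1 F2 y1 y2 A A' B B' : ℝ} (H1 : Sm f1 F1) (H2 : Sm f2 F2)
    (hy1 : 0 ≤ y1) (hy2 : 0 ≤ y2) (hA : 0 < A) (hA' : 0 < A') (hB : 0 < B) (hB' : 0 < B') :
    ContinuousOn (fun z : ℝ × ℝ => Gf f1 f2 α β y1 y2 A A' B B' z.1 z.2) (Icc α β ×ˢ Icc 0 γ) := by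
  have hpos1 : ∀ a ∈ Icc α β, ∀ b ∈ Icc 0 γ, 0 < y1 + b * A' + a * A := by
    intro a ha b hb
    have : 0 < a := hα.trans_le ha.1
    have := hb.1
    positivity
  have hpos2 : ∀ a ∈ Icc α β, ∀ b ∈ Icc 0 γ, 0 < y2 + b * B' + a * B := by
    intro a ha b hb
    have : 0 < a := hα.trans_le ha.1
    have := hb.1
    positivity
  have cf : ∀ (f : ℝ → ℝ) (y z x : ℝ), (∀ a ∈ Icc α β, ∀ b ∈ Icc 0 γ, ContinuousAt f (y + b * z + a * x)) →
      ContinuousOn (fun p : ℝ × ℝ => f (y + p.2 * z + p.1 * x)) (Icc α β ×ˢ Icc 0 γ) := by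
    intro f y z x h p hp
    apply ContinuousAt.continuousWithinAt
    exact ContinuousAt.comp (f := fun p : ℝ × ℝ => y + p.2 * z + p.1 * x) (g := f) (h p.1 hp.1 p.2 hp.2) (by fun_prop)
  have ce : ContinuousOn (fun p : ℝ × ℝ => eta α β p.1) (Icc α β ×ˢ Icc 0 γ) := by
    unfold eta
    fun_prop
  have q1 := cf f1 y1 A' A (fun a ha b hb => (H1 _ (hpos1 a ha b hb)).1.continuousAt)
  have q2 := cf f2 y2 B' B (fun a ha b hb => (H2 _ (hpos2 a ha b hb)).1.continuousAt)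
  exact ce.mul (q1.mul q2)

/-- sums and double integrals -/
lemma sum_int2 {ι : Type} {α β γ : ℝ} (hαβ : α ≤ β) (hγ : 0 ≤ γ) (S : Finset ι) {H : ι → ℝ → ℝ → ℂ}
    (hc : ∀ i ∈ S, ContinuousOn (Function.uncurry (H i)) (Icc α β ×ˢ Icc 0 γ)) :
    ∫ a in α..β, ∫ b in (0:ℝ)..γ, ∑ i ∈ S, H i a b = ∑ i ∈ S, ∫ a in α..β, ∫ b in (0:ℝ)..γ, H i a b := by
  have e1 : ∀ a ∈ uIcc α β, ∫ b in (0:ℝ)..γ, ∑ i ∈ S, H i a b = ∑ i ∈ S, ∫ b in (0:ℝ)..γ, H i a b := by
    intro a ha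
    rw [uIcc_of_le hαβ] at ha
    apply intervalIntegral.integral_finsetSum
    intro i hi
    apply ContinuousOn.intervalIntegrable
    rw [uIcc_of_le hγ]
    exact (hc i hi).comp (f := fun b : ℝ => (a, b)) (by fun_prop) (fun b hb => ⟨ha, hb⟩)
  rw [intervalIntegral.integral_congr e1]
  apply intervalIntegral.integral_finsetSum
  intro i hi
  have h1 : IntegrableOn (Function.uncurry (H i)) (Icc α β ×ˢ Icc 0 γ) (volume.prod volume) :=
    (hc i hi).integrableOn_compact (isCompact_Icc.prod isCompact_Icc)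
  have h2 := h1.mono_set (prod_mono (Ioc_subset_Icc_self (a := α) (b := β))
    (Ioc_subset_Icc_self (a := (0:ℝ)) (b := γ)))
  rw [IntegrableOn, ← Measure.prod_restrict] at h2
  have h3 := h2.integral_prod_left
  rw [intervalIntegrable_iff_integrableOn_Ioc_of_le hαβ]
  simp only [intervalIntegral.integral_of_le hγ]
  exact h3

lemma conj_ex (x : ℝ) : (starRingEnd ℂ) (ex x) = ex (-x) := by
  unfold ex
  rw [← Complex.exp_conj]
  congr 1
  simp

/-- expansion of the kernel -/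
lemma ker_exp {α β γ : ℝ} (hα : 0 < α) (hαβ : α ≤ β) (hγ : 0 ≤ γ) {y1 y2 A A' B B' : ℝ}
    (hy1 : 0 ≤ y1) (hy2 : 0 ≤ y2) (hA : 0 < A) (hA' : 0 < A') (hB : 0 < B) (hB' : 0 < B') (X1 X2 : ℕ) :
    ∫ a in α..β, ∫ b in (0:ℝ)..γ, (eta α β a : ℂ) * (PO X1 (y1 + b * A' + a * A) *
      (starRingEnd ℂ) (PO X2 (y2 + b * B' + a * B))) =
    ∑ z ∈ FO X1 ×ˢ FO X2, ex (y1 * lam z.1 - y2 * lam z.2) * ∫ a in α..β, ∫ b in (0:ℝ)..γ,
      (Gf (cr X1 z.1) (cr X2 z.2) α β y1 y2 A A' B B' a b : ℂ) *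
      ex (a * (A * lam z.1 - B * lam z.2)) * ex (b * (A' * lam z.1 - B' * lam z.2)) := by
  obtain ⟨C, hC, hsm⟩ := cr_sm
  have e1 : ∀ a b : ℝ, (eta α β a : ℂ) * (PO X1 (y1 + b * A' + a * A) *
      (starRingEnd ℂ) (PO X2 (y2 + b * B' + a * B))) =
      ∑ z ∈ FO X1 ×ˢ FO X2, ex (y1 * lam z.1 - y2 * lam z.2) *
        ((Gf (cr X1 z.1) (cr X2 z.2) α β y1 y2 A A' B B' a b : ℂ) *
      ex (a * (A * lam z.1 - B * lam z.2)) * ex (b * (A' * lam z.1 - B' * lam z.2))) := by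
    intro a b
    unfold PO
    rw [map_sum, Finset.sum_mul_sum, ← Finset.sum_product' (FO X1) (FO X2)
      (fun p q => (cr X1 p (y1 + b * A' + a * A) : ℂ) * ex ((y1 + b * A' + a * A) * lam p) *
        (starRingEnd ℂ) ((cr X2 q (y2 + b * B' + a * B) : ℂ) * ex ((y2 + b * B' + a * B) * lam q))), Finset.mul_sum]
    refine Finset.sum_congr rfl fun z _ => ?_
    rw [map_mul, Complex.conj_ofReal, conj_ex]
    have k1 : ex (y1 * lam z.1 - y2 * lam z.2) * (ex (a * (A * lam z.1 - B * lam z.2)) *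
        ex (b * (A' * lam z.1 - B' * lam z.2))) =
        ex ((y1 + b * A' + a * A) * lam z.1) * ex (-((y2 + b * B' + a * B) * lam z.2)) := by
      rw [← ex_add, ← ex_add, ← ex_add]
      congr 1
      ring
    unfold Gf
    push_cast
    calc _ = (eta α β a : ℂ) * ((cr X1 z.1 (y1 + b * A' + a * A) : ℂ) * (cr X2 z.2 (y2 + b * B' + a * B) : ℂ)) *
          (ex ((y1 + b * A' + a * A) * lam z.1) * ex (-((y2 + b * B' + a * B) * lam z.2))) := by ring
      _ = _ := by rw [← k1]; ring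
  simp_rw [e1]
  rw [sum_int2 hαβ hγ]
  · refine Finset.sum_congr rfl fun z _ => ?_
    simp only [intervalIntegral.integral_const_mul]
  · intro z hz
    rw [Finset.mem_product] at hz
    have h1 := hsm X1 z.1 (Finset.mem_of_mem_filter _ hz.1)
    have h2 := hsm X2 z.2 (Finset.mem_of_mem_filter _ hz.2)
    refine ContinuousOn.mul continuousOn_const (ContinuousOn.mul (ContinuousOn.mul ?_ ?_) ?_)
    · exact Complex.continuous_ofReal.comp_continuousOn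
        (Gf_cont (γ := γ) hα h1 h2 hy1 hy2 hA hA' hB hB')
    · exact (ex_cont.comp (by fun_prop : Continuous fun w : ℝ × ℝ => w.1 * (A * lam z.1 - B * lam z.2))).continuousOn
    · exact (ex_cont.comp (by fun_prop : Continuous fun w : ℝ × ℝ => w.2 * (A' * lam z.1 - B' * lam z.2))).continuousOn

end Pool.Agent.H471.QP
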