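import Pool.Agent.H471.QP.Spc
import Pool.Agent.H471.GS.Ker

set_option autoImplicit false

/-!
The arithmetic sum over the reduced fractions.
-/

namespace Pool.Agent.H471.QP

open Finset
open Pool.Agent.Y969.GP (ht lam FR PS)
open Pool.Agent.H471.GS (mem_FR' ht_pos)

/-- the reduced fractions different from one -/
def FO (X : ℕ) : Finset (ℕ × ℕ) := (FR X).filter fun p => p ≠ (1, 1)

lemma mem_FO {X : ℕ} {p : ℕ × ℕ} (hp : p ∈ FO X) : 1 ≤ p.1 ∧ 1 ≤ p.2 ∧ p.1 * p.2 ≤ X ∧ Nat.Coprime p.1 p.2 ∧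
    p.1 ≠ p.2 := by
  unfold FO at hp
  rw [mem_filter, mem_FR'] at hp
  obtain ⟨⟨a, b, c, d⟩, e⟩ := hp
  refine ⟨a, b, c, d, fun h => e ?_⟩
  rw [h, Nat.coprime_self] at d
  ext
  · simpa using h.trans d
  · simpa using d

lemma log_lb {a b : ℕ} (ha : 1 ≤ a) (hab : a < b) : ((b - a : ℕ) : ℝ) / b ≤ Real.log b - Real.log a := by
  have ha0 : (0 : ℝ) < a := by exact_mod_cast ha
  have hb0 : (0 : ℝ) < b := by exact_mod_cast (lt_of_lt_of_le ha hab.le)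
  have h2 : Real.log (a / b : ℝ) ≤ a / b - 1 := Real.log_le_sub_one_of_pos (by positivity)
  rw [Real.log_div ha0.ne' hb0.ne'] at h2
  rw [Nat.cast_sub hab.le, sub_div, div_self hb0.ne']
  linarith

lemma lam_ne {X : ℕ} {p : ℕ × ℕ} (hp : p ∈ FO X) : lam p ≠ 0 := by
  obtain ⟨a, b, c, d, e⟩ := mem_FO hp
  unfold lam
  intro h
  have h1 : Real.log (p.2 : ℝ) = Real.log (p.1 : ℝ) := by linarith
  have ha0 : (0 : ℝ) < p.1 := by exact_mod_cast a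
  have hb0 : (0 : ℝ) < p.2 := by exact_mod_cast b
  have h2 := Real.log_injOn_pos hb0 ha0 h1
  exact e (by exact_mod_cast h2.symm)

lemma term {a b : ℕ} (ha : 1 ≤ a) (hab : a < b) : ((a : ℝ) * b)⁻¹ * (Real.log b - Real.log a)⁻¹ ≤
    (a : ℝ)⁻¹ * ((b - a : ℕ) : ℝ)⁻¹ := by
  have h := log_lb ha hab
  have ha0 : (0 : ℝ) < a := by exact_mod_cast ha
  have hb0 : (0 : ℝ) < b := by exact_mod_cast (lt_of_lt_of_le ha hab.le)
  have hba : (0 : ℝ) < ((b - a : ℕ) : ℝ) := by exact_mod_cast (Nat.sub_pos_of_lt hab)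
  calc ((a : ℝ) * b)⁻¹ * (Real.log b - Real.log a)⁻¹ ≤ ((a : ℝ) * b)⁻¹ * (((b - a : ℕ) : ℝ) / b)⁻¹ := by
        gcongr
    _ = _ := by
        rw [inv_div]
        field_simp

lemma harm_sum (X : ℕ) : ∑ a ∈ Icc 1 X, (a : ℝ)⁻¹ ≤ 1 + Real.log X := by
  have := harmonic_le_one_add_log X
  rw [harmonic_eq_sum_Icc] at this
  push_cast at this
  exact this

lemma ari_half (X : ℕ) (S : Finset (ℕ × ℕ)) (hS : ∀ p ∈ S, 1 ≤ p.1 ∧ p.1 < p.2 ∧ p.2 ≤ X) :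
    ∑ p ∈ S, (p.1 : ℝ)⁻¹ * ((p.2 - p.1 : ℕ) : ℝ)⁻¹ ≤ (1 + Real.log X) ^ 2 := by
  have h1 : ∑ p ∈ S, (p.1 : ℝ)⁻¹ * ((p.2 - p.1 : ℕ) : ℝ)⁻¹ =
      ∑ z ∈ S.image (fun p : ℕ × ℕ => ((p.1, p.2 - p.1) : ℕ × ℕ)), (z.1 : ℝ)⁻¹ * (z.2 : ℝ)⁻¹ := by
    rw [sum_image]
    intro p hp q hq h
    obtain ⟨a, b, c⟩ := hS p hp
    obtain ⟨a', b', c'⟩ := hS q hq
    simp only [Prod.mk.injEq] at h
    ext
    · exact h.1
    · omega
  rw [h1]
  have h2 : ∑ z ∈ S.image (fun p : ℕ × ℕ => ((p.1, p.2 - p.1) : ℕ × ℕ)), (z.1 : ℝ)⁻¹ * (z.2 : ℝ)⁻¹ ≤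
      ∑ z ∈ Icc 1 X ×ˢ Icc 1 X, (z.1 : ℝ)⁻¹ * (z.2 : ℝ)⁻¹ := by
    apply sum_le_sum_of_subset_of_nonneg
    · intro z hz
      rw [mem_image] at hz
      obtain ⟨p, hp, rfl⟩ := hz
      obtain ⟨a, b, c⟩ := hS p hp
      rw [mem_product, mem_Icc, mem_Icc]
      refine ⟨⟨a, by omega⟩, by simp only; omega, by simp only; omega⟩
    · intro z _ _
      positivity
  refine h2.trans ?_
  rw [sum_product]
  simp only
  have h3 : ∑ a ∈ Icc 1 X, ∑ b ∈ Icc 1 X, (a : ℝ)⁻¹ * (b : ℝ)⁻¹ = (∑ a ∈ Icc 1 X, (a : ℝ)⁻¹) ^ 2 := by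
    rw [pow_two, sum_mul_sum]
  rw [h3]
  have h4 := harm_sum X
  have h5 : 0 ≤ ∑ a ∈ Icc 1 X, (a : ℝ)⁻¹ := sum_nonneg fun _ _ => by positivity
  gcongr

lemma ari (X : ℕ) : ∑ p ∈ FO X, (ht p)⁻¹ * |lam p|⁻¹ ≤ 2 * (1 + Real.log X) ^ 2 := by
  rw [← sum_filter_add_sum_filter_not (FO X) (fun p => p.1 < p.2)]
  have hle : ∀ p ∈ FO X, p.1 ≤ X ∧ p.2 ≤ X := by
    intro p hp
    obtain ⟨a, b, c, d, e⟩ := mem_FO hp
    exact ⟨(Nat.le_mul_of_pos_right _ b).trans c, (Nat.le_mul_of_pos_left _ a).trans c⟩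
  have h1 : ∑ p ∈ FO X with p.1 < p.2, (ht p)⁻¹ * |lam p|⁻¹ ≤ (1 + Real.log X) ^ 2 := by
    refine le_trans (sum_le_sum (g := fun p : ℕ × ℕ => (p.1 : ℝ)⁻¹ * ((p.2 - p.1 : ℕ) : ℝ)⁻¹) fun p hp => ?_)
      (ari_half X _ ?_)
    · rw [mem_filter] at hp
      obtain ⟨a, b, c, d, e⟩ := mem_FO hp.1
      have h := log_lb a hp.2
      have hb0 : (0 : ℝ) < p.2 := by exact_mod_cast b
      have h0 : 0 ≤ lam p := by
        unfold lam
        refine le_trans ?_ h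
        positivity
      rw [abs_of_nonneg h0]
      exact term a hp.2
    · intro p hp
      rw [mem_filter] at hp
      obtain ⟨a, b, c, d, e⟩ := mem_FO hp.1
      exact ⟨a, hp.2, (hle p hp.1).2⟩
  have h2 : ∑ p ∈ FO X with ¬ p.1 < p.2, (ht p)⁻¹ * |lam p|⁻¹ ≤ (1 + Real.log X) ^ 2 := by
    have e1 : ∑ p ∈ FO X with ¬ p.1 < p.2, (ht p)⁻¹ * |lam p|⁻¹ =
        ∑ q ∈ (filter (fun p => ¬ p.1 < p.2) (FO X)).image Prod.swap, (ht q)⁻¹ * |lam q|⁻¹ := by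
      rw [sum_image (fun _ _ _ _ h => Prod.swap_injective h)]
      refine sum_congr rfl fun p _ => ?_
      have e2 : ht p.swap = ht p := by unfold ht; simp [mul_comm]
      have e3 : lam p.swap = -lam p := by unfold lam; simp
      rw [e2, e3, abs_neg]
    rw [e1]
    have hm : ∀ q ∈ (filter (fun p => ¬ p.1 < p.2) (FO X)).image Prod.swap, 1 ≤ q.1 ∧ q.1 < q.2 ∧ q.2 ≤ X := by
      intro q hq
      rw [mem_image] at hq
      obtain ⟨p, hp, rfl⟩ := hq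
      rw [mem_filter] at hp
      obtain ⟨a, b, c, d, e⟩ := mem_FO hp.1
      simp only [Prod.fst_swap, Prod.snd_swap]
      exact ⟨b, by omega, (hle p hp.1).1⟩
    refine le_trans (sum_le_sum (g := fun p : ℕ × ℕ => (p.1 : ℝ)⁻¹ * ((p.2 - p.1 : ℕ) : ℝ)⁻¹) fun q hq => ?_)
      (ari_half X _ hm)
    obtain ⟨a, b, c⟩ := hm q hq
    have h := log_lb a b
    have h0 : 0 ≤ lam q := by
      unfold lam
      refine le_trans ?_ h
      positivity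
    rw [abs_of_nonneg h0]
    exact term a b
  linarith

end Pool.Agent.H471.QP
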