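import Mathlib

set_option autoImplicit false

/-!
From the mean squares of the block sums to almost sure bounds.
-/

namespace Pool.Agent.H471.QP

open MeasureTheory Finset

/-- the dyadic blocks -/
def blk (i j : ℕ) : Finset ℕ := Ico (j * 2 ^ i) ((j + 1) * 2 ^ i)

/-- the sum of the squares of the dyadic block sums below `2 ^ J` -/
noncomputable def QQ (f : ℕ → ℂ) (J : ℕ) : ℝ :=
  ∑ i ∈ range J, ∑ j ∈ range (2 ^ (J - i)), ‖∑ n ∈ blk i j, f n‖ ^ 2

lemma QQ_nn (f : ℕ → ℂ) (J : ℕ) : 0 ≤ QQ f J := by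
  unfold QQ
  positivity

/-- the truncations -/
lemma trunc_step (f : ℕ → ℂ) {J i N : ℕ} (hi : i < J) (hN : N < 2 ^ J) :
    ‖∑ n ∈ range (N / 2 ^ i * 2 ^ i), f n - ∑ n ∈ range (N / 2 ^ (i + 1) * 2 ^ (i + 1)), f n‖ ^ 2 ≤
      ∑ j ∈ range (2 ^ (J - i)), ‖∑ n ∈ blk i j, f n‖ ^ 2 := by
  have h1 : N / 2 ^ (i + 1) = N / 2 ^ i / 2 := by rw [pow_succ, Nat.div_div_eq_div_mul]
  have hq : N / 2 ^ i < 2 ^ (J - i) := by
    rw [Nat.div_lt_iff_lt_mul (by positivity), ← pow_add]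
    have : J - i + i = J := by omega
    rw [this]
    exact hN
  set q := N / 2 ^ i with hq'
  have h0 : 0 ≤ ∑ j ∈ range (2 ^ (J - i)), ‖∑ n ∈ blk i j, f n‖ ^ 2 := by positivity
  rcases Nat.even_or_odd' q with ⟨m, hm | hm⟩
  · have e : N / 2 ^ (i + 1) * 2 ^ (i + 1) = q * 2 ^ i := by
      rw [h1, hm, Nat.mul_div_cancel_left _ (by norm_num), pow_succ]
      ring
    rw [e, sub_self, norm_zero]
    simpa using h0
  · have e : N / 2 ^ (i + 1) * 2 ^ (i + 1) = (2 * m) * 2 ^ i := by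
      rw [h1, hm, pow_succ]
      have : (2 * m + 1) / 2 = m := by omega
      rw [this]
      ring
    rw [e, hm, ← Finset.sum_sdiff_eq_sub (by
      apply range_subset_range.2
      gcongr
      omega)]
    have e2 : range ((2 * m + 1) * 2 ^ i) \ range (2 * m * 2 ^ i) = blk i (2 * m) := by
      unfold blk
      ext x
      simp only [mem_sdiff, mem_range, not_lt, mem_Ico]
      tauto
    rw [e2]
    exact single_le_sum (f := fun j => ‖∑ n ∈ blk i j, f n‖ ^ 2) (fun _ _ => by positivity)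
      (mem_range.2 (by omega))

lemma partial_le (f : ℕ → ℂ) {J N : ℕ} (hN : N < 2 ^ J) : ‖∑ n ∈ range N, f n‖ ^ 2 ≤ J * QQ f J := by
  have h1 : ∑ n ∈ range N, f n = ∑ i ∈ range J, (∑ n ∈ range (N / 2 ^ i * 2 ^ i), f n -
      ∑ n ∈ range (N / 2 ^ (i + 1) * 2 ^ (i + 1)), f n) := by
    rw [Finset.sum_range_sub' (fun i => ∑ n ∈ range (N / 2 ^ i * 2 ^ i), f n) J]
    rw [Nat.div_eq_of_lt hN]
    simp
  rw [h1]
  refine (pow_le_pow_left₀ (norm_nonneg _) (norm_sum_le _ _) 2).trans ?_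
  refine (sq_sum_le_card_mul_sum_sq (s := range J)).trans ?_
  rw [card_range]
  refine mul_le_mul_of_nonneg_left ?_ (Nat.cast_nonneg J)
  unfold QQ
  refine sum_le_sum fun i hi => ?_
  exact trunc_step f (mem_range.1 hi) hN

/-- **the almost sure bound** -/
theorem gk {Ω : Type} [MeasurableSpace Ω] (μ : Measure Ω) (f : ℕ → Ω → ℂ) {ε C : ℝ} (hε : 0 < ε) (hC : 0 ≤ C)
    (hf : ∀ M H : ℕ, Integrable (fun ω => ‖∑ n ∈ Ico M (M + H), f n ω‖ ^ 2) μ)
    (hb : ∀ M H : ℕ, ∫ ω, ‖∑ n ∈ Ico M (M + H), f n ω‖ ^ 2 ∂μ ≤ C * H * ((M + H : ℕ) : ℝ) ^ ε) :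
    ∀ᵐ ω ∂μ, ∃ K : ℝ, ∀ N : ℕ, ‖∑ n ∈ range N, f n ω‖ ≤ K * (N : ℝ) ^ (1 / 2 + 2 * ε) := by
  have hblk : ∀ i j : ℕ, blk i j = Ico (j * 2 ^ i) (j * 2 ^ i + 2 ^ i) := by
    intro i j
    unfold blk
    congr 1
    ring
  have hQi : ∀ J : ℕ, Integrable (fun ω => QQ (fun n => f n ω) J) μ := by
    intro J
    unfold QQ
    refine integrable_finsetSum _ fun i _ => integrable_finsetSum _ fun j _ => ?_
    rw [hblk]
    exact hf _ _
  have hQb : ∀ J : ℕ, ∫ ω, QQ (fun n => f n ω) J ∂μ ≤ C * J * (2 ^ J * ((2 : ℝ) ^ J) ^ ε) := by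
    intro J
    have e1 : ∫ ω, QQ (fun n => f n ω) J ∂μ = ∑ i ∈ range J, ∑ j ∈ range (2 ^ (J - i)),
        ∫ ω, ‖∑ n ∈ Ico (j * 2 ^ i) (j * 2 ^ i + 2 ^ i), f n ω‖ ^ 2 ∂μ := by
      unfold QQ
      rw [integral_finsetSum _ (fun i _ => integrable_finsetSum _ fun j _ => by rw [hblk]; exact hf _ _)]
      refine sum_congr rfl fun i _ => ?_
      rw [integral_finsetSum _ (fun j _ => by rw [hblk]; exact hf _ _)]
      refine sum_congr rfl fun j _ => ?_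
      rw [hblk]
    rw [e1]
    have e2 : ∀ i ∈ range J, ∑ j ∈ range (2 ^ (J - i)),
        ∫ ω, ‖∑ n ∈ Ico (j * 2 ^ i) (j * 2 ^ i + 2 ^ i), f n ω‖ ^ 2 ∂μ ≤ C * (2 ^ J * ((2 : ℝ) ^ J) ^ ε) := by
      intro i hi
      rw [mem_range] at hi
      have e3 : ∀ j ∈ range (2 ^ (J - i)), ∫ ω, ‖∑ n ∈ Ico (j * 2 ^ i) (j * 2 ^ i + 2 ^ i), f n ω‖ ^ 2 ∂μ ≤
          C * 2 ^ i * ((2 : ℝ) ^ J) ^ ε := by
        intro j hj
        rw [mem_range] at hj
        refine (hb _ _).trans ?_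
        have h2 : j * 2 ^ i + 2 ^ i ≤ 2 ^ J := by
          calc j * 2 ^ i + 2 ^ i = (j + 1) * 2 ^ i := by ring
            _ ≤ 2 ^ (J - i) * 2 ^ i := by gcongr; omega
            _ = 2 ^ J := by rw [← pow_add]; congr 1; omega
        have h3 : ((j * 2 ^ i + 2 ^ i : ℕ) : ℝ) ≤ 2 ^ J := by exact_mod_cast h2
        push_cast at h3 ⊢
        gcongr
      refine (sum_le_sum e3).trans ?_
      rw [sum_const, card_range, nsmul_eq_mul]
      push_cast
      have : (2 : ℝ) ^ (J - i) * 2 ^ i = 2 ^ J := by rw [← pow_add]; congr 1; omega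
      apply le_of_eq
      calc (2 : ℝ) ^ (J - i) * (C * 2 ^ i * ((2 : ℝ) ^ J) ^ ε) = C * (((2 : ℝ) ^ (J - i) * 2 ^ i) * ((2 : ℝ) ^ J) ^ ε) := by ring
        _ = _ := by rw [this]
    refine (sum_le_sum e2).trans ?_
    rw [sum_const, card_range, nsmul_eq_mul]
    apply le_of_eq
    ring
  -- summation over the scales
  set v : ℕ → ℝ := fun J => ((2 : ℝ) ^ J) ^ (-(1 + 2 * ε)) with hv
  have hv0 : ∀ J, 0 < v J := fun J => by rw [hv]; positivity
  have hvQ : ∀ J, ∫ ω, v J * QQ (fun n => f n ω) J ∂μ ≤ C * (J * ((2 : ℝ) ^ (-ε)) ^ J) := by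
    intro J
    rw [integral_const_mul]
    calc v J * ∫ ω, QQ (fun n => f n ω) J ∂μ ≤ v J * (C * J * (2 ^ J * ((2 : ℝ) ^ J) ^ ε)) :=
          mul_le_mul_of_nonneg_left (hQb J) (hv0 J).le
      _ = C * J * (v J * (2 ^ J * ((2 : ℝ) ^ J) ^ ε)) := by ring
      _ = _ := by
          have e1 : v J * (2 ^ J * ((2 : ℝ) ^ J) ^ ε) = ((2 : ℝ) ^ (-ε)) ^ J := by
            simp only [hv]
            have h2 : (0:ℝ) < 2 ^ J := by positivity
            calc ((2 : ℝ) ^ J) ^ (-(1 + 2 * ε)) * (2 ^ J * ((2 : ℝ) ^ J) ^ ε) =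
                  ((2 : ℝ) ^ J) ^ (-(1 + 2 * ε)) * (((2 : ℝ) ^ J) ^ (1 : ℝ) * ((2 : ℝ) ^ J) ^ ε) := by rw [Real.rpow_one]
              _ = ((2 : ℝ) ^ J) ^ (-ε) := by
                  rw [← Real.rpow_add h2, ← Real.rpow_add h2]; congr 1; ring
              _ = _ := by
                  rw [← Real.rpow_natCast, ← Real.rpow_natCast, ← Real.rpow_mul (by norm_num),
                    ← Real.rpow_mul (by norm_num), mul_comm]
          rw [e1]
          ring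
  have hr : ‖(2 : ℝ) ^ (-ε)‖ < 1 := by
    rw [Real.norm_of_nonneg (by positivity)]
    exact Real.rpow_lt_one_of_one_lt_of_neg (by norm_num) (by linarith)
  have hsum : Summable (fun J : ℕ => C * (J * ((2 : ℝ) ^ (-ε)) ^ J)) := by
    have := summable_pow_mul_geometric_of_norm_lt_one 1 hr
    simp only [pow_one] at this
    exact this.mul_left C
  have hint : ∀ J, Integrable (fun ω => v J * QQ (fun n => f n ω) J) μ := fun J => (hQi J).const_mul _
  have hnn : ∀ J ω, 0 ≤ v J * QQ (fun n => f n ω) J := fun J ω => mul_nonneg (hv0 J).le (QQ_nn _ _)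
  have hl : ∫⁻ ω, ∑' J, ENNReal.ofReal (v J * QQ (fun n => f n ω) J) ∂μ < ⊤ := by
    rw [lintegral_tsum (fun J => (hint J).aestronglyMeasurable.aemeasurable.ennreal_ofReal)]
    have e1 : ∀ J, ∫⁻ ω, ENNReal.ofReal (v J * QQ (fun n => f n ω) J) ∂μ ≤
        ENNReal.ofReal (C * (J * ((2 : ℝ) ^ (-ε)) ^ J)) := by
      intro J
      rw [← ofReal_integral_eq_lintegral_ofReal (hint J) (Filter.Eventually.of_forall (hnn J))]
      exact ENNReal.ofReal_le_ofReal (hvQ J)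
    refine (ENNReal.tsum_le_tsum e1).trans_lt ?_
    rw [← ENNReal.ofReal_tsum_of_nonneg (fun J => by positivity) hsum]
    exact ENNReal.ofReal_lt_top
  have hae := ae_lt_top' (AEMeasurable.ennreal_tsum fun J =>
    (hint J).aestronglyMeasurable.aemeasurable.ennreal_ofReal) hl.ne
  filter_upwards [hae] with ω hω
  set K0 : ℝ := (∑' J, ENNReal.ofReal (v J * QQ (fun n => f n ω) J)).toReal with hK0
  have hK : ∀ J, v J * QQ (fun n => f n ω) J ≤ K0 := by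
    intro J
    have h1 := ENNReal.le_tsum (f := fun J => ENNReal.ofReal (v J * QQ (fun n => f n ω) J)) J
    have h2 := ENNReal.toReal_mono hω.ne h1
    rw [ENNReal.toReal_ofReal (hnn J ω)] at h2
    exact h2
  have hK00 : 0 ≤ K0 := ENNReal.toReal_nonneg
  have hlog2 : 0 < Real.log 2 := Real.log_pos (by norm_num)
  set c1 : ℝ := 1 / (2 * ε * Real.log 2) with hc1
  have hc10 : 0 < c1 := by positivity
  refine ⟨√(c1 * K0 * (2 : ℝ) ^ (1 + 4 * ε)), fun N => ?_⟩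
  rcases Nat.eq_zero_or_pos N with hN | hN
  · subst hN
    simp only [range_zero, sum_empty, norm_zero]
    positivity
  set J := Nat.log 2 N + 1 with hJ
  have hNJ : N < 2 ^ J := Nat.lt_pow_succ_log_self (by norm_num) N
  have hJN : (2 : ℝ) ^ J ≤ 2 * N := by
    have h1 : 2 ^ (Nat.log 2 N) ≤ N := Nat.pow_log_le_self 2 (by omega)
    have h2 : (2 : ℝ) ^ (Nat.log 2 N) ≤ N := by exact_mod_cast h1
    rw [hJ, pow_succ]
    linarith
  have h2J : (0:ℝ) < 2 ^ J := by positivity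
  have h1 := partial_le (fun n => f n ω) hNJ
  have h2 : QQ (fun n => f n ω) J ≤ K0 * ((2 : ℝ) ^ J) ^ (1 + 2 * ε) := by
    have h3 := hK J
    have h4 : v J * ((2 : ℝ) ^ J) ^ (1 + 2 * ε) = 1 := by
      simp only [hv]
      rw [← Real.rpow_add h2J]
      simp
    calc QQ (fun n => f n ω) J = (v J * QQ (fun n => f n ω) J) * ((2 : ℝ) ^ J) ^ (1 + 2 * ε) := by
          rw [mul_right_comm, h4, one_mul]
      _ ≤ _ := by gcongr
  have h5 : (J : ℝ) ≤ c1 * ((2 : ℝ) ^ J) ^ (2 * ε) := by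
    have h6 : ((2 : ℝ) ^ J) ^ (2 * ε) = Real.exp (2 * ε * Real.log 2 * J) := by
      rw [Real.rpow_def_of_pos h2J, Real.log_pow]
      congr 1
      ring
    rw [h6, hc1]
    have h7 := Real.add_one_le_exp (2 * ε * Real.log 2 * J)
    rw [div_mul_eq_mul_div, one_mul, le_div_iff₀ (by positivity)]
    nlinarith
  have h8 : ‖∑ n ∈ range N, f n ω‖ ^ 2 ≤ c1 * K0 * (2 : ℝ) ^ (1 + 4 * ε) * (N : ℝ) ^ (1 + 4 * ε) := by
    calc ‖∑ n ∈ range N, f n ω‖ ^ 2 ≤ J * QQ (fun n => f n ω) J := h1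
      _ ≤ (c1 * ((2 : ℝ) ^ J) ^ (2 * ε)) * (K0 * ((2 : ℝ) ^ J) ^ (1 + 2 * ε)) := by
          have := QQ_nn (fun n => f n ω) J
          gcongr
      _ = c1 * K0 * ((2 : ℝ) ^ J) ^ (1 + 4 * ε) := by
          have : ((2 : ℝ) ^ J) ^ (1 + 4 * ε) = ((2 : ℝ) ^ J) ^ (2 * ε) * ((2 : ℝ) ^ J) ^ (1 + 2 * ε) := by
            rw [← Real.rpow_add h2J]; congr 1; ring
          rw [this]
          ring
      _ ≤ c1 * K0 * (2 * (N : ℝ)) ^ (1 + 4 * ε) := by gcongr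
      _ = _ := by
          rw [Real.mul_rpow (by norm_num) (Nat.cast_nonneg N)]
          ring
  have h9 : (N : ℝ) ^ (1 / 2 + 2 * ε) = √((N : ℝ) ^ (1 + 4 * ε)) := by
    rw [Real.sqrt_eq_rpow, ← Real.rpow_mul (Nat.cast_nonneg N)]
    congr 1
    ring
  rw [h9, ← Real.sqrt_mul (by positivity)]
  exact Real.le_sqrt_of_sq_le h8

end Pool.Agent.H471.QP
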