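import Mathlib

set_option autoImplicit false

/-!
Second moments of sums of products of functions of independent variables.
-/

namespace Pool.Agent.H471.QP

open MeasureTheory Finset

lemma sm {Θ : Type} [MeasurableSpace Θ] (μ : Measure Θ) [SigmaFinite μ] {k : ℕ} (I : Finset ℕ) (w : ℕ → ℂ)
    (hw : ∀ n, ‖w n‖ ≤ 1) (g : ℕ → Fin k → Θ → ℂ)
    (hg : ∀ n ∈ I, ∀ m ∈ I, ∀ j, Integrable (fun θ => g n j θ * (starRingEnd ℂ) (g m j θ)) μ) :
    Integrable (fun θ : Fin k → Θ => ‖∑ n ∈ I, w n * ∏ j, g n j (θ j)‖ ^ 2) (Measure.pi fun _ => μ) ∧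
    ∫ θ : Fin k → Θ, ‖∑ n ∈ I, w n * ∏ j, g n j (θ j)‖ ^ 2 ∂(Measure.pi fun _ => μ) ≤
      ∑ n ∈ I, ∑ m ∈ I, ∏ j, ‖∫ θ, g n j θ * (starRingEnd ℂ) (g m j θ) ∂μ‖ := by
  have e1 : ∀ θ : Fin k → Θ, ((‖∑ n ∈ I, w n * ∏ j, g n j (θ j)‖ ^ 2 : ℝ) : ℂ) =
      ∑ n ∈ I, ∑ m ∈ I, (w n * (starRingEnd ℂ) (w m)) * ∏ j, (g n j (θ j) * (starRingEnd ℂ) (g m j (θ j))) := by
    intro θ
    have h := Complex.mul_conj (∑ n ∈ I, w n * ∏ j, g n j (θ j))
    rw [Complex.normSq_eq_norm_sq] at h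
    rw [← h, map_sum, sum_mul_sum]
    refine sum_congr rfl fun n _ => sum_congr rfl fun m _ => ?_
    rw [map_mul, map_prod, prod_mul_distrib]
    ring
  have h2 : ∀ n ∈ I, ∀ m ∈ I, Integrable (fun θ : Fin k → Θ => (w n * (starRingEnd ℂ) (w m)) *
      ∏ j, (g n j (θ j) * (starRingEnd ℂ) (g m j (θ j)))) (Measure.pi fun _ => μ) := by
    intro n hn m hm
    exact (Integrable.fintype_prod (f := fun j θ => g n j θ * (starRingEnd ℂ) (g m j θ)) (hg n hn m hm)).const_mul _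
  have h3 : Integrable (fun θ : Fin k → Θ => ((‖∑ n ∈ I, w n * ∏ j, g n j (θ j)‖ ^ 2 : ℝ) : ℂ))
      (Measure.pi fun _ => μ) := by
    simp_rw [e1]
    exact integrable_finsetSum _ fun n hn => integrable_finsetSum _ fun m hm => h2 n hn m hm
  have h4 : Integrable (fun θ : Fin k → Θ => ‖∑ n ∈ I, w n * ∏ j, g n j (θ j)‖ ^ 2) (Measure.pi fun _ => μ) := by
    have := h3.re
    refine this.congr (Filter.Eventually.of_forall fun θ => ?_)
    exact Complex.ofReal_re _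
  refine ⟨h4, ?_⟩
  have h5 : ((∫ θ : Fin k → Θ, ‖∑ n ∈ I, w n * ∏ j, g n j (θ j)‖ ^ 2 ∂(Measure.pi fun _ => μ) : ℝ) : ℂ) =
      ∑ n ∈ I, ∑ m ∈ I, (w n * (starRingEnd ℂ) (w m)) * ∏ j, ∫ θ, g n j θ * (starRingEnd ℂ) (g m j θ) ∂μ := by
    rw [← integral_complex_ofReal]
    simp_rw [e1]
    rw [integral_finsetSum _ fun n hn => integrable_finsetSum _ fun m hm => h2 n hn m hm]
    refine sum_congr rfl fun n hn => ?_
    rw [integral_finsetSum _ fun m hm => h2 n hn m hm]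
    refine sum_congr rfl fun m hm => ?_
    rw [integral_const_mul, integral_fintype_prod_eq_prod (fun j θ => g n j θ * (starRingEnd ℂ) (g m j θ))]
  have h6 : 0 ≤ ∫ θ : Fin k → Θ, ‖∑ n ∈ I, w n * ∏ j, g n j (θ j)‖ ^ 2 ∂(Measure.pi fun _ => μ) :=
    integral_nonneg fun _ => by positivity
  have h7 : ∫ θ : Fin k → Θ, ‖∑ n ∈ I, w n * ∏ j, g n j (θ j)‖ ^ 2 ∂(Measure.pi fun _ => μ) =
      ‖∑ n ∈ I, ∑ m ∈ I, (w n * (starRingEnd ℂ) (w m)) * ∏ j, ∫ θ, g n j θ * (starRingEnd ℂ) (g m j θ) ∂μ‖ := by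
    rw [← h5, Complex.norm_real, Real.norm_of_nonneg h6]
  rw [h7]
  refine (norm_sum_le _ _).trans (sum_le_sum fun n _ => (norm_sum_le _ _).trans (sum_le_sum fun m _ => ?_))
  rw [norm_mul, norm_mul, norm_prod, RCLike.norm_conj]
  have h8 : ‖w n‖ * ‖w m‖ ≤ 1 * 1 := mul_le_mul (hw n) (hw m) (norm_nonneg _) zero_le_one
  rw [one_mul] at h8
  exact mul_le_of_le_one_left (prod_nonneg fun _ _ => norm_nonneg _) h8

/-- the majorant of the correlations -/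
noncomputable def kap (n m : ℕ) : ℝ :=
  (if n = m then 1 else 2 / |(n : ℝ) - m|) + 4 / √(((n : ℝ) + 1) * (m + 1))

lemma inv_sqrt_sum (M H : ℕ) : ∑ n ∈ Ico M (M + H), (√((n : ℝ) + 1))⁻¹ ≤ 2 * √(H : ℝ) := by
  have h1 : ∑ n ∈ Ico M (M + H), (√((n : ℝ) + 1))⁻¹ ≤ ∑ n ∈ range H, (√((n : ℝ) + 1))⁻¹ := by
    rw [sum_Ico_eq_sum_range, Nat.add_sub_cancel_left]
    refine sum_le_sum fun n _ => ?_
    apply inv_anti₀ (by positivity)
    apply Real.sqrt_le_sqrt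
    push_cast
    have : (0:ℝ) ≤ M := Nat.cast_nonneg M
    linarith
  refine h1.trans ?_
  clear h1
  induction H with
  | zero => simp
  | succ n ih =>
    rw [sum_range_succ]
    have a1 : 0 ≤ √(n : ℝ) := Real.sqrt_nonneg _
    have a2 : 0 < √((n : ℝ) + 1) := Real.sqrt_pos.2 (by positivity)
    have b1 : √(n : ℝ) * √(n : ℝ) = n := Real.mul_self_sqrt (by positivity)
    have b2 : √((n : ℝ) + 1) * √((n : ℝ) + 1) = n + 1 := Real.mul_self_sqrt (by positivity)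
    have c1 : √(n : ℝ) ≤ √((n : ℝ) + 1) := Real.sqrt_le_sqrt (by linarith)
    have c2 : (√((n : ℝ) + 1))⁻¹ ≤ 2 * √((n : ℝ) + 1) - 2 * √(n : ℝ) := by
      rw [inv_le_iff_one_le_mul₀ a2]
      nlinarith
    push_cast
    linarith

lemma inv_diff_sum (M H n : ℕ) (hn : n ∈ Ico M (M + H)) :
    ∑ m ∈ Ico M (M + H), (if n = m then 1 else 2 / |(n : ℝ) - m|) ≤ 5 + 4 * Real.log (H + 1) := by
  have hharm : ∀ L : ℕ, L ≤ H → ∑ i ∈ range L, ((i : ℝ) + 1)⁻¹ ≤ 1 + Real.log (H + 1) := by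
    intro L hL
    have h1 := harmonic_le_one_add_log L
    unfold harmonic at h1
    push_cast at h1
    refine h1.trans ?_
    rcases Nat.eq_zero_or_pos L with h0 | h0
    · subst h0
      simp only [Nat.cast_zero, Real.log_zero, add_zero]
      have : 0 ≤ Real.log ((H : ℝ) + 1) := Real.log_nonneg (by linarith [(Nat.cast_nonneg H : (0:ℝ) ≤ H)])
      linarith
    · have : Real.log L ≤ Real.log ((H : ℝ) + 1) := by
        apply Real.log_le_log (by exact_mod_cast h0)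
        have : (L : ℝ) ≤ H := by exact_mod_cast hL
        linarith
      linarith
  rw [mem_Ico] at hn
  have hsplit : Ico M (M + H) = Ico M n ∪ ({n} ∪ Ico (n + 1) (M + H)) := by
    ext x
    simp only [mem_Ico, mem_union, mem_singleton]
    omega
  have hd1 : Disjoint (Ico M n) ({n} ∪ Ico (n + 1) (M + H)) := by
    rw [disjoint_left]
    intro x hx
    simp only [mem_Ico, mem_union, mem_singleton] at hx ⊢
    omega
  have hd2 : Disjoint ({n} : Finset ℕ) (Ico (n + 1) (M + H)) := by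
    rw [disjoint_left]
    intro x hx
    simp only [mem_Ico, mem_singleton] at hx ⊢
    omega
  rw [hsplit, sum_union hd1, sum_union hd2, sum_singleton, if_pos rfl]
  have s1 : ∑ m ∈ Ico M n, (if n = m then 1 else 2 / |(n : ℝ) - m|) ≤ 2 * (1 + Real.log (H + 1)) := by
    have e : ∑ m ∈ Ico M n, (if n = m then 1 else 2 / |(n : ℝ) - m|) = 2 * ∑ i ∈ range (n - M), ((i : ℝ) + 1)⁻¹ := by
      rw [mul_sum, ← sum_range_reflect (fun i => 2 * ((i : ℝ) + 1)⁻¹), sum_Ico_eq_sum_range]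
      refine sum_congr rfl fun i hi => ?_
      rw [mem_range] at hi
      rw [if_neg (by omega)]
      have h1 : ((n - M - 1 - i : ℕ) : ℝ) + 1 = (n : ℝ) - ((M + i : ℕ) : ℝ) := by
        have : n - M - 1 - i + 1 + (M + i) = n := by omega
        have h2 : ((n - M - 1 - i + 1 + (M + i) : ℕ) : ℝ) = n := by exact_mod_cast this
        push_cast at h2 ⊢
        linarith
      rw [h1, abs_of_nonneg (by rw [← h1]; positivity), div_eq_mul_inv]
    rw [e]
    have := hharm (n - M) (by omega)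
    linarith
  have s2 : ∑ m ∈ Ico (n + 1) (M + H), (if n = m then 1 else 2 / |(n : ℝ) - m|) ≤ 2 * (1 + Real.log (H + 1)) := by
    have e : ∑ m ∈ Ico (n + 1) (M + H), (if n = m then 1 else 2 / |(n : ℝ) - m|) =
        2 * ∑ i ∈ range (M + H - (n + 1)), ((i : ℝ) + 1)⁻¹ := by
      rw [mul_sum, sum_Ico_eq_sum_range]
      refine sum_congr rfl fun i hi => ?_
      rw [if_neg (by omega)]
      have h1 : (n : ℝ) - ((n + 1 + i : ℕ) : ℝ) = -((i : ℝ) + 1) := by push_cast; ring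
      rw [h1, abs_neg, abs_of_nonneg (by positivity), div_eq_mul_inv]
    rw [e]
    have := hharm (M + H - (n + 1)) (by omega)
    linarith
  linarith

lemma kap_sum (M H : ℕ) : ∑ n ∈ Ico M (M + H), ∑ m ∈ Ico M (M + H), kap n m ≤ 25 * (H * (1 + Real.log (H + 1))) := by
  have hl : 0 ≤ Real.log ((H : ℝ) + 1) := Real.log_nonneg (by linarith [(Nat.cast_nonneg H : (0:ℝ) ≤ H)])
  unfold kap
  simp_rw [sum_add_distrib]
  have h1 : ∑ n ∈ Ico M (M + H), ∑ m ∈ Ico M (M + H), (if n = m then 1 else 2 / |(n : ℝ) - m|) ≤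
      H * (5 + 4 * Real.log (H + 1)) := by
    refine (sum_le_card_nsmul _ _ _ fun n hn => inv_diff_sum M H n hn).trans (le_of_eq ?_)
    rw [Nat.card_Ico, nsmul_eq_mul, Nat.add_sub_cancel_left]
  have h2 : ∑ n ∈ Ico M (M + H), ∑ m ∈ Ico M (M + H), 4 / √(((n : ℝ) + 1) * (m + 1)) ≤ 16 * H := by
    have e : ∑ n ∈ Ico M (M + H), ∑ m ∈ Ico M (M + H), 4 / √(((n : ℝ) + 1) * (m + 1)) =
        4 * (∑ n ∈ Ico M (M + H), (√((n : ℝ) + 1))⁻¹) ^ 2 := by
      rw [pow_two, sum_mul_sum, mul_sum]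
      refine sum_congr rfl fun n _ => ?_
      rw [mul_sum]
      refine sum_congr rfl fun m _ => ?_
      rw [Real.sqrt_mul (by positivity), div_eq_mul_inv, mul_inv]
    rw [e]
    have h3 := inv_sqrt_sum M H
    have h4 : 0 ≤ ∑ n ∈ Ico M (M + H), (√((n : ℝ) + 1))⁻¹ := sum_nonneg fun _ _ => by positivity
    calc (4 : ℝ) * (∑ n ∈ Ico M (M + H), (√((n : ℝ) + 1))⁻¹) ^ 2 ≤ (4 : ℝ) * (2 * √(H : ℝ)) ^ 2 := by gcongr
      _ = 16 * (H : ℝ) := by rw [mul_pow, Real.sq_sqrt (Nat.cast_nonneg H)]; ring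
  have : (0:ℝ) ≤ H := Nat.cast_nonneg H
  nlinarith

end Pool.Agent.H471.QP
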