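import Pool.Agent.H471.QP.Fac2
import Pool.Agent.H471.QP.SM
import Pool.Agent.H471.QP.GK

set_option autoImplicit false

/-!
Mean squares over blocks.
-/

namespace Pool.Agent.H471.QP

open Complex MeasureTheory Set
open Pool.Agent.Y969.GP (ht lam FR PS cr PX ff)
open Pool.Agent.H471.GS (mem_FR' ht_pos ff_cont)

lemma kap_nn (n m : ℕ) : 0 ≤ kap n m := by
  unfold kap
  split_ifs <;> positivity

lemma blk2 {k : ℕ} {α β γ : ℝ} (g : ℕ → Fin k → ℝ × ℝ → ℂ) (w : ℕ → ℂ) (hw : ∀ n, ‖w n‖ ≤ 1) (n0 : ℕ)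
    (hc : ∀ n, n0 ≤ n → ∀ j, ContinuousOn (g n j) (bx α β γ)) (i : Fin k) (M H : ℕ) (Z : ℝ) (hZ : 0 ≤ Z)
    (h1 : ∀ n m : ℕ, n0 ≤ n → n < M + H → n0 ≤ m → m < M + H → ∀ j, j ≠ i →
      ‖∫ θ in bx α β γ, g n j θ * (starRingEnd ℂ) (g m j θ)‖ ≤ Z)
    (h2 : ∀ n m : ℕ, n0 ≤ n → n < M + H → n0 ≤ m → m < M + H →
      ‖∫ θ in bx α β γ, g n i θ * (starRingEnd ℂ) (g m i θ)‖ ≤ Z * kap n m) :
    Integrable (fun θ : Fin k → ℝ × ℝ => ‖∑ n ∈ (Finset.Ico M (M + H)).filter (fun n => n0 ≤ n),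
      w n * ∏ j, g n j (θ j)‖ ^ 2) (Measure.pi fun _ => volume.restrict (bx α β γ)) ∧
    ∫ θ : Fin k → ℝ × ℝ, ‖∑ n ∈ (Finset.Ico M (M + H)).filter (fun n => n0 ≤ n),
      w n * ∏ j, g n j (θ j)‖ ^ 2 ∂(Measure.pi fun _ => volume.restrict (bx α β γ)) ≤
      Z ^ k * (25 * (H * (1 + Real.log (H + 1)))) := by
  have hk : k ≠ 0 := by
    rintro rfl
    exact i.elim0
  have hI : ∀ n ∈ (Finset.Ico M (M + H)).filter (fun n => n0 ≤ n), n0 ≤ n ∧ n < M + H := by
    intro n hn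
    rw [Finset.mem_filter, Finset.mem_Ico] at hn
    exact ⟨hn.2, hn.1.2⟩
  obtain ⟨s1, s2⟩ := sm (volume.restrict (bx α β γ)) ((Finset.Ico M (M + H)).filter (fun n => n0 ≤ n)) w hw g (by
    intro n hn m hm j
    exact ((hc n (hI n hn).1 j).mul (RCLike.continuous_conj.comp_continuousOn (hc m (hI m hm).1 j))).integrableOn_compact
      (bx_cpt α β γ))
  refine ⟨s1, s2.trans ?_⟩
  have h3 : ∀ n ∈ (Finset.Ico M (M + H)).filter (fun n => n0 ≤ n), ∀ m ∈ (Finset.Ico M (M + H)).filter (fun n => n0 ≤ n),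
      ∏ j, ‖∫ θ in bx α β γ, g n j θ * (starRingEnd ℂ) (g m j θ)‖ ≤ Z ^ k * kap n m := by
    intro n hn m hm
    obtain ⟨a1, a2⟩ := hI n hn
    obtain ⟨b1, b2⟩ := hI m hm
    rw [← Finset.mul_prod_erase _ _ (Finset.mem_univ i)]
    have h4 : ∏ j ∈ Finset.univ.erase i, ‖∫ θ in bx α β γ, g n j θ * (starRingEnd ℂ) (g m j θ)‖ ≤ Z ^ (k - 1) := by
      calc _ ≤ ∏ j ∈ Finset.univ.erase i, Z := Finset.prod_le_prod (fun _ _ => norm_nonneg _) (by
            intro j hj
            exact h1 n m a1 a2 b1 b2 j (Finset.ne_of_mem_erase hj))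
        _ = Z ^ (k - 1) := by rw [Finset.prod_const, Finset.card_erase_of_mem (Finset.mem_univ i), Finset.card_fin]
    calc _ ≤ (Z * kap n m) * Z ^ (k - 1) := mul_le_mul (h2 n m a1 a2 b1 b2) h4
          (Finset.prod_nonneg fun _ _ => norm_nonneg _) (mul_nonneg hZ (kap_nn n m))
      _ = (Z * Z ^ (k - 1)) * kap n m := by ring
      _ = _ := by rw [mul_pow_sub_one hk]
  have h5 : ∑ n ∈ (Finset.Ico M (M + H)).filter (fun n => n0 ≤ n), ∑ m ∈ (Finset.Ico M (M + H)).filter (fun n => n0 ≤ n),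
      Z ^ k * kap n m ≤ ∑ n ∈ Finset.Ico M (M + H), ∑ m ∈ Finset.Ico M (M + H), Z ^ k * kap n m := by
    have hn : ∀ n m, 0 ≤ Z ^ k * kap n m := fun n m => mul_nonneg (by positivity) (kap_nn n m)
    calc _ ≤ ∑ n ∈ (Finset.Ico M (M + H)).filter (fun n => n0 ≤ n), ∑ m ∈ Finset.Ico M (M + H), Z ^ k * kap n m :=
          Finset.sum_le_sum fun n _ => Finset.sum_le_sum_of_subset_of_nonneg (Finset.filter_subset _ _)
            (fun m _ _ => hn n m)
      _ ≤ _ := Finset.sum_le_sum_of_subset_of_nonneg (Finset.filter_subset _ _)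
            (fun n _ _ => Finset.sum_nonneg fun m _ => hn n m)
  calc _ ≤ ∑ n ∈ (Finset.Ico M (M + H)).filter (fun n => n0 ≤ n),
        ∑ m ∈ (Finset.Ico M (M + H)).filter (fun n => n0 ≤ n), Z ^ k * kap n m :=
        Finset.sum_le_sum fun n hn => Finset.sum_le_sum fun m hm => h3 n hn m hm
    _ ≤ ∑ n ∈ Finset.Ico M (M + H), ∑ m ∈ Finset.Ico M (M + H), Z ^ k * kap n m := h5
    _ = Z ^ k * ∑ n ∈ Finset.Ico M (M + H), ∑ m ∈ Finset.Ico M (M + H), kap n m := by
        simp_rw [Finset.mul_sum]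
    _ ≤ _ := by
        have := kap_sum M H
        gcongr

lemma telc {k : ℕ} (F L D : Fin k → ℂ) (i : Fin k) :
    D i * (∏ j with j < i, L j) * (∏ j with i < j, F j) =
      ∏ j, (if j < i then L j else if j = i then D j else F j) := by
  rw [Finset.prod_ite, Finset.prod_ite]
  have e1 : ((Finset.univ.filter (fun j => ¬ j < i)).filter (fun j => j = i)) = {i} := by
    ext j
    simp only [Finset.mem_filter, Finset.mem_univ, true_and, Finset.mem_singleton]
    constructor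
    · exact fun h => h.2
    · rintro rfl
      exact ⟨lt_irrefl _, rfl⟩
  have e2 : ((Finset.univ.filter (fun j => ¬ j < i)).filter (fun j => ¬ j = i)) =
      Finset.univ.filter (fun j => i < j) := by
    ext j
    simp only [Finset.mem_filter, Finset.mem_univ, true_and]
    constructor
    · exact fun h => lt_of_le_of_ne (not_lt.1 h.1) (Ne.symm h.2)
    · exact fun h => ⟨not_lt.2 h.le, h.ne'⟩
  rw [e1, e2, Finset.prod_singleton]
  ring

lemma tel2 {k : ℕ} (F L P E : Fin k → ℂ) (hE : ∀ j, E j = F j - L j - P j) :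
    ∏ j, F j - ∏ j, L j = ∑ i, ((∏ j, (if j < i then L j else if j = i then P j else F j)) +
      ∏ j, (if j < i then L j else if j = i then E j else F j)) := by
  have h := Finset.prod_sub_ordered Finset.univ F (fun j => F j - L j)
  simp only [sub_sub_cancel] at h
  rw [h, sub_sub_cancel]
  refine Finset.sum_congr rfl fun i _ => ?_
  rw [← telc, ← telc, hE i]
  ring

/-- the gap kernel -/
lemma gap_kap {t s : ℝ} {n m : ℕ} (hnm : n < m) (ht : (n : ℝ) + 1 ≤ t) (hs : t + ((m : ℝ) - n) ≤ s) :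
    √(s / t) / (s - t) ≤ kap n m := by
  have hmn : (1 : ℝ) ≤ (m : ℝ) - n := by
    have : n + 1 ≤ m := hnm
    have h2 : ((n + 1 : ℕ) : ℝ) ≤ m := by exact_mod_cast this
    push_cast at h2
    linarith
  have hn : (0 : ℝ) ≤ n := Nat.cast_nonneg n
  have ht0 : 0 < t := by linarith
  have hs0 : 0 < s := by linarith
  have hst : 0 < s - t := by linarith
  have hms : (m : ℝ) + 1 ≤ s := by linarith
  unfold kap
  rw [if_neg hnm.ne, abs_sub_comm, abs_of_pos (by linarith : (0:ℝ) < m - n)]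
  have p1 : 0 ≤ 2 / ((m : ℝ) - n) := by
    have : (0:ℝ) < (m : ℝ) - n := by linarith
    positivity
  have p2 : 0 ≤ 4 / √(((n : ℝ) + 1) * (m + 1)) := by positivity
  rcases le_total s (2 * t) with h | h
  · have h1 : √(s / t) ≤ 2 := by
      rw [Real.sqrt_le_left (by norm_num)]
      rw [div_le_iff₀ ht0]
      linarith
    have h2 : √(s / t) / (s - t) ≤ 2 / ((m : ℝ) - n) := by
      apply div_le_div₀ (by norm_num) h1 (by linarith) (by linarith)
    linarith
  · have h1 : √(s / t) / (s - t) ≤ 4 / √(((n : ℝ) + 1) * (m + 1)) := by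
      have h3 : √(s / t) * √(((n : ℝ) + 1) * (m + 1)) ≤ s := by
        rw [← Real.sqrt_mul (by positivity)]
        apply Real.sqrt_le_iff.2
        refine ⟨hs0.le, ?_⟩
        have : ((n : ℝ) + 1) * (m + 1) ≤ t * s := by gcongr
        calc s / t * (((n : ℝ) + 1) * (m + 1)) ≤ s / t * (t * s) := by gcongr
          _ = s ^ 2 := by field_simp
      rw [div_le_div_iff₀ hst (by positivity)]
      linarith
    linarith

end Pool.Agent.H471.QP
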