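import Pool.Agent.H471.QP.Mom

set_option autoImplicit false

/-!
The facts on one factor.
-/

namespace Pool.Agent.H471.QP

open Complex MeasureTheory Set
open Pool.Agent.Y969.GP (ht lam FR PS cr PX ff)
open Pool.Agent.H471.GS (mem_FR' ht_pos ff_cont)

/-- length of the approximate functional equation -/
noncomputable def XL (K ε : ℝ) (d : ℕ) (x : ℝ) : ℕ := ⌈(K * x ^ d) ^ (1 + ε)⌉₊

lemma XL_lb (K ε : ℝ) (d : ℕ) (x : ℝ) : (K * x ^ d) ^ (1 + ε) ≤ XL K ε d x := Nat.le_ceil _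

lemma XL_ub {K ε x : ℝ} {d : ℕ} (hK : 1 ≤ K) (hε : 0 < ε) (hx : 1 ≤ x) :
    (XL K ε d x : ℝ) ≤ 2 * (K * x ^ d) ^ (1 + ε) := by
  have h0 : 1 ≤ K * x ^ d := one_le_mul_of_one_le_of_one_le hK (one_le_pow₀ hx)
  have h1 : 1 ≤ (K * x ^ d) ^ (1 + ε) := Real.one_le_rpow h0 (by linarith)
  have h2 := Nat.ceil_lt_add_one (a := (K * x ^ d) ^ (1 + ε)) (by positivity)
  unfold XL
  linarith

lemma XL_ge {K ε x : ℝ} {d : ℕ} (hK : 1 ≤ K) (hε : 0 < ε) (hx : 1 ≤ x) : x ^ d ≤ XL K ε d x := by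
  have h00 : 1 ≤ x ^ d := one_le_pow₀ hx
  have h0 : 1 ≤ K * x ^ d := one_le_mul_of_one_le_of_one_le hK h00
  have h1 : (K * x ^ d) ^ (1 : ℝ) ≤ (K * x ^ d) ^ (1 + ε) := Real.rpow_le_rpow_of_exponent_le h0 (by linarith)
  rw [Real.rpow_one] at h1
  have h2 := XL_lb K ε d x
  nlinarith

lemma PO_cont (X : ℕ) : ContinuousOn (PO X) (Ioi 0) := by
  obtain ⟨C, hC, h⟩ := cr_sm
  unfold PO
  apply continuousOn_finsetSum
  intro p hp
  have hp' := Finset.mem_of_mem_filter _ hp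
  apply ContinuousOn.mul
  · intro u hu
    have := (h X p hp' u hu).1.continuousAt
    exact (Complex.continuous_ofReal.continuousAt.comp this).continuousWithinAt
  · exact (ex_cont.comp (by fun_prop)).continuousOn

lemma LL_cont : ContinuousOn LL (Ioi 0) := by
  unfold LL
  intro u hu
  have hu' : u / (2 * Real.pi) ≠ 0 := by
    have : 0 < u := hu
    positivity
  apply ContinuousAt.continuousWithinAt
  exact ((Real.continuousAt_log hu').comp (f := fun u => u / (2 * Real.pi)) (by fun_prop)).add continuousAt_const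

lemma uu_cont (d e : ℕ) (x y : ℝ) : Continuous (uu d e x y) := by
  unfold uu
  fun_prop

noncomputable def gF (α β : ℝ) (d e : ℕ) (x y : ℝ) (θ : ℝ × ℝ) : ℂ := (rt α β θ : ℂ) * (ff (uu d e x y θ) : ℂ)
noncomputable def gL (α β : ℝ) (d e : ℕ) (x y : ℝ) (θ : ℝ × ℝ) : ℂ := (rt α β θ : ℂ) * (LL (uu d e x y θ) : ℂ)
noncomputable def gP (α β : ℝ) (X : ℕ) (d e : ℕ) (x y : ℝ) (θ : ℝ × ℝ) : ℂ :=
  (rt α β θ : ℂ) * PO X (uu d e x y θ)
noncomputable def gE (α β : ℝ) (X : ℕ) (d e : ℕ) (x y : ℝ) (θ : ℝ × ℝ) : ℂ :=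
  gF α β d e x y θ - gL α β d e x y θ - gP α β X d e x y θ

lemma uu_maps {α β γ x y : ℝ} {d e : ℕ} (hα : 0 < α) (hx : 1 ≤ x) (hy : 0 ≤ y) :
    MapsTo (uu d e x y) (bx α β γ) (Ioi 0) := by
  intro θ hθ
  have := uu_lb (d := d) (e := e) (by linarith : 0 ≤ x) hy hθ
  have h2 : 0 < α * x ^ d := by positivity
  exact lt_of_lt_of_le h2 this

lemma rtc (α β : ℝ) (s : Set (ℝ × ℝ)) : ContinuousOn (fun θ => (rt α β θ : ℂ)) s :=
  (Complex.continuous_ofReal.comp (rt_cont α β)).continuousOn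

lemma gF_cont {α β γ x y : ℝ} {d e : ℕ} : ContinuousOn (gF α β d e x y) (bx α β γ) := by
  unfold gF
  exact (rtc α β _).mul (Complex.continuous_ofReal.comp (ff_cont.comp (uu_cont d e x y))).continuousOn

lemma gL_cont {α β γ x y : ℝ} {d e : ℕ} (hα : 0 < α) (hx : 1 ≤ x) (hy : 0 ≤ y) :
    ContinuousOn (gL α β d e x y) (bx α β γ) := by
  unfold gL
  exact (rtc α β _).mul (Complex.continuous_ofReal.comp_continuousOn
    (LL_cont.comp (uu_cont d e x y).continuousOn (uu_maps hα hx hy)))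

lemma gP_cont {α β γ x y : ℝ} {d e : ℕ} {X : ℕ} (hα : 0 < α) (hx : 1 ≤ x) (hy : 0 ≤ y) :
    ContinuousOn (gP α β X d e x y) (bx α β γ) := by
  unfold gP
  exact (rtc α β _).mul ((PO_cont X).comp (uu_cont d e x y).continuousOn (uu_maps hα hx hy))

lemma gE_cont {α β γ x y : ℝ} {d e : ℕ} {X : ℕ} (hα : 0 < α) (hx : 1 ≤ x) (hy : 0 ≤ y) :
    ContinuousOn (gE α β X d e x y) (bx α β γ) := by
  unfold gE
  exact (gF_cont.sub (gL_cont hα hx hy)).sub (gP_cont hα hx hy)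

lemma bx_cpt (α β γ : ℝ) : IsCompact (bx α β γ) := isCompact_Icc.prod isCompact_Icc

lemma int_sq {α β γ : ℝ} {g : ℝ × ℝ → ℂ} (hg : ContinuousOn g (bx α β γ)) :
    IntegrableOn (fun θ => ‖g θ‖ ^ 2) (bx α β γ) :=
  (hg.norm.pow 2).integrableOn_compact (bx_cpt α β γ)

lemma sq_bd {α β γ M : ℝ} {g : ℝ × ℝ → ℂ} (hM : ∀ θ ∈ bx α β γ, ‖g θ‖ ≤ M) :
    ∫ θ in bx α β γ, ‖g θ‖ ^ 2 ≤ M ^ 2 * volume.real (bx α β γ) := by
  have h := norm_setIntegral_le_of_norm_le_const (f := fun θ => ‖g θ‖ ^ 2) (s := bx α β γ) (μ := volume) (C := M ^ 2)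
    (bx_cpt α β γ).measure_lt_top (by
      intro θ hθ
      rw [Real.norm_of_nonneg (by positivity)]
      have := hM θ hθ
      have h0 := norm_nonneg (g θ)
      gcongr)
  exact (Real.le_norm_self _).trans h

/-- Cauchy-Schwarz -/
lemma cs_int {α β γ P Q : ℝ} {f g : ℝ × ℝ → ℂ} (hf : ContinuousOn f (bx α β γ)) (hg : ContinuousOn g (bx α β γ))
    (hP : 0 < P) (hQ : 0 < Q) (h1 : ∫ θ in bx α β γ, ‖f θ‖ ^ 2 ≤ P) (h2 : ∫ θ in bx α β γ, ‖g θ‖ ^ 2 ≤ Q) :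
    ‖∫ θ in bx α β γ, f θ * (starRingEnd ℂ) (g θ)‖ ≤ √(P * Q) := by
  set l : ℝ := √(Q / P) with hl
  have hl0 : 0 < l := Real.sqrt_pos.2 (by positivity)
  have hl2 : l * l = Q / P := Real.mul_self_sqrt (by positivity)
  have i1 := int_sq hf
  have i2 := int_sq hg
  have h3 : ‖∫ θ in bx α β γ, f θ * (starRingEnd ℂ) (g θ)‖ ≤
      ∫ θ in bx α β γ, (l / 2 * ‖f θ‖ ^ 2 + 1 / (2 * l) * ‖g θ‖ ^ 2) := by
    refine norm_integral_le_of_norm_le ((i1.const_mul _).add (i2.const_mul _)) (Filter.Eventually.of_forall fun θ => ?_)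
    rw [norm_mul, RCLike.norm_conj]
    have a1 : 0 ≤ (l * ‖f θ‖ - ‖g θ‖) ^ 2 := sq_nonneg _
    have e1 : l / 2 * ‖f θ‖ ^ 2 + 1 / (2 * l) * ‖g θ‖ ^ 2 = ‖f θ‖ * ‖g θ‖ + (l * ‖f θ‖ - ‖g θ‖) ^ 2 / (2 * l) := by
      field_simp
      ring
    rw [e1]
    have : 0 ≤ (l * ‖f θ‖ - ‖g θ‖) ^ 2 / (2 * l) := by positivity
    linarith
  rw [integral_add (i1.const_mul _) (i2.const_mul _), integral_const_mul, integral_const_mul] at h3
  refine h3.trans ?_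
  have e2 : √(P * Q) = l / 2 * P + 1 / (2 * l) * Q := by
    have e3 : P * Q = (l * P) * (l * P) := by
      have : (l * P) * (l * P) = (l * l) * (P * P) := by ring
      rw [this, hl2]
      field_simp
    rw [e3, Real.sqrt_mul_self (by positivity)]
    have e4 : Q = l * l * P := by rw [hl2]; field_simp
    rw [e4]
    field_simp
    ring
  rw [e2]
  gcongr

end Pool.Agent.H471.QP
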