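import Pool.Agent.H471.QP.Fac

set_option autoImplicit false

/-!
The bounds on one factor.
-/

namespace Pool.Agent.H471.QP

open Complex MeasureTheory Set
open Pool.Agent.Y969.GP (ht lam FR PS cr PX ff)
open Pool.Agent.H471.GS (mem_FR' ht_pos ff_cont)

lemma LL_le {u : ℝ} (hu : 1 ≤ u) : |LL u| ≤ 9 * (1 + Real.log u) := by
  unfold LL
  have h0 : 0 ≤ Real.log u := Real.log_nonneg hu
  have hpi := Real.pi_lt_d2
  have hpi0 := Real.pi_gt_three
  have h1 : Real.log (u / (2 * Real.pi)) = Real.log u - Real.log (2 * Real.pi) := by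
    rw [Real.log_div (by linarith) (by positivity)]
  have h2 : Real.log (2 * Real.pi) ≤ 2 * Real.pi - 1 := Real.log_le_sub_one_of_pos (by positivity)
  have h3 : 0 ≤ Real.log (2 * Real.pi) := Real.log_nonneg (by linarith)
  have h4 := Real.eulerMascheroniConstant_lt_two_thirds
  have h5 := Real.one_half_lt_eulerMascheroniConstant
  rw [h1, abs_le]
  constructor <;> linarith

lemma rt_le {α β γ : ℝ} (hαβ : α ≤ β) {θ : ℝ × ℝ} (hθ : θ ∈ bx α β γ) : |rt α β θ| ≤ β - α := by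
  have h1 := (eta_le hθ).2
  unfold rt
  rw [abs_of_nonneg (Real.sqrt_nonneg _)]
  exact Real.sqrt_le_iff.2 ⟨by linarith, h1⟩

/-- the size of the off diagonal polynomial against powers -/
lemma XL_pow (K ε ε' : ℝ) (d : ℕ) (hd : 1 ≤ d) (hK : 1 ≤ K) (hε : 0 < ε) (hε' : 0 < ε') (hε1 : ε' ≤ 1)
    (hdε : d * ε' ≤ ε) : ∃ C : ℝ, 0 < C ∧ ∀ t : ℝ, 1 ≤ t →
    (1 + Real.log (XL K ε' d t)) ^ 3 * √(XL K ε' d t / t ^ d) ≤ C * t ^ ε := by
  have hd0 : 0 < (d : ℝ) := by exact_mod_cast hd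
  have hK0 : 0 < K := by linarith
  obtain ⟨η, hη⟩ : ∃ η : ℝ, η = ε / (12 * d) := ⟨_, rfl⟩
  have hη0 : 0 < η := by rw [hη]; positivity
  refine ⟨((1 + 1 / η) * 2 ^ η) ^ 3 * √(2 * K) * K ^ (ε / d), by positivity, fun t ht => ?_⟩
  have ht0 : 0 < t := by linarith
  obtain ⟨A, hA⟩ : ∃ A : ℝ, A = K * t ^ d := ⟨_, rfl⟩
  have htd : 1 ≤ t ^ d := one_le_pow₀ ht
  have hA1 : 1 ≤ A := by rw [hA]; exact one_le_mul_of_one_le_of_one_le hK htd
  have hA0 : 0 < A := by linarith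
  have hX1 := XL_ub (d := d) hK hε' ht
  have hX2 := (htd.trans (XL_ge (d := d) hK hε' ht))
  rw [← hA] at hX1
  obtain ⟨X, hX⟩ : ∃ X : ℝ, X = (XL K ε' d t : ℝ) := ⟨_, rfl⟩
  rw [← hX] at hX1 hX2 ⊢
  have hX0 : 0 < X := by linarith
  have hl : 0 ≤ Real.log X := Real.log_nonneg hX2
  have s1 : 1 + Real.log X ≤ (1 + 1 / η) * 2 ^ η * A ^ (2 * η) := by
    have a1 := one_log hη0 hX2
    have a2 : X ≤ 2 * A ^ (2 : ℝ) := hX1.trans (by
      have := Real.rpow_le_rpow_of_exponent_le hA1 (by linarith : 1 + ε' ≤ 2)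
      linarith)
    have a3 : X ^ η ≤ 2 ^ η * A ^ (2 * η) := by
      calc X ^ η ≤ (2 * A ^ (2 : ℝ)) ^ η := Real.rpow_le_rpow hX0.le a2 hη0.le
        _ = _ := by rw [Real.mul_rpow (by norm_num) (by positivity), ← Real.rpow_mul hA0.le]
    calc 1 + Real.log X ≤ (1 + 1 / η) * X ^ η := a1
      _ ≤ (1 + 1 / η) * (2 ^ η * A ^ (2 * η)) := by gcongr
      _ = _ := by ring
  have s2 : √(X / t ^ d) ≤ √(2 * K) * A ^ (ε' / 2) := by
    have b1 : X / t ^ d ≤ (√(2 * K) * A ^ (ε' / 2)) ^ 2 := by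
      rw [mul_pow, Real.sq_sqrt (by positivity), ← Real.rpow_natCast (A ^ (ε' / 2)), ← Real.rpow_mul hA0.le]
      have : ε' / 2 * ((2 : ℕ) : ℝ) = ε' := by push_cast; ring
      rw [this, div_le_iff₀ (by positivity)]
      calc X ≤ 2 * A ^ (1 + ε') := hX1
        _ = 2 * (A * A ^ ε') := by rw [Real.rpow_add hA0, Real.rpow_one]
        _ = 2 * (K * t ^ d * A ^ ε') := by rw [← hA]
        _ = _ := by ring
    exact Real.sqrt_le_iff.2 ⟨by positivity, b1⟩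
  have s3 : (1 + Real.log X) ^ 3 ≤ ((1 + 1 / η) * 2 ^ η * A ^ (2 * η)) ^ 3 := by gcongr
  have s4 : (A ^ (2 * η)) ^ 3 * A ^ (ε' / 2) ≤ K ^ (ε / d) * t ^ ε := by
    have c1 : (A ^ (2 * η)) ^ 3 * A ^ (ε' / 2) = A ^ (6 * η + ε' / 2) := by
      rw [← Real.rpow_natCast, ← Real.rpow_mul hA0.le, ← Real.rpow_add hA0]
      congr 1
      push_cast
      ring
    have c2 : 6 * η + ε' / 2 ≤ ε / d := by
      have : ε' ≤ ε / d := by rw [le_div_iff₀ hd0]; linarith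
      have : 6 * η = ε / d / 2 := by rw [hη]; field_simp; ring
      linarith
    rw [c1]
    calc A ^ (6 * η + ε' / 2) ≤ A ^ (ε / d) := Real.rpow_le_rpow_of_exponent_le hA1 c2
      _ = K ^ (ε / d) * t ^ ε := by
        rw [hA, Real.mul_rpow hK0.le (by positivity), ← Real.rpow_natCast t d, ← Real.rpow_mul ht0.le]
        congr 2
        field_simp
  calc (1 + Real.log X) ^ 3 * √(X / t ^ d) ≤ ((1 + 1 / η) * 2 ^ η * A ^ (2 * η)) ^ 3 * (√(2 * K) * A ^ (ε' / 2)) := by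
        gcongr
    _ = ((1 + 1 / η) * 2 ^ η) ^ 3 * √(2 * K) * ((A ^ (2 * η)) ^ 3 * A ^ (ε' / 2)) := by ring
    _ ≤ ((1 + 1 / η) * 2 ^ η) ^ 3 * √(2 * K) * (K ^ (ε / d) * t ^ ε) := by gcongr
    _ = _ := by ring

/-- Fubini on the box, complex valued -/
lemma fubC {α β γ : ℝ} (hαβ : α ≤ β) (hγ : 0 ≤ γ) {F : ℝ × ℝ → ℂ} (hF : ContinuousOn F (bx α β γ)) :
    ∫ θ in bx α β γ, F θ = ∫ a in α..β, ∫ b in (0:ℝ)..γ, F (a, b) := by
  have h1 : IntegrableOn F (Icc α β ×ˢ Icc 0 γ) (volume.prod volume) :=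
    ContinuousOn.integrableOn_compact (isCompact_Icc.prod isCompact_Icc) hF
  have e1 : ∫ θ in bx α β γ, F θ = ∫ a in Icc α β, ∫ b in Icc 0 γ, F (a, b) := by
    unfold bx
    rw [Measure.volume_eq_prod, setIntegral_prod _ h1]
  rw [e1]
  simp only [intervalIntegral.integral_of_le hαβ, intervalIntegral.integral_of_le hγ, integral_Icc_eq_integral_Ioc]

lemma three {α β γ : ℝ} {p f l q : ℝ × ℝ → ℂ} (hf : ContinuousOn f (bx α β γ))
    (hl : ContinuousOn l (bx α β γ)) (hq : ContinuousOn q (bx α β γ)) (hpc : ContinuousOn p (bx α β γ))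
    (hp : ∀ θ, p θ = f θ - l θ - q θ) :
    ∫ θ in bx α β γ, ‖p θ‖ ^ 2 ≤ 3 * (∫ θ in bx α β γ, ‖f θ‖ ^ 2) + 3 * (∫ θ in bx α β γ, ‖l θ‖ ^ 2) +
      3 * (∫ θ in bx α β γ, ‖q θ‖ ^ 2) := by
  have iF := int_sq hf
  have iL := int_sq hl
  have iE := int_sq hq
  have iP := int_sq hpc
  have i1 : IntegrableOn (fun θ => 3 * ‖f θ‖ ^ 2 + 3 * ‖l θ‖ ^ 2) (bx α β γ) := (iF.const_mul 3).add (iL.const_mul 3)
  have i2 : IntegrableOn (fun θ => 3 * ‖f θ‖ ^ 2 + 3 * ‖l θ‖ ^ 2 + 3 * ‖q θ‖ ^ 2) (bx α β γ) :=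
    i1.add (iE.const_mul 3)
  have k1 : ∫ θ in bx α β γ, ‖p θ‖ ^ 2 ≤
      ∫ θ in bx α β γ, (3 * ‖f θ‖ ^ 2 + 3 * ‖l θ‖ ^ 2 + 3 * ‖q θ‖ ^ 2) := by
    apply integral_mono iP i2
    intro θ
    show ‖p θ‖ ^ 2 ≤ 3 * ‖f θ‖ ^ 2 + 3 * ‖l θ‖ ^ 2 + 3 * ‖q θ‖ ^ 2
    have k2 : ‖p θ‖ ≤ ‖f θ‖ + ‖l θ‖ + ‖q θ‖ := by
      rw [hp θ]
      refine (norm_sub_le _ _).trans ?_
      gcongr
      exact norm_sub_le _ _
    have n0 := norm_nonneg (p θ)
    calc ‖p θ‖ ^ 2 ≤ (‖f θ‖ + ‖l θ‖ + ‖q θ‖) ^ 2 := by gcongr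
      _ ≤ _ := by
        nlinarith [sq_nonneg (‖f θ‖ - ‖l θ‖), sq_nonneg (‖f θ‖ - ‖q θ‖), sq_nonneg (‖l θ‖ - ‖q θ‖)]
  rw [integral_add i1 (iE.const_mul 3), integral_add (iF.const_mul 3) (iL.const_mul 3), integral_const_mul,
    integral_const_mul, integral_const_mul] at k1
  exact k1

/-- **the facts on one factor** -/
theorem fac (α β γ Y0 : ℝ) (hα : 0 < α) (hαβ : α ≤ β) (hγ : 0 ≤ γ) (hY0 : 0 ≤ Y0) (ε : ℝ) (hε : 0 < ε) (d e : ℕ)
    (he : 1 ≤ e) (hed : e < d) :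
    ∃ (C x0 : ℝ) (X : ℝ → ℕ), 0 < C ∧ 1 ≤ x0 ∧
    (∀ x y : ℝ, x0 ≤ x → 0 ≤ y → y ≤ Y0 * x ^ d →
      ∫ θ in bx α β γ, ‖gF α β d e x y θ‖ ^ 2 ≤ C * x ^ ε ∧
      ∫ θ in bx α β γ, ‖gL α β d e x y θ‖ ^ 2 ≤ C * x ^ ε ∧
      ∫ θ in bx α β γ, ‖gP α β (X x) d e x y θ‖ ^ 2 ≤ C * x ^ ε ∧
      ∫ θ in bx α β γ, ‖gE α β (X x) d e x y θ‖ ^ 2 ≤ C * x⁻¹) ∧
    (∀ t s y1 y2 : ℝ, x0 ≤ t → t < s → 0 ≤ y1 → y1 ≤ Y0 * t ^ d → 0 ≤ y2 → y2 ≤ Y0 * s ^ d →
      ‖∫ θ in bx α β γ, gP α β (X t) d e t y1 θ * (starRingEnd ℂ) (gP α β (X s) d e s y2 θ)‖ ≤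
        C * (t * s) ^ ε * (√(s / t) / (s - t))) := by
  have hβ : 0 < β := by linarith
  obtain ⟨K, hK⟩ : ∃ K : ℝ, K = Y0 + γ + β + 1 := ⟨_, rfl⟩
  have hK0 : 0 < K := by rw [hK]; positivity
  have hK1 : 1 ≤ K := by rw [hK]; linarith
  have hd : 0 < (d : ℝ) := by exact_mod_cast (by omega : 0 < d)
  obtain ⟨ε', hε'⟩ : ∃ ε' : ℝ, ε' = min (1 / 4) (ε / d) := ⟨_, rfl⟩
  have hε'0 : 0 < ε' := by rw [hε']; exact lt_min (by norm_num) (by positivity)
  have hε'4 : ε' ≤ 1 / 4 := by rw [hε']; exact min_le_left _ _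
  have hdε : d * ε' ≤ ε := by
    have : ε' ≤ ε / d := by rw [hε']; exact min_le_right _ _
    rw [le_div_iff₀ hd] at this
    linarith
  obtain ⟨C4, hC4, h4⟩ := mom4 α β γ Y0 hα hαβ hγ hY0 ε hε d e hed
  obtain ⟨CE, hCE, hE⟩ := PO_err ε' hε'0 hε'4
  obtain ⟨CX, hCX, hX⟩ := XL_pow K ε ε' d (by omega) hK1 hε hε'0 (by linarith) hdε
  obtain ⟨CK, hCK, hker⟩ := ker α β γ hα hαβ hγ
  obtain ⟨V, hV⟩ : ∃ V : ℝ, V = volume.real (bx α β γ) := ⟨_, rfl⟩
  have hV0 : 0 ≤ V := by rw [hV]; exact measureReal_nonneg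
  obtain ⟨η, hη⟩ : ∃ η : ℝ, η = ε / (2 * d) := ⟨_, rfl⟩
  have hη0 : 0 < η := by rw [hη]; positivity
  have hba : 0 ≤ β - α := by linarith
  obtain ⟨CL, hCL⟩ : ∃ CL : ℝ, CL = ((β - α) * (9 * (1 + 1 / η))) ^ 2 * K ^ (2 * η) * V := ⟨_, rfl⟩
  have hCL0 : 0 ≤ CL := by rw [hCL]; positivity
  obtain ⟨CF, hCF⟩ : ∃ CF : ℝ, CF = ((β - α) * (CE * α ^ (-(1 / 4) : ℝ))) ^ 2 * V := ⟨_, rfl⟩
  have hCF0 : 0 ≤ CF := by rw [hCF]; positivity
  refine ⟨3 * (C4 + CL + CF) + CK * CX ^ 2, max 1000 (1 / α), XL K ε' d, by positivity,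
    le_trans (by norm_num) (le_max_left _ _), ?_, ?_⟩
  · intro x y hx hy hyx
    have hx1000 : 1000 ≤ x := (le_max_left _ _).trans hx
    have hxα : 1 / α ≤ x := (le_max_right _ _).trans hx
    have hx1 : 1 ≤ x := by linarith
    have hx0 : 0 < x := by linarith
    have hαx : 1 ≤ α * x := by rw [div_le_iff₀ hα] at hxα; linarith
    have hxd : x ≤ x ^ d := le_self_pow₀ hx1 (by omega)
    have hxd2 : x ^ 2 ≤ x ^ d := pow_le_pow_right₀ hx1 (by omega)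
    have hxd1 : 1 ≤ x ^ d := one_le_pow₀ hx1
    have hul : ∀ θ ∈ bx α β γ, 1 ≤ uu d e x y θ := by
      intro θ hθ
      have h1 := uu_lb (d := d) (e := e) hx0.le hy hθ
      have : α * x ≤ α * x ^ d := by gcongr
      linarith
    have huu : ∀ θ ∈ bx α β γ, uu d e x y θ ≤ K * x ^ d := by
      intro θ hθ
      have h1 := uu_ub (e := e) hγ hed hx1 hyx hθ
      rw [hK]
      nlinarith
    have hxε : 0 < x ^ ε := by positivity
    have hxε1 : 1 ≤ x ^ ε := Real.one_le_rpow hx1 hε.le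
    have hxi : x⁻¹ ≤ x ^ ε := (inv_le_one_of_one_le₀ hx1).trans hxε1
    -- F
    have bF : ∫ θ in bx α β γ, ‖gF α β d e x y θ‖ ^ 2 ≤ C4 * x ^ ε := by
      have e1 : ∫ θ in bx α β γ, ‖gF α β d e x y θ‖ ^ 2 = ∫ θ in bx α β γ, eta α β θ.1 * ff (uu d e x y θ) ^ 2 := by
        apply setIntegral_congr_fun (bx_cpt α β γ).measurableSet
        intro θ hθ
        simp only [gF]
        rw [norm_mul, Complex.norm_real, Complex.norm_real, mul_pow, Real.norm_eq_abs, Real.norm_eq_abs, sq_abs,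
          sq_abs, ← rt_sq hθ]
        ring
      rw [e1]
      exact h4 x y hx1 hy hyx hx1000
    -- L
    have bL : ∫ θ in bx α β γ, ‖gL α β d e x y θ‖ ^ 2 ≤ CL * x ^ ε := by
      refine (sq_bd (M := (β - α) * (9 * ((1 + 1 / η) * (K * x ^ d) ^ η))) ?_).trans ?_
      · intro θ hθ
        unfold gL
        rw [norm_mul, Complex.norm_real, Complex.norm_real, Real.norm_eq_abs, Real.norm_eq_abs]
        have k1 := rt_le hαβ hθ
        have k2 := LL_le (hul θ hθ)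
        have k3 : 1 + Real.log (uu d e x y θ) ≤ (1 + 1 / η) * (K * x ^ d) ^ η := by
          have k4 : Real.log (uu d e x y θ) ≤ Real.log (K * x ^ d) :=
            Real.log_le_log (by linarith [hul θ hθ]) (huu θ hθ)
          have k5 := one_log hη0 (by nlinarith : 1 ≤ K * x ^ d)
          linarith
        have k6 : |LL (uu d e x y θ)| ≤ 9 * ((1 + 1 / η) * (K * x ^ d) ^ η) := by linarith
        exact mul_le_mul k1 k6 (abs_nonneg _) hba
      · rw [← hV, hCL]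
        have k1 : ((K * x ^ d) ^ η) ^ 2 = K ^ (2 * η) * x ^ ε := by
          rw [← Real.rpow_natCast, ← Real.rpow_mul (by positivity), Real.mul_rpow hK0.le (by positivity),
            ← Real.rpow_natCast x d, ← Real.rpow_mul hx0.le]
          congr 2
          · push_cast; ring
          · rw [hη]; push_cast; field_simp
        apply le_of_eq
        calc ((β - α) * (9 * ((1 + 1 / η) * (K * x ^ d) ^ η))) ^ 2 * V =
              ((β - α) * (9 * (1 + 1 / η))) ^ 2 * ((K * x ^ d) ^ η) ^ 2 * V := by ring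
          _ = _ := by rw [k1]; ring
    -- E
    have bE : ∫ θ in bx α β γ, ‖gE α β (XL K ε' d x) d e x y θ‖ ^ 2 ≤ CF * x⁻¹ := by
      refine (sq_bd (M := (β - α) * (CE * (α ^ (-(1 / 4) : ℝ) * x ^ (-(1 / 2) : ℝ)))) ?_).trans ?_
      · intro θ hθ
        have e1 : gE α β (XL K ε' d x) d e x y θ = (rt α β θ : ℂ) *
            ((ff (uu d e x y θ) : ℂ) - (LL (uu d e x y θ) : ℂ) - PO (XL K ε' d x) (uu d e x y θ)) := by
          unfold gE gF gL gP
          ring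
        rw [e1, norm_mul, Complex.norm_real, Real.norm_eq_abs]
        have k1 := rt_le hαβ hθ
        have k2 := hE (XL K ε' d x) (uu d e x y θ) (hul θ hθ) (by
          refine le_trans ?_ (XL_lb K ε' d x)
          exact Real.rpow_le_rpow (by linarith [hul θ hθ]) (huu θ hθ) (by linarith))
        have k3 : uu d e x y θ ^ (-(1 / 4) : ℝ) ≤ α ^ (-(1 / 4) : ℝ) * x ^ (-(1 / 2) : ℝ) := by
          have k4 : α * x ^ 2 ≤ uu d e x y θ := by
            have h1 := uu_lb (d := d) (e := e) hx0.le hy hθ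
            have : α * x ^ 2 ≤ α * x ^ d := by gcongr
            linarith
          calc uu d e x y θ ^ (-(1 / 4) : ℝ) ≤ (α * x ^ 2) ^ (-(1 / 4) : ℝ) :=
                Real.rpow_le_rpow_of_nonpos (by positivity) k4 (by norm_num)
            _ = α ^ (-(1 / 4) : ℝ) * x ^ (-(1 / 2) : ℝ) := by
                rw [Real.mul_rpow hα.le (by positivity), ← Real.rpow_natCast x 2, ← Real.rpow_mul hx0.le]
                congr 2
                push_cast
                norm_num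
        have k5 : CE * uu d e x y θ ^ (-(1 / 4) : ℝ) ≤ CE * (α ^ (-(1 / 4) : ℝ) * x ^ (-(1 / 2) : ℝ)) := by gcongr
        exact mul_le_mul k1 (k2.trans k5) (norm_nonneg _) hba
      · rw [← hV, hCF]
        have k1 : (x ^ (-(1 / 2) : ℝ)) ^ 2 = x⁻¹ := by
          rw [← Real.rpow_natCast, ← Real.rpow_mul hx0.le, ← Real.rpow_neg_one]
          congr 1
          push_cast
          norm_num
        apply le_of_eq
        calc ((β - α) * (CE * (α ^ (-(1 / 4) : ℝ) * x ^ (-(1 / 2) : ℝ)))) ^ 2 * V =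
              ((β - α) * (CE * α ^ (-(1 / 4) : ℝ))) ^ 2 * (x ^ (-(1 / 2) : ℝ)) ^ 2 * V := by ring
          _ = _ := by rw [k1]; ring
    -- P
    have bP : ∫ θ in bx α β γ, ‖gP α β (XL K ε' d x) d e x y θ‖ ^ 2 ≤ 3 * (C4 + CL + CF) * x ^ ε := by
      have k1 := three (gF_cont (α := α) (β := β) (γ := γ) (x := x) (y := y) (d := d) (e := e))
        (gL_cont (α := α) (β := β) (γ := γ) (x := x) (y := y) (d := d) (e := e) hα hx1 hy)
        (gE_cont (α := α) (β := β) (γ := γ) (x := x) (y := y) (d := d) (e := e) (X := XL K ε' d x) hα hx1 hy)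
        (gP_cont (α := α) (β := β) (γ := γ) (x := x) (y := y) (d := d) (e := e) (X := XL K ε' d x) hα hx1 hy)
        (fun θ => by unfold gE; ring)
      have k3 : CF * x⁻¹ ≤ CF * x ^ ε := by gcongr
      linarith
    have hCC : 0 ≤ CK * CX ^ 2 := by positivity
    refine ⟨bF.trans ?_, bL.trans ?_, bP.trans ?_, bE.trans ?_⟩
    · gcongr
      linarith
    · gcongr
      linarith
    · gcongr
      linarith
    · have : 0 ≤ x⁻¹ := by positivity
      gcongr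
      linarith
  · intro t s y1 y2 ht hts hy1 hy1t hy2 hy2s
    have ht1 : 1 ≤ t := le_trans (le_trans (by norm_num) (le_max_left _ _)) ht
    have ht0 : 0 < t := by linarith
    have hs1 : 1 ≤ s := by linarith
    have hs0 : 0 < s := by linarith
    have hst : 0 < s - t := by linarith
    have e1 : ∫ θ in bx α β γ, gP α β (XL K ε' d t) d e t y1 θ * (starRingEnd ℂ) (gP α β (XL K ε' d s) d e s y2 θ) =
        ∫ a in α..β, ∫ b in (0:ℝ)..γ, (eta α β a : ℂ) * (PO (XL K ε' d t) (y1 + b * t ^ e + a * t ^ d) *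
      (starRingEnd ℂ) (PO (XL K ε' d s) (y2 + b * s ^ e + a * s ^ d))) := by
      rw [fubC hαβ hγ]
      · apply intervalIntegral.integral_congr
        intro a ha
        rw [uIcc_of_le hαβ] at ha
        apply intervalIntegral.integral_congr
        intro b hb
        rw [uIcc_of_le hγ] at hb
        simp only [gP, uu]
        have k1 := rt_sq (α := α) (β := β) (γ := γ) (θ := (a, b)) ⟨ha, hb⟩
        have k2 : (eta α β a : ℂ) = (rt α β (a, b) : ℂ) * (rt α β (a, b) : ℂ) := by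
          rw [← Complex.ofReal_mul, k1]
        rw [k2, map_mul, Complex.conj_ofReal]
        ring
      · exact (gP_cont hα ht1 hy1).mul (RCLike.continuous_conj.comp_continuousOn (gP_cont hα hs1 hy2))
    rw [e1]
    have k1 := hker d e t s y1 y2 (XL K ε' d t) (XL K ε' d s) he hed ht1 hts hy1 hy2
      (XL_ge hK1 hε'0 ht1) (XL_ge hK1 hε'0 hs1)
    refine k1.trans ?_
    have k2 := hX t ht1
    have k3 := hX s hs1
    have k4 : √((XL K ε' d t : ℝ) / t ^ d * (XL K ε' d s / s ^ d)) =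
        √((XL K ε' d t : ℝ) / t ^ d) * √((XL K ε' d s : ℝ) / s ^ d) := Real.sqrt_mul (by positivity) _
    have hl1 : 0 ≤ Real.log (XL K ε' d t : ℝ) := Real.log_nonneg
      ((one_le_pow₀ ht1).trans (XL_ge (d := d) hK1 hε'0 ht1))
    have hl2 : 0 ≤ Real.log (XL K ε' d s : ℝ) := Real.log_nonneg
      ((one_le_pow₀ hs1).trans (XL_ge (d := d) hK1 hε'0 hs1))
    have k5 : ((1 + Real.log (XL K ε' d t)) * (1 + Real.log (XL K ε' d s))) ^ 3 *
        √((XL K ε' d t : ℝ) / t ^ d * (XL K ε' d s / s ^ d)) ≤ CX ^ 2 * (t * s) ^ ε := by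
      rw [k4]
      calc ((1 + Real.log (XL K ε' d t)) * (1 + Real.log (XL K ε' d s))) ^ 3 *
            (√((XL K ε' d t : ℝ) / t ^ d) * √((XL K ε' d s : ℝ) / s ^ d)) =
            ((1 + Real.log (XL K ε' d t)) ^ 3 * √((XL K ε' d t : ℝ) / t ^ d)) *
            ((1 + Real.log (XL K ε' d s)) ^ 3 * √((XL K ε' d s : ℝ) / s ^ d)) := by ring
        _ ≤ (CX * t ^ ε) * (CX * s ^ ε) := by gcongr
        _ = _ := by rw [Real.mul_rpow ht0.le hs0.le]; ring
    have k6 : 0 ≤ √(s / t) / (s - t) := by positivity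
    have k7 : 0 ≤ (t * s) ^ ε := by positivity
    calc CK * ((1 + Real.log (XL K ε' d t)) * (1 + Real.log (XL K ε' d s))) ^ 3 *
          √((XL K ε' d t : ℝ) / t ^ d * (XL K ε' d s / s ^ d)) * (√(s / t) / (s - t)) =
          CK * (((1 + Real.log (XL K ε' d t)) * (1 + Real.log (XL K ε' d s))) ^ 3 *
          √((XL K ε' d t : ℝ) / t ^ d * (XL K ε' d s / s ^ d))) * (√(s / t) / (s - t)) := by ring
      _ ≤ CK * (CX ^ 2 * (t * s) ^ ε) * (√(s / t) / (s - t)) := by gcongr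
      _ = (CK * CX ^ 2) * (t * s) ^ ε * (√(s / t) / (s - t)) := by ring
      _ ≤ _ := by
        gcongr
        have : 0 ≤ 3 * (C4 + CL + CF) := by positivity
        linarith

end Pool.Agent.H471.QP
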