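import Pool.Agent.H471.QP.Ker2
import Pool.Agent.H471.GS.Ms
import Pool.Graph.R_seed8.Y620.SX.CRA
import Pool.Graph.R_seed8.Y891.GP.AFE
import Pool.Graph.R_seed8.Y587.GP.Chi

set_option autoImplicit false

/-!
The approximation of `|ζ|²` by the main term and the off diagonal polynomial; mean values.
-/

namespace Pool.Agent.H471.QP

open Complex MeasureTheory Set
open Pool.Agent.Y969.GP (ht lam FR PS cr PX ff)
open Pool.Agent.H471.GS (mem_FR' ht_pos ff_cont)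

/-- the main term -/
noncomputable def LL (u : ℝ) : ℝ := Real.log (u / (2 * Real.pi)) + 2 * Real.eulerMascheroniConstant

lemma FR_FO {X : ℕ} (hX : 1 ≤ X) (f : ℕ × ℕ → ℂ) : ∑ p ∈ FR X, f p = f (1, 1) + ∑ p ∈ FO X, f p := by
  have h1 : (1, 1) ∈ FR X := by
    rw [mem_FR']
    exact ⟨le_rfl, le_rfl, by simpa using hX, by norm_num⟩
  unfold FO
  rw [← Finset.sum_filter_add_sum_filter_not (FR X) (fun p => p = (1, 1)), Finset.filter_eq' (FR X) (1, 1), if_pos h1,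
    Finset.sum_singleton]

lemma PO_err (ε : ℝ) (hε : 0 < ε) (hε4 : ε ≤ 1 / 4) : ∃ C : ℝ, 0 < C ∧ ∀ (X : ℕ) (u : ℝ), 1 ≤ u →
    u ^ (1 + ε) ≤ (X : ℝ) → ‖(ff u : ℂ) - (LL u : ℂ) - PO X u‖ ≤ C * u ^ (-(1 / 4) : ℝ) := by
  obtain ⟨C1, hC1, h1⟩ := Pool.Agent.Y891.GP.t_AFE Pool.Agent.Y587.GP.t_V Pool.Agent.Y587.GP.Chi.t_CHI ε hε
  obtain ⟨C3, hC3, h3⟩ := Pool.Agent.Y620.SX.t_CRA' ε hε
  obtain ⟨hgr, -⟩ := Pool.Agent.Y545.GP.t_CR Pool.Agent.Y587.GP.t_V
  refine ⟨C1 + C3, by positivity, fun X u hu hX => ?_⟩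
  have hu0 : 0 < u := by linarith
  have hX1 : (1 : ℝ) ≤ X := le_trans (Real.one_le_rpow hu (by linarith)) hX
  have hXn : 1 ≤ X := by exact_mod_cast hX1
  have s1 := h1 u X hu hX
  have s2 := h3 X (1, 1) u le_rfl le_rfl hu hX (by
    have : ht (1, 1) = 1 := by unfold ht; norm_num
    rw [this]
    exact Real.one_le_rpow hu (by norm_num))
  have e1 : ht (1, 1) = 1 := by unfold ht; norm_num
  rw [e1, Real.sqrt_one, one_mul, mul_one] at s2
  have e2 : PX X u = (cr X (1, 1) u : ℂ) + PO X u := by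
    rw [hgr, FR_FO hXn]
    have : lam (1, 1) = 0 := by unfold lam; simp
    rw [this]
    unfold PO ex
    simp
  have e3 : (ff u : ℂ) - (LL u : ℂ) - PO X u = ((ff u : ℂ) - PX X u) + ((cr X (1, 1) u - LL u : ℝ) : ℂ) := by
    rw [e2]
    push_cast
    ring
  rw [e3]
  refine (norm_add_le _ _).trans ?_
  rw [Complex.norm_real, Real.norm_eq_abs]
  have s3 : u ^ (-(1 / 2) + ε) ≤ u ^ (-(1 / 4) : ℝ) := Real.rpow_le_rpow_of_exponent_le hu (by linarith)
  calc ‖(ff u : ℂ) - PX X u‖ + |cr X (1, 1) u - LL u| ≤ C1 * u ^ (-(1 / 2) + ε) + C3 * u ^ (-(1 / 4) : ℝ) :=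
        add_le_add s1 s2
    _ ≤ C1 * u ^ (-(1 / 4) : ℝ) + C3 * u ^ (-(1 / 4) : ℝ) := by gcongr
    _ = _ := by ring

/-- logarithms against powers -/
lemma one_log {η : ℝ} (hη : 0 < η) {z : ℝ} (hz : 1 ≤ z) : 1 + Real.log z ≤ (1 + 1 / η) * z ^ η := by
  have h1 := Real.log_le_rpow_div (by linarith : 0 ≤ z) hη
  have h2 := Real.one_le_rpow hz hη.le
  calc 1 + Real.log z ≤ z ^ η + z ^ η / η := add_le_add h2 h1
    _ = _ := by ring

/-- the height -/
def uu (d e : ℕ) (x y : ℝ) (θ : ℝ × ℝ) : ℝ := y + θ.2 * x ^ e + θ.1 * x ^ d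

/-- the box of the parameters -/
def bx (α β γ : ℝ) : Set (ℝ × ℝ) := Icc α β ×ˢ Icc 0 γ

lemma uu_lb {α β γ x y : ℝ} {d e : ℕ} (hx : 0 ≤ x) (hy : 0 ≤ y) {θ : ℝ × ℝ} (hθ : θ ∈ bx α β γ) :
    α * x ^ d ≤ uu d e x y θ := by
  unfold uu
  obtain ⟨⟨h1, h2⟩, h3, h4⟩ := hθ
  have : α * x ^ d ≤ θ.1 * x ^ d := by gcongr
  have : 0 ≤ θ.2 * x ^ e := by positivity
  linarith

lemma uu_ub {α β γ x y Y0 : ℝ} {d e : ℕ} (hγ : 0 ≤ γ) (hed : e < d) (hx : 1 ≤ x) (hy : y ≤ Y0 * x ^ d) {θ : ℝ × ℝ}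
    (hθ : θ ∈ bx α β γ) : uu d e x y θ ≤ (Y0 + γ + β) * x ^ d := by
  unfold uu
  obtain ⟨⟨h1, h2⟩, h3, h4⟩ := hθ
  have a1 : x ^ e ≤ x ^ d := pow_le_pow_right₀ hx hed.le
  have : θ.1 * x ^ d ≤ β * x ^ d := by gcongr
  have : θ.2 * x ^ e ≤ γ * x ^ d := by gcongr
  linarith

/-- the square root of the weight -/
noncomputable def rt (α β : ℝ) (θ : ℝ × ℝ) : ℝ := √(eta α β θ.1)

lemma rt_cont (α β : ℝ) : Continuous (rt α β) := by
  unfold rt eta
  fun_prop

lemma rt_sq {α β γ : ℝ} {θ : ℝ × ℝ} (hθ : θ ∈ bx α β γ) : rt α β θ * rt α β θ = eta α β θ.1 := by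
  unfold rt
  apply Real.mul_self_sqrt
  obtain ⟨⟨h1, h2⟩, -⟩ := hθ
  unfold eta
  nlinarith

lemma eta_le {α β γ : ℝ} {θ : ℝ × ℝ} (hθ : θ ∈ bx α β γ) : 0 ≤ eta α β θ.1 ∧ eta α β θ.1 ≤ (β - α) ^ 2 := by
  obtain ⟨⟨h1, h2⟩, -⟩ := hθ
  unfold eta
  constructor
  · nlinarith
  · nlinarith

/-- Fubini on the box, real valued -/
lemma fubR {α β γ : ℝ} (hαβ : α ≤ β) (hγ : 0 ≤ γ) {F : ℝ × ℝ → ℝ} (hF : ContinuousOn F (bx α β γ)) :
    ∫ θ in bx α β γ, F θ = ∫ b in (0:ℝ)..γ, ∫ a in α..β, F (a, b) := by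
  have h1 : IntegrableOn F (Icc α β ×ˢ Icc 0 γ) (volume.prod volume) :=
    ContinuousOn.integrableOn_compact (isCompact_Icc.prod isCompact_Icc) hF
  have e1 : ∫ θ in bx α β γ, F θ = ∫ a in Icc α β, ∫ b in Icc 0 γ, F (a, b) := by
    unfold bx
    rw [Measure.volume_eq_prod, setIntegral_prod _ h1]
  rw [e1]
  have h2 := h1
  rw [IntegrableOn, ← Measure.prod_restrict] at h2
  rw [integral_integral_swap (f := fun a b => F (a, b)) h2]
  simp only [intervalIntegral.integral_of_le hαβ, intervalIntegral.integral_of_le hγ, integral_Icc_eq_integral_Ioc]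

/-- the fourth moment over the parameters -/
lemma mom4 (α β γ Y0 : ℝ) (hα : 0 < α) (hαβ : α ≤ β) (hγ : 0 ≤ γ) (hY0 : 0 ≤ Y0) (ε : ℝ) (hε : 0 < ε) (d e : ℕ)
    (hed : e < d) :
    ∃ C : ℝ, 0 < C ∧ ∀ x y : ℝ, 1 ≤ x → 0 ≤ y → y ≤ Y0 * x ^ d → 1000 ≤ x →
    ∫ θ in bx α β γ, eta α β θ.1 * ff (uu d e x y θ) ^ 2 ≤ C * x ^ ε := by
  have hβ : 0 < β := by linarith
  obtain ⟨K, hK⟩ : ∃ K : ℝ, K = Y0 + γ + β + 1 := ⟨_, rfl⟩
  have hK0 : 0 < K := by rw [hK]; positivity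
  have hK1 : 1 ≤ K := by rw [hK]; linarith
  have hd : 0 < (d : ℝ) := by exact_mod_cast (by omega : 0 < d)
  obtain ⟨η, hη⟩ : ∃ η : ℝ, η = ε / (4 * d) := ⟨_, rfl⟩
  have hη0 : 0 < η := by rw [hη]; positivity
  refine ⟨γ * ((β - α) ^ 2 * (K * ((1 + 1 / η) ^ 4 * K ^ (4 * η)))) + 1, by positivity, fun x y hx hy hyx hx2 => ?_⟩
  have hx0 : 0 < x := by linarith
  have hxd : x ≤ x ^ d := le_self_pow₀ hx (by omega)
  have hA : 0 < x ^ d := by positivity
  have hc : ContinuousOn (fun θ : ℝ × ℝ => eta α β θ.1 * ff (uu d e x y θ) ^ 2) (bx α β γ) := by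
    apply Continuous.continuousOn
    apply Continuous.mul
    · unfold eta; fun_prop
    · exact (ff_cont.comp (by unfold uu; fun_prop)).pow 2
  rw [fubR hαβ hγ hc]
  have h1 : ∀ b ∈ Icc 0 γ, ∫ a in α..β, eta α β a * ff (uu d e x y (a, b)) ^ 2 ≤
      (β - α) ^ 2 * (K * Real.log (K * x ^ d) ^ 4) := by
    intro b hb
    have g1 : ∫ a in α..β, eta α β a * ff (uu d e x y (a, b)) ^ 2 ≤
        ∫ a in α..β, (β - α) ^ 2 * ff (uu d e x y (a, b)) ^ 2 := by
      apply intervalIntegral.integral_mono_on hαβ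
      · apply Continuous.intervalIntegrable
        apply Continuous.mul
        · unfold eta; fun_prop
        · exact (ff_cont.comp (by unfold uu; fun_prop)).pow 2
      · apply Continuous.intervalIntegrable
        exact continuous_const.mul ((ff_cont.comp (by unfold uu; fun_prop)).pow 2)
      · intro a ha
        have := (eta_le (α := α) (β := β) (γ := γ) (θ := (a, b)) ⟨ha, hb⟩).2
        simp only at this
        gcongr
    refine g1.trans ?_
    rw [intervalIntegral.integral_const_mul]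
    refine mul_le_mul_of_nonneg_left ?_ (sq_nonneg _)
    have g2 : ∫ a in α..β, ff (uu d e x y (a, b)) ^ 2 =
        (x ^ d)⁻¹ * ∫ v in (x ^ d * α + (y + b * x ^ e))..(x ^ d * β + (y + b * x ^ e)), ff v ^ 2 := by
      rw [← smul_eq_mul, ← intervalIntegral.integral_comp_mul_add (fun v => ff v ^ 2) hA.ne']
      congr 1
      funext a
      unfold uu
      simp only
      congr 2
      ring
    rw [g2, inv_mul_le_iff₀ hA]
    have hbx : 0 ≤ b * x ^ e := mul_nonneg hb.1 (by positivity)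
    have hbx2 : b * x ^ e ≤ γ * x ^ d := by
      have a1 : x ^ e ≤ x ^ d := pow_le_pow_right₀ hx hed.le
      exact mul_le_mul hb.2 a1 (by positivity) hγ
    have hc2 : Continuous (fun v => ff v ^ 2) := ff_cont.pow 2
    have hKx : 1000 ≤ K * x ^ d := by nlinarith
    have g3 : ∫ v in (x ^ d * α + (y + b * x ^ e))..(x ^ d * β + (y + b * x ^ e)), ff v ^ 2 ≤
        ∫ v in (0:ℝ)..(K * x ^ d), ff v ^ 2 := by
      apply intervalIntegral.integral_mono_interval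
      · positivity
      · gcongr
      · rw [hK]
        nlinarith
      · exact Filter.Eventually.of_forall fun v => by positivity
      · exact hc2.intervalIntegrable _ _
    have g4 := Pool.Agent.TH158.FM.fourth_all (K * x ^ d) hKx
    have g5 : ∫ v in (0:ℝ)..(K * x ^ d), ff v ^ 2 =
        ∫ t in (0:ℝ)..(K * x ^ d), ‖riemannZeta (Pool.Agent.TH158.FM.pt (1 / 2) t)‖ ^ 4 := by
      congr 1
      funext v
      unfold ff Pool.Agent.TH158.FM.pt
      rw [← pow_mul]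
      congr 3
      push_cast
      ring
    rw [← g5] at g4
    have hl : 0 ≤ Real.log (K * x ^ d) := Real.log_nonneg (by linarith)
    calc _ ≤ 4 / 5 * (K * x ^ d * Real.log (K * x ^ d) ^ 4) := g3.trans g4
      _ ≤ 1 * (K * x ^ d * Real.log (K * x ^ d) ^ 4) := by gcongr; norm_num
      _ = _ := by ring
  have hl : 0 ≤ Real.log (K * x ^ d) := Real.log_nonneg (by nlinarith)
  have h2 : Real.log (K * x ^ d) ^ 4 ≤ (1 + 1 / η) ^ 4 * K ^ (4 * η) * x ^ ε := by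
    have k1 : Real.log (K * x ^ d) ≤ (1 + 1 / η) * (K * x ^ d) ^ η := by
      have := one_log hη0 (by nlinarith : 1 ≤ K * x ^ d)
      linarith
    calc Real.log (K * x ^ d) ^ 4 ≤ ((1 + 1 / η) * (K * x ^ d) ^ η) ^ 4 := by gcongr
      _ = (1 + 1 / η) ^ 4 * ((K * x ^ d) ^ η) ^ 4 := by ring
      _ = (1 + 1 / η) ^ 4 * K ^ (4 * η) * x ^ ε := by
          have k2 : ((K * x ^ d) ^ η) ^ 4 = K ^ (4 * η) * x ^ ε := by
            rw [← Real.rpow_natCast, ← Real.rpow_mul (by positivity), Real.mul_rpow hK0.le (by positivity),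
              ← Real.rpow_natCast x d, ← Real.rpow_mul hx0.le]
            congr 2
            · push_cast; ring
            · rw [hη]; push_cast; field_simp
          rw [k2]
          ring
  have h3 := intervalIntegral.norm_integral_le_of_norm_le_const (a := 0) (b := γ)
    (C := (β - α) ^ 2 * (K * Real.log (K * x ^ d) ^ 4))
    (f := fun b : ℝ => ∫ a in α..β, eta α β a * ff (uu d e x y (a, b)) ^ 2) (by
      intro b hb
      rw [uIoc_of_le hγ] at hb
      have hb' : b ∈ Icc 0 γ := ⟨hb.1.le, hb.2⟩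
      rw [Real.norm_of_nonneg]
      · exact h1 b hb'
      · apply intervalIntegral.integral_nonneg hαβ
        intro a ha
        have := (eta_le (α := α) (β := β) (γ := γ) (θ := (a, b)) ⟨ha, hb'⟩).1
        simp only at this
        positivity)
  refine (Real.le_norm_self _).trans (h3.trans ?_)
  rw [sub_zero, abs_of_nonneg hγ]
  have hxε : 0 ≤ x ^ ε := by positivity
  calc (β - α) ^ 2 * (K * Real.log (K * x ^ d) ^ 4) * γ ≤
        (β - α) ^ 2 * (K * ((1 + 1 / η) ^ 4 * K ^ (4 * η) * x ^ ε)) * γ := by gcongr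
    _ = (γ * ((β - α) ^ 2 * (K * ((1 + 1 / η) ^ 4 * K ^ (4 * η))))) * x ^ ε := by ring
    _ ≤ _ := by gcongr; linarith

end Pool.Agent.H471.QP
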