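import Mathlib

set_option autoImplicit false

/-!
Oscillatory integrals in one variable.
-/

namespace Pool.Agent.H471.QP

open Complex MeasureTheory Set

/-- once differentiable with bounds -/
def C1 (α β : ℝ) (h h1 : ℝ → ℝ) (B0 B1 : ℝ) : Prop :=
  ∀ a ∈ Icc α β, HasDerivAt h (h1 a) a ∧ ContinuousAt h1 a ∧ |h a| ≤ B0 ∧ |h1 a| ≤ B1

/-- twice differentiable with bounds -/
def C2 (α β : ℝ) (h h1 h2 : ℝ → ℝ) (B0 B1 B2 : ℝ) : Prop :=
  ∀ a ∈ Icc α β, HasDerivAt h (h1 a) a ∧ HasDerivAt h1 (h2 a) a ∧ ContinuousAt h2 a ∧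
    |h a| ≤ B0 ∧ |h1 a| ≤ B1 ∧ |h2 a| ≤ B2

lemma C2.c1 {α β : ℝ} {h h1 h2 : ℝ → ℝ} {B0 B1 B2 : ℝ} (H : C2 α β h h1 h2 B0 B1 B2) :
    C1 α β h h1 B0 B1 := fun a ha => by
  obtain ⟨a1, a2, a3, a4, a5, a6⟩ := H a ha
  exact ⟨a1, a2.continuousAt, a4, a5⟩

lemma C2.c1' {α β : ℝ} {h h1 h2 : ℝ → ℝ} {B0 B1 B2 : ℝ} (H : C2 α β h h1 h2 B0 B1 B2) :
    C1 α β h1 h2 B1 B2 := fun a ha => by
  obtain ⟨a1, a2, a3, a4, a5, a6⟩ := H a ha
  exact ⟨a2, a3, a5, a6⟩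

lemma C1.mul {α β : ℝ} {h h1 k k1 : ℝ → ℝ} {B0 B1 D0 D1 : ℝ} (H : C1 α β h h1 B0 B1) (K : C1 α β k k1 D0 D1) :
    C1 α β (fun a => h a * k a) (fun a => h1 a * k a + h a * k1 a) (B0 * D0) (B1 * D0 + B0 * D1) := by
  intro a ha
  obtain ⟨a1, a2, a3, a4⟩ := H a ha
  obtain ⟨b1, b2, b3, b4⟩ := K a ha
  have hB0 := (abs_nonneg _).trans a3
  have hB1 := (abs_nonneg _).trans a4
  refine ⟨a1.mul b1, ?_, ?_, ?_⟩
  · exact (a2.mul b1.continuousAt).add (a1.continuousAt.mul b2)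
  · rw [abs_mul]; gcongr
  · refine (abs_add_le _ _).trans ?_
    rw [abs_mul, abs_mul]
    gcongr

lemma C1.add {α β : ℝ} {h h1 k k1 : ℝ → ℝ} {B0 B1 D0 D1 : ℝ} (H : C1 α β h h1 B0 B1) (K : C1 α β k k1 D0 D1) :
    C1 α β (fun a => h a + k a) (fun a => h1 a + k1 a) (B0 + D0) (B1 + D1) := by
  intro a ha
  obtain ⟨a1, a2, a3, a4⟩ := H a ha
  obtain ⟨b1, b2, b3, b4⟩ := K a ha
  exact ⟨a1.add b1, a2.add b2, (abs_add_le _ _).trans (add_le_add a3 b3),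
    (abs_add_le _ _).trans (add_le_add a4 b4)⟩

lemma C1.mono {α β : ℝ} {h h1 : ℝ → ℝ} {B0 B1 D0 D1 : ℝ} (H : C1 α β h h1 B0 B1) (h0 : B0 ≤ D0) (h1' : B1 ≤ D1) :
    C1 α β h h1 D0 D1 := fun a ha => by
  obtain ⟨a1, a2, a3, a4⟩ := H a ha
  exact ⟨a1, a2, a3.trans h0, a4.trans h1'⟩

lemma C2.mul {α β : ℝ} {h h1 h2 k k1 k2 : ℝ → ℝ} {B0 B1 B2 D0 D1 D2 : ℝ} (H : C2 α β h h1 h2 B0 B1 B2)
    (K : C2 α β k k1 k2 D0 D1 D2) :
    C2 α β (fun a => h a * k a) (fun a => h1 a * k a + h a * k1 a)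
      (fun a => (h2 a * k a + h1 a * k1 a) + (h1 a * k1 a + h a * k2 a))
      (B0 * D0) (B1 * D0 + B0 * D1) ((B2 * D0 + B1 * D1) + (B1 * D1 + B0 * D2)) := by
  have A := H.c1.mul K.c1
  have B := (H.c1'.mul K.c1).add (H.c1.mul K.c1')
  intro a ha
  obtain ⟨a1, a2, a3, a4⟩ := A a ha
  obtain ⟨b1, b2, b3, b4⟩ := B a ha
  exact ⟨a1, b1, b2, a3, a4, b4⟩

lemma C2.mono {α β : ℝ} {h h1 h2 : ℝ → ℝ} {B0 B1 B2 D0 D1 D2 : ℝ} (H : C2 α β h h1 h2 B0 B1 B2)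
    (h0 : B0 ≤ D0) (h1' : B1 ≤ D1) (h2' : B2 ≤ D2) :
    C2 α β h h1 h2 D0 D1 D2 := fun a ha => by
  obtain ⟨a1, a2, a3, a4, a5, a6⟩ := H a ha
  exact ⟨a1, a2, a3, a4.trans h0, a5.trans h1', a6.trans h2'⟩

/-- the exponential -/
noncomputable def ex (x : ℝ) : ℂ := cexp (I * (x : ℂ))

lemma ex_add (x y : ℝ) : ex (x + y) = ex x * ex y := by
  unfold ex
  rw [← Complex.exp_add]
  congr 1
  push_cast
  ring

lemma norm_ex (x : ℝ) : ‖ex x‖ = 1 := by
  unfold ex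
  rw [mul_comm, Complex.norm_exp_ofReal_mul_I]

lemma ex_cont : Continuous ex := by
  unfold ex
  fun_prop

lemma ex_deriv (X a : ℝ) : HasDerivAt (fun a : ℝ => ex (a * X)) ((I * X) * ex (a * X)) a := by
  unfold ex
  have h1 : HasDerivAt (fun a : ℝ => I * ((a * X : ℝ) : ℂ)) (I * X) a := by
    have := ((hasDerivAt_id a).mul_const X).ofReal_comp.const_mul I
    simpa using this
  have h2 := h1.cexp
  rw [mul_comm] at h2
  exact h2

/-- antiderivative of the exponential -/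
lemma ex_anti {X : ℝ} (hX : X ≠ 0) (a : ℝ) :
    HasDerivAt (fun a : ℝ => (I * X)⁻¹ * ex (a * X)) (ex (a * X)) a := by
  have h := (ex_deriv X a).const_mul ((I * (X : ℂ))⁻¹)
  have hX' : (I * (X : ℂ)) ≠ 0 := mul_ne_zero I_ne_zero (by exact_mod_cast hX)
  have e : (I * (X : ℂ))⁻¹ * ((I * X) * ex (a * X)) = ex (a * X) := by
    rw [← mul_assoc, inv_mul_cancel₀ hX', one_mul]
  rw [e] at h
  exact h

/-- integration by parts -/
lemma ibp {α β : ℝ} (hαβ : α ≤ β) {h h1 : ℝ → ℝ} {B0 B1 : ℝ} (H : C1 α β h h1 B0 B1) {X : ℝ} (hX : X ≠ 0) :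
    ∫ a in α..β, (h a : ℂ) * ex (a * X) =
      (I * X)⁻¹ * ((h β : ℂ) * ex (β * X) - (h α : ℂ) * ex (α * X) - ∫ a in α..β, (h1 a : ℂ) * ex (a * X)) := by
  have h0 := intervalIntegral.integral_mul_deriv_eq_deriv_mul (a := α) (b := β)
    (u := fun a => (h a : ℂ)) (u' := fun a => (h1 a : ℂ))
    (v := fun a : ℝ => (I * (X : ℂ))⁻¹ * ex (a * X)) (v' := fun a => ex (a * X)) (by
      intro a ha
      rw [uIcc_of_le hαβ] at ha
      exact (H a ha).1.ofReal_comp) (by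
      intro a _
      exact ex_anti hX a) (by
      apply ContinuousOn.intervalIntegrable
      rw [uIcc_of_le hαβ]
      intro a ha
      exact (Complex.continuous_ofReal.continuousAt.comp (H a ha).2.1).continuousWithinAt) (by
      apply Continuous.intervalIntegrable
      exact ex_cont.comp (by fun_prop))
  rw [h0]
  have e : ∫ a in α..β, (h1 a : ℂ) * ((I * (X : ℂ))⁻¹ * ex (a * X)) =
      (I * (X : ℂ))⁻¹ * ∫ a in α..β, (h1 a : ℂ) * ex (a * X) := by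
    rw [← intervalIntegral.integral_const_mul]
    congr 1
    funext a
    ring
  rw [e]
  ring

/-- trivial bound -/
lemma triv {α β : ℝ} (hαβ : α ≤ β) {h : ℝ → ℝ} {B0 : ℝ} (H : ∀ a ∈ Icc α β, |h a| ≤ B0) (X : ℝ) :
    ‖∫ a in α..β, (h a : ℂ) * ex (a * X)‖ ≤ (β - α) * B0 := by
  have := intervalIntegral.norm_integral_le_of_norm_le_const (a := α) (b := β) (C := B0)
    (f := fun a : ℝ => (h a : ℂ) * ex (a * X)) (by
      intro a ha
      rw [uIoc_of_le hαβ] at ha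
      rw [norm_mul, norm_ex, mul_one, Complex.norm_real]
      exact H a ⟨ha.1.le, ha.2⟩)
  rw [abs_of_nonneg (by linarith), mul_comm] at this
  exact this

lemma nrm_inv (X : ℝ) : ‖(I * (X : ℂ))⁻¹‖ = |X|⁻¹ := by
  rw [norm_inv, norm_mul, norm_I, one_mul, Complex.norm_real, Real.norm_eq_abs]

/-- first order decay -/
noncomputable def d1 (X : ℝ) : ℝ := (1 + |X|)⁻¹

/-- second order decay -/
noncomputable def d2 (X : ℝ) : ℝ := (1 + X ^ 2)⁻¹

lemma d1_pos (X : ℝ) : 0 < d1 X := by unfold d1; positivity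
lemma d2_pos (X : ℝ) : 0 < d2 X := by unfold d2; positivity
lemma d1_le_one (X : ℝ) : d1 X ≤ 1 := by
  unfold d1; exact inv_le_one_of_one_le₀ (by linarith [abs_nonneg X])
lemma d2_le_one (X : ℝ) : d2 X ≤ 1 := by
  unfold d2; exact inv_le_one_of_one_le₀ (by nlinarith [sq_nonneg X])

lemma two_d1 {X A : ℝ} (hA : 0 ≤ A) {z : ℝ} (h0 : z ≤ A) (h1 : X ≠ 0 → z ≤ |X|⁻¹ * A) :
    z ≤ 2 * A * d1 X := by
  unfold d1
  rcases le_total 1 |X| with hX | hX
  · have hX0 : X ≠ 0 := by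
      rintro rfl
      rw [abs_zero] at hX
      linarith
    refine (h1 hX0).trans ?_
    have e : |X|⁻¹ ≤ 2 * (1 + |X|)⁻¹ := by
      rw [inv_eq_one_div, inv_eq_one_div, mul_one_div, div_le_div_iff₀ (by linarith) (by linarith)]
      linarith
    calc |X|⁻¹ * A ≤ (2 * (1 + |X|)⁻¹) * A := by gcongr
      _ = _ := by ring
  · refine h0.trans ?_
    have e : 1 ≤ 2 * (1 + |X|)⁻¹ := by
      rw [← div_eq_mul_inv, le_div_iff₀ (by linarith [abs_nonneg X])]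
      linarith
    calc A = A * 1 := by ring
      _ ≤ A * (2 * (1 + |X|)⁻¹) := by gcongr
      _ = _ := by ring

lemma two_d2 {X A : ℝ} (hA : 0 ≤ A) {z : ℝ} (h0 : z ≤ A) (h1 : X ≠ 0 → z ≤ (|X|⁻¹) ^ 2 * A) :
    z ≤ 2 * A * d2 X := by
  unfold d2
  rcases le_total 1 |X| with hX | hX
  · have hX0 : X ≠ 0 := by
      rintro rfl
      rw [abs_zero] at hX
      linarith
    refine (h1 hX0).trans ?_
    have hX2 : 1 ≤ X ^ 2 := by rw [← sq_abs]; nlinarith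
    have e : (|X|⁻¹) ^ 2 ≤ 2 * (1 + X ^ 2)⁻¹ := by
      rw [inv_pow, sq_abs, inv_eq_one_div, inv_eq_one_div, mul_one_div,
        div_le_div_iff₀ (by linarith) (by linarith)]
      linarith
    calc (|X|⁻¹) ^ 2 * A ≤ (2 * (1 + X ^ 2)⁻¹) * A := by gcongr
      _ = _ := by ring
  · refine h0.trans ?_
    have hX2 : X ^ 2 ≤ 1 := by rw [← sq_abs]; nlinarith [abs_nonneg X]
    have e : 1 ≤ 2 * (1 + X ^ 2)⁻¹ := by
      rw [← div_eq_mul_inv, le_div_iff₀ (by nlinarith [sq_nonneg X])]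
      linarith
    calc A = A * 1 := by ring
      _ ≤ A * (2 * (1 + X ^ 2)⁻¹) := by gcongr
      _ = _ := by ring

lemma osc1 {α β : ℝ} (hαβ : α ≤ β) {h h1 : ℝ → ℝ} {B0 B1 : ℝ} (H : C1 α β h h1 B0 B1) (ha : h α = 0)
    (hb : h β = 0) (X : ℝ) :
    ‖∫ a in α..β, (h a : ℂ) * ex (a * X)‖ ≤ 2 * ((β - α) * max B0 B1) * d1 X := by
  have hab : 0 ≤ β - α := by linarith
  have hB0 : 0 ≤ B0 := (abs_nonneg _).trans (H α ⟨le_rfl, hαβ⟩).2.2.1
  have hB1 : 0 ≤ B1 := (abs_nonneg _).trans (H α ⟨le_rfl, hαβ⟩).2.2.2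
  have hm : 0 ≤ max B0 B1 := hB0.trans (le_max_left _ _)
  apply two_d1 (by positivity)
  · refine (triv hαβ (fun a ha => (H a ha).2.2.1) X).trans ?_
    gcongr
    exact le_max_left _ _
  · intro hX
    rw [ibp hαβ H hX, ha, hb, norm_mul, nrm_inv]
    simp only [Complex.ofReal_zero, zero_mul, sub_zero, zero_sub, norm_neg]
    have t1 := triv hαβ (fun a ha => (H a ha).2.2.2) X
    refine mul_le_mul_of_nonneg_left (t1.trans ?_) (by positivity)
    gcongr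
    exact le_max_right _ _

lemma osc2 {α β : ℝ} (hαβ : α ≤ β) {h h1 h2 : ℝ → ℝ} {B0 B1 B2 : ℝ} (H : C2 α β h h1 h2 B0 B1 B2) (ha : h α = 0)
    (hb : h β = 0) (X : ℝ) :
    ‖∫ a in α..β, (h a : ℂ) * ex (a * X)‖ ≤ 2 * ((β - α) * (B0 + B2) + 2 * B1) * d2 X := by
  have hab : 0 ≤ β - α := by linarith
  have h0' := H α ⟨le_rfl, hαβ⟩
  have hB0 : 0 ≤ B0 := (abs_nonneg _).trans h0'.2.2.2.1
  have hB1 : 0 ≤ B1 := (abs_nonneg _).trans h0'.2.2.2.2.1
  have hB2 : 0 ≤ B2 := (abs_nonneg _).trans h0'.2.2.2.2.2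
  apply two_d2 (by positivity)
  · refine (triv hαβ (fun a ha => (H a ha).2.2.2.1) X).trans ?_
    have : 0 ≤ (β - α) * B2 := by positivity
    nlinarith
  · intro hX
    rw [ibp hαβ H.c1 hX, ha, hb, norm_mul, nrm_inv]
    simp only [Complex.ofReal_zero, zero_mul, sub_zero, zero_sub, norm_neg]
    rw [ibp hαβ H.c1' hX, norm_mul, nrm_inv]
    have t1 := triv hαβ (fun a ha => (H a ha).2.2.2.2.2) X
    have n1 : ‖(h1 β : ℂ) * ex (β * X)‖ ≤ B1 := by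
      rw [norm_mul, norm_ex, mul_one, Complex.norm_real]
      exact (H β ⟨hαβ, le_rfl⟩).2.2.2.2.1
    have n2 : ‖(h1 α : ℂ) * ex (α * X)‖ ≤ B1 := by
      rw [norm_mul, norm_ex, mul_one, Complex.norm_real]
      exact (H α ⟨le_rfl, hαβ⟩).2.2.2.2.1
    have n3 : ‖(h1 β : ℂ) * ex (β * X) - (h1 α : ℂ) * ex (α * X) - ∫ a in α..β, (h2 a : ℂ) * ex (a * X)‖ ≤
        (β - α) * (B0 + B2) + 2 * B1 := by
      have := norm_sub_le ((h1 β : ℂ) * ex (β * X) - (h1 α : ℂ) * ex (α * X)) (∫ a in α..β, (h2 a : ℂ) * ex (a * X))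
      have := norm_sub_le ((h1 β : ℂ) * ex (β * X)) ((h1 α : ℂ) * ex (α * X))
      have : 0 ≤ (β - α) * B0 := by positivity
      nlinarith
    calc |X|⁻¹ * (|X|⁻¹ * ‖_‖) ≤ |X|⁻¹ * (|X|⁻¹ * ((β - α) * (B0 + B2) + 2 * B1)) := by gcongr
      _ = _ := by ring

/-- smooth coefficients -/
def Sm (f : ℝ → ℝ) (F : ℝ) : Prop := ∀ u : ℝ, 0 < u →
  DifferentiableAt ℝ f u ∧ DifferentiableAt ℝ (deriv f) u ∧ ContinuousAt (deriv (deriv f)) u ∧
    |f u| ≤ F ∧ |u * deriv f u| ≤ F ∧ |u ^ 2 * deriv (deriv f) u| ≤ F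

lemma Sm.nn {f : ℝ → ℝ} {F : ℝ} (H : Sm f F) : 0 ≤ F := (abs_nonneg _).trans (H 1 one_pos).2.2.2.1

/-- composition with a polynomial: the variable `a` -/
lemma Sm.comp {f : ℝ → ℝ} {F : ℝ} (H : Sm f F) {α β : ℝ} (hα : 0 < α) {c x : ℝ} (hc : 0 ≤ c) (hx : 0 < x) :
    C2 α β (fun a => f (c + a * x)) (fun a => x * deriv f (c + a * x)) (fun a => x * (x * deriv (deriv f) (c + a * x)))
      F (F / α) (F / α ^ 2) := by
  intro a ha
  have ha0 : 0 < a := hα.trans_le ha.1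
  have hu : 0 < c + a * x := by positivity
  have hxu : α * x ≤ c + a * x := by
    have : α * x ≤ a * x := by gcongr; exact ha.1
    linarith
  obtain ⟨b1, b2, b3, b4, b5, b6⟩ := H _ hu
  have hl : HasDerivAt (fun a : ℝ => c + a * x) x a := by
    simpa using ((hasDerivAt_id a).mul_const x).const_add c
  have hF := H.nn
  refine ⟨?_, ?_, ?_, b4, ?_, ?_⟩
  · have := b1.hasDerivAt.comp a hl
    rw [mul_comm] at this
    exact this
  · have := (b2.hasDerivAt.comp a hl).const_mul x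
    rw [mul_comm (deriv (deriv f) _)] at this
    exact this
  · refine continuousAt_const.mul (continuousAt_const.mul ?_)
    exact ContinuousAt.comp (f := fun a : ℝ => c + a * x) b3 hl.continuousAt
  · rw [le_div_iff₀ hα, abs_mul, abs_of_pos hx]
    rw [abs_mul, abs_of_pos hu] at b5
    calc x * |deriv f (c + a * x)| * α = (α * x) * |deriv f (c + a * x)| := by ring
      _ ≤ (c + a * x) * |deriv f (c + a * x)| := by gcongr
      _ ≤ F := b5
  · show |x * (x * deriv (deriv f) (c + a * x))| ≤ _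
    rw [le_div_iff₀ (by positivity), ← mul_assoc, abs_mul, abs_of_pos (by positivity : 0 < x * x)]
    rw [abs_mul, abs_of_pos (by positivity)] at b6
    calc x * x * |deriv (deriv f) (c + a * x)| * α ^ 2 = (α * x) ^ 2 * |deriv (deriv f) (c + a * x)| := by ring
      _ ≤ (c + a * x) ^ 2 * |deriv (deriv f) (c + a * x)| := by gcongr
      _ ≤ F := b6

/-- the derivative in the second variable, as a function of the first variable -/
lemma Sm.comp' {f : ℝ → ℝ} {F : ℝ} (H : Sm f F) {α β : ℝ} (hα : 0 < α) {c x z τ : ℝ} (hc : 0 ≤ c) (hx : 0 < x)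
    (hz : 0 < z) (hτ : 0 < τ) (hzx : z * τ ≤ x) :
    C1 α β (fun a => z * deriv f (c + a * x)) (fun a => x * (z * deriv (deriv f) (c + a * x)))
      (F / α / τ) (F / α ^ 2 / τ) := by
  intro a ha
  have ha0 : 0 < a := hα.trans_le ha.1
  have hu : 0 < c + a * x := by positivity
  obtain ⟨b1, b2, b3, b4, b5, b6⟩ := H.comp (β := β) hα hc hx a ha
  have hl : HasDerivAt (fun a : ℝ => c + a * x) x a := by
    simpa using ((hasDerivAt_id a).mul_const x).const_add c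
  obtain ⟨d1, d2, d3, -⟩ := H _ hu
  have hF := H.nn
  refine ⟨?_, ?_, ?_, ?_⟩
  · have := (d2.hasDerivAt.comp a hl).const_mul z
    have e : z * (deriv (deriv f) (c + a * x) * x) = x * (z * deriv (deriv f) (c + a * x)) := by ring
    rw [e] at this
    exact this
  · refine continuousAt_const.mul (continuousAt_const.mul ?_)
    exact ContinuousAt.comp (f := fun a : ℝ => c + a * x) d3 hl.continuousAt
  · rw [le_div_iff₀ hτ]
    refine le_trans ?_ b5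
    rw [abs_mul, abs_mul, abs_of_pos hx, abs_of_pos hz]
    calc z * |deriv f (c + a * x)| * τ = (z * τ) * |deriv f (c + a * x)| := by ring
      _ ≤ _ := by gcongr
  · rw [le_div_iff₀ hτ]
    refine le_trans ?_ b6
    rw [abs_mul, abs_mul, abs_mul, abs_mul, abs_of_pos hx, abs_of_pos hz]
    calc x * (z * |deriv (deriv f) (c + a * x)|) * τ = x * ((z * τ) * |deriv (deriv f) (c + a * x)|) := by ring
      _ ≤ _ := by gcongr

end Pool.Agent.H471.QP
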