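import Pool.Agent.H471.QP.Osc

set_option autoImplicit false

/-!
Sums over spaced points.
-/

namespace Pool.Agent.H471.QP

open Finset

/-- the cell of a point -/
noncomputable def cell (ρ x : ℝ) : ℕ := (⌊x / ρ⌋).natAbs - 1

lemma cell_le {ρ x : ℝ} (hρ : 0 < ρ) : ρ * (cell ρ x : ℝ) ≤ |x| := by
  have h1 := Int.floor_le (x / ρ)
  have h2 := (Int.lt_floor_add_one (x / ρ)).le
  set k := ⌊x / ρ⌋ with hk
  have e : cell ρ x = k.natAbs - 1 := by rw [cell]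
  rw [e]
  have hx : x = ρ * (x / ρ) := by field_simp
  rcases le_or_gt 0 k with h | h
  · have hk0 : (0:ℝ) ≤ k := by exact_mod_cast h
    have h3 : ((k.natAbs - 1 : ℕ) : ℝ) ≤ k := by
      have : (k.natAbs - 1 : ℕ) ≤ k.natAbs := Nat.sub_le _ _
      have h4 : ((k.natAbs : ℕ) : ℝ) = k := by
        rw [Nat.cast_natAbs, Int.cast_abs, abs_of_nonneg hk0]
      rw [← h4]
      exact_mod_cast this
    calc ρ * ((k.natAbs - 1 : ℕ) : ℝ) ≤ ρ * (x / ρ) := by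
          gcongr
          exact h3.trans h1
      _ = x := hx.symm
      _ ≤ |x| := le_abs_self _
  · have hk0 : (k:ℝ) < 0 := by exact_mod_cast h
    have h4 : ((k.natAbs : ℕ) : ℝ) = -k := by
      rw [Nat.cast_natAbs, Int.cast_abs, abs_of_neg hk0]
    have h5 : 1 ≤ k.natAbs := by omega
    have h3 : ((k.natAbs - 1 : ℕ) : ℝ) = -k - 1 := by
      rw [Nat.cast_sub h5, h4]; norm_num
    rw [h3]
    calc ρ * (-(k:ℝ) - 1) ≤ ρ * (-(x / ρ)) := by
          gcongr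
          linarith
      _ = -x := by rw [mul_neg, ← hx]
      _ ≤ |x| := neg_le_abs _

lemma le_cell {ρ x : ℝ} (hρ : 0 < ρ) : |x| ≤ ρ * ((cell ρ x : ℝ) + 2) := by
  have h1 := Int.floor_le (x / ρ)
  have h2 := (Int.lt_floor_add_one (x / ρ)).le
  set k := ⌊x / ρ⌋ with hk
  have e : cell ρ x = k.natAbs - 1 := by rw [cell]
  rw [e]
  have hx : x = ρ * (x / ρ) := by field_simp
  have h6 : ((k.natAbs : ℕ) : ℝ) ≤ ((k.natAbs - 1 : ℕ) : ℝ) + 1 := by
    have : k.natAbs ≤ (k.natAbs - 1) + 1 := by omega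
    exact_mod_cast this
  have h7 : |x / ρ| ≤ ((k.natAbs : ℕ) : ℝ) + 1 := by
    have h8 : ((k.natAbs : ℕ) : ℝ) = |(k : ℝ)| := by
      rw [Nat.cast_natAbs]; push_cast; rfl
    rw [h8, abs_le]
    constructor
    · have := neg_abs_le (k : ℝ)
      linarith
    · have := le_abs_self (k : ℝ)
      linarith
  calc |x| = ρ * |x / ρ| := by
        rw [abs_div, abs_of_pos hρ]; field_simp
    _ ≤ ρ * (((k.natAbs : ℕ) : ℝ) + 1) := by gcongr
    _ ≤ _ := by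
      refine mul_le_mul_of_nonneg_left ?_ hρ.le
      linarith

lemma flo {ι : Type} [DecidableEq ι] {S : Finset ι} {x : ι → ℝ} {ρ : ℝ} (hρ : 0 < ρ)
    (hs : ∀ i ∈ S, ∀ j ∈ S, i ≠ j → ρ ≤ |x i - x j|) {φ : ι → ℝ} {ψ : ℕ → ℝ} (hψ : ∀ m, 0 ≤ ψ m)
    (hφ : ∀ i ∈ S, φ i ≤ ψ (cell ρ (x i))) {I : Finset ℕ} (hI : ∀ i ∈ S, cell ρ (x i) ∈ I) :
    ∑ i ∈ S, φ i ≤ 3 * ∑ m ∈ I, ψ m := by
  rw [← Finset.sum_fiberwise_of_maps_to (g := fun i => cell ρ (x i)) (t := I) hI, Finset.mul_sum]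
  refine Finset.sum_le_sum fun m _ => ?_
  have hinj : ∀ i ∈ S, ∀ j ∈ S, ⌊x i / ρ⌋ = ⌊x j / ρ⌋ → i = j := by
    intro i hi j hj h
    by_contra hne
    have h1 := hs i hi j hj hne
    have h2 := Int.abs_sub_lt_one_of_floor_eq_floor h
    rw [← sub_div, abs_div, abs_of_pos hρ, div_lt_one hρ] at h2
    linarith
  have hcard : (S.filter fun i => cell ρ (x i) = m).card ≤ 3 := by
    have h1 : (S.filter fun i => cell ρ (x i) = m).card ≤ ({(m : ℤ) + 1, -((m : ℤ) + 1), 0} : Finset ℤ).card := by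
      apply Finset.card_le_card_of_injOn (fun i => ⌊x i / ρ⌋)
      · intro i hi
        simp only [Finset.coe_filter, Set.mem_ofPred_eq] at hi
        have h2 := hi.2
        unfold cell at h2
        simp only [Finset.coe_insert, Finset.coe_singleton, Set.mem_insert_iff, Set.mem_singleton_iff]
        omega
      · intro i hi j hj h
        simp only [Finset.coe_filter, Set.mem_ofPred_eq] at hi hj
        exact hinj i hi.1 j hj.1 h
    exact h1.trans Finset.card_le_three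
  calc ∑ i ∈ S with cell ρ (x i) = m, φ i ≤ ∑ i ∈ S with cell ρ (x i) = m, ψ m := by
        refine Finset.sum_le_sum fun i hi => ?_
        rw [Finset.mem_filter] at hi
        rw [← hi.2]
        exact hφ i hi.1
    _ = ((S.filter fun i => cell ρ (x i) = m).card : ℝ) * ψ m := by rw [Finset.sum_const, nsmul_eq_mul]
    _ ≤ 3 * ψ m := by
        have : ((S.filter fun i => cell ρ (x i) = m).card : ℝ) ≤ 3 := by exact_mod_cast hcard
        exact mul_le_mul_of_nonneg_right this (hψ m)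

/-- telescoping -/
lemma tel {ρ : ℝ} (hρ : 0 < ρ) (hρ1 : ρ ≤ 1) (M N : ℕ) :
    ∑ m ∈ Ico M N, (1 + (ρ * (m : ℝ)) ^ 2)⁻¹ ≤ 4 / (ρ * (1 + ρ * M)) := by
  rcases le_total N M with h | h
  · rw [Ico_eq_empty_of_le h, sum_empty]
    positivity
  have h1 : ∑ m ∈ Ico M N, (1 + (ρ * (m : ℝ)) ^ 2)⁻¹ ≤
      ∑ m ∈ Ico M N, (-(4 / (ρ * (1 + ρ * ((m + 1 : ℕ) : ℝ)))) - -(4 / (ρ * (1 + ρ * (m : ℝ))))) := by
    refine sum_le_sum fun m _ => ?_
    have hm : (0:ℝ) ≤ m := Nat.cast_nonneg m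
    have e : (-(4 / (ρ * (1 + ρ * ((m + 1 : ℕ) : ℝ)))) - -(4 / (ρ * (1 + ρ * (m : ℝ))))) =
        4 / ((1 + ρ * m) * (1 + ρ * m + ρ)) := by
      push_cast
      have a1 : (1 + ρ * (m + 1)) ≠ 0 := by positivity
      have a2 : (1 + ρ * m) ≠ 0 := by positivity
      have a3 : (1 + ρ * m + ρ) ≠ 0 := by positivity
      field_simp
      ring
    rw [e, inv_eq_one_div, div_le_div_iff₀ (by positivity) (by positivity)]
    have hx : 0 ≤ ρ * m := by positivity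
    nlinarith [sq_nonneg (ρ * m - 1)]
  refine h1.trans ?_
  rw [Finset.sum_Ico_sub (fun m : ℕ => -(4 / (ρ * (1 + ρ * (m : ℝ))))) h]
  have : 0 ≤ 4 / (ρ * (1 + ρ * (N : ℝ))) := by positivity
  linarith

/-- the sum of second order decay over spaced points beyond `R` -/
lemma sum_d2 {ι : Type} [DecidableEq ι] {S : Finset ι} {x : ι → ℝ} {ρ : ℝ} (hρ : 0 < ρ) (hρ1 : ρ ≤ 1)
    (hs : ∀ i ∈ S, ∀ j ∈ S, i ≠ j → ρ ≤ |x i - x j|) {R : ℝ} (hR : 0 ≤ R) (hx : ∀ i ∈ S, R ≤ |x i|) :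
    ∑ i ∈ S, d2 (x i) ≤ 60 / (ρ * (1 + R)) := by
  obtain ⟨N, hN⟩ : ∃ N : ℕ, ∀ i ∈ S, cell ρ (x i) < N := by
    refine ⟨(S.sup fun i => cell ρ (x i)) + 1, fun i hi => ?_⟩
    exact Nat.lt_succ_of_le (Finset.le_sup (f := fun i => cell ρ (x i)) hi)
  set M := ⌈R / ρ - 2⌉₊ with hM
  have h1 := flo hρ hs (φ := fun i => d2 (x i)) (ψ := fun m => (1 + (ρ * (m : ℝ)) ^ 2)⁻¹)
    (fun m => by positivity) (I := Ico M N) (by
      intro i _
      unfold d2
      have h2 := cell_le (x := x i) hρ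
      have h3 : 0 ≤ ρ * (cell ρ (x i) : ℝ) := by positivity
      have h4 : (ρ * (cell ρ (x i) : ℝ)) ^ 2 ≤ x i ^ 2 := by
        rw [← sq_abs (x i)]
        gcongr
      have h5 : 0 ≤ (ρ * (cell ρ (x i) : ℝ)) ^ 2 := sq_nonneg _
      apply inv_anti₀ (by positivity)
      linarith) (by
      intro i hi
      rw [mem_Ico]
      refine ⟨?_, hN i hi⟩
      rw [hM, Nat.ceil_le]
      have h2 := (hx i hi).trans (le_cell (x := x i) hρ)
      rw [← div_le_iff₀' hρ] at h2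
      linarith)
  refine h1.trans ?_
  have h2 := tel hρ hρ1 M N
  have h3 : R / ρ - 2 ≤ M := Nat.le_ceil _
  have h4 : 0 ≤ (M : ℝ) := Nat.cast_nonneg M
  have h5 : (1 + R) / 5 ≤ 1 + ρ * M := by
    have h6 : ρ * (R / ρ - 2) ≤ ρ * M := by gcongr
    have h7 : ρ * (R / ρ - 2) = R - 2 * ρ := by field_simp
    rw [h7] at h6
    have h8 : 0 ≤ ρ * M := by positivity
    rcases le_total R 4 with h9 | h9
    · linarith
    · linarith
  calc 3 * ∑ m ∈ Ico M N, (1 + (ρ * (m : ℝ)) ^ 2)⁻¹ ≤ 3 * (4 / (ρ * (1 + ρ * M))) := by gcongr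
    _ ≤ 3 * (4 / (ρ * ((1 + R) / 5))) := by gcongr
    _ = 60 / (ρ * (1 + R)) := by field_simp; ring

/-- the sum of first order decay over spaced points -/
lemma sum_d1 {ι : Type} [DecidableEq ι] {S : Finset ι} {x : ι → ℝ} {ρ : ℝ} (hρ : 0 < ρ) (hρ1 : ρ ≤ 1)
    (hs : ∀ i ∈ S, ∀ j ∈ S, i ≠ j → ρ ≤ |x i - x j|) {R : ℝ} (hR : 1 ≤ R) (hx : ∀ i ∈ S, |x i| ≤ R) :
    ∑ i ∈ S, d1 (x i) ≤ 6 / ρ * (1 + Real.log (R / ρ)) := by
  have hRρ : 1 ≤ R / ρ := by rw [le_div_iff₀ hρ]; linarith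
  have h1 := flo hρ hs (φ := fun i => d1 (x i)) (ψ := fun m => (1 + (ρ * (m : ℝ)))⁻¹)
    (fun m => by positivity) (I := range (⌊R / ρ⌋₊ + 1)) (by
      intro i _
      unfold d1
      have h2 := cell_le (x := x i) hρ
      apply inv_anti₀ (by positivity)
      linarith) (by
      intro i hi
      rw [mem_range, Nat.lt_succ_iff, Nat.le_floor_iff (by positivity), le_div_iff₀' hρ]
      exact (cell_le hρ).trans (hx i hi))
  refine h1.trans ?_
  have h2 : ∑ m ∈ range (⌊R / ρ⌋₊ + 1), (1 + (ρ * (m : ℝ)))⁻¹ ≤ 1 / ρ * ∑ m ∈ range (⌊R / ρ⌋₊ + 1), ((m : ℝ) + 1)⁻¹ := by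
    rw [mul_sum]
    refine sum_le_sum fun m _ => ?_
    rw [one_div, ← mul_inv]
    apply inv_anti₀ (by positivity)
    have : 0 ≤ (m : ℝ) := Nat.cast_nonneg m
    nlinarith
  have h3 : ∑ m ∈ range (⌊R / ρ⌋₊ + 1), ((m : ℝ) + 1)⁻¹ ≤ 1 + Real.log (⌊R / ρ⌋₊ + 1 : ℕ) := by
    have := harmonic_le_one_add_log (⌊R / ρ⌋₊ + 1)
    unfold harmonic at this
    push_cast at this ⊢
    exact this
  have h4 : Real.log (⌊R / ρ⌋₊ + 1 : ℕ) ≤ 1 + Real.log (R / ρ) := by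
    have h5 : ((⌊R / ρ⌋₊ + 1 : ℕ) : ℝ) ≤ 2 * (R / ρ) := by
      push_cast
      have := Nat.floor_le (by positivity : 0 ≤ R / ρ)
      linarith
    have h6 := Real.log_le_log (by positivity) h5
    rw [Real.log_mul (by norm_num) (by positivity)] at h6
    have := Real.log_two_lt_d9
    linarith
  have h7 : 0 ≤ Real.log (R / ρ) := Real.log_nonneg hRρ
  calc 3 * ∑ m ∈ range (⌊R / ρ⌋₊ + 1), (1 + (ρ * (m : ℝ)))⁻¹ ≤ 3 * (1 / ρ * (1 + (1 + Real.log (R / ρ)))) := by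
        gcongr
        refine h2.trans ?_
        gcongr
        linarith
    _ ≤ 6 / ρ * (1 + Real.log (R / ρ)) := by
        rw [div_mul_eq_mul_div, div_mul_eq_mul_div, one_mul, ← mul_div_assoc]
        refine div_le_div_of_nonneg_right ?_ hρ.le
        linarith

end Pool.Agent.H471.QP
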