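import Pool.Agent.H471.QP.Osc

set_option autoImplicit false

/-!
Oscillatory integrals in two variables.
-/

namespace Pool.Agent.H471.QP

open Complex MeasureTheory Set

/-- Fubini on a rectangle -/
lemma fub {α β γ : ℝ} (hαβ : α ≤ β) (hγ : 0 ≤ γ) {F : ℝ → ℝ → ℂ}
    (hF : ContinuousOn (Function.uncurry F) (Icc α β ×ˢ Icc 0 γ)) :
    ∫ a in α..β, ∫ b in (0:ℝ)..γ, F a b = ∫ b in (0:ℝ)..γ, ∫ a in α..β, F a b := by
  simp only [intervalIntegral.integral_of_le hαβ, intervalIntegral.integral_of_le hγ]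
  apply integral_integral_swap
  have h1 : IntegrableOn (Function.uncurry F) (Icc α β ×ˢ Icc 0 γ) (volume.prod volume) :=
    hF.integrableOn_compact (isCompact_Icc.prod isCompact_Icc)
  have h2 : IntegrableOn (Function.uncurry F) (Ioc α β ×ˢ Ioc 0 γ) (volume.prod volume) :=
    h1.mono_set (prod_mono Ioc_subset_Icc_self Ioc_subset_Icc_self)
  rw [IntegrableOn, ← Measure.prod_restrict] at h2
  exact h2

/-- integration by parts, with one sided continuity -/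
lemma ibp' {α β : ℝ} (hαβ : α ≤ β) {h h1 : ℝ → ℝ} (H : ∀ a ∈ Icc α β, HasDerivAt h (h1 a) a)
    (Hc : ContinuousOn h1 (Icc α β)) {X : ℝ} (hX : X ≠ 0) :
    ∫ a in α..β, (h a : ℂ) * ex (a * X) =
      (I * X)⁻¹ * ((h β : ℂ) * ex (β * X) - (h α : ℂ) * ex (α * X) - ∫ a in α..β, (h1 a : ℂ) * ex (a * X)) := by
  have h0 := intervalIntegral.integral_mul_deriv_eq_deriv_mul (a := α) (b := β)
    (u := fun a => (h a : ℂ)) (u' := fun a => (h1 a : ℂ))
    (v := fun a : ℝ => (I * (X : ℂ))⁻¹ * ex (a * X)) (v' := fun a => ex (a * X)) (by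
      intro a ha
      rw [uIcc_of_le hαβ] at ha
      exact (H a ha).ofReal_comp) (by
      intro a _
      exact ex_anti hX a) (by
      apply ContinuousOn.intervalIntegrable
      rw [uIcc_of_le hαβ]
      exact Complex.continuous_ofReal.comp_continuousOn Hc) (by
      apply Continuous.intervalIntegrable
      exact ex_cont.comp (by fun_prop))
  rw [h0]
  have e : ∫ a in α..β, (h1 a : ℂ) * ((I * (X : ℂ))⁻¹ * ex (a * X)) =
      (I * (X : ℂ))⁻¹ * ∫ a in α..β, (h1 a : ℂ) * ex (a * X) := by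
    rw [← intervalIntegral.integral_const_mul]
    congr 1
    funext a
    ring
  rw [e]
  ring

lemma two {α β γ : ℝ} (hαβ : α ≤ β) (hγ : 0 ≤ γ) {G Gb : ℝ → ℝ → ℝ} {X Y M M' : ℝ}
    (h1 : ∀ b ∈ Icc 0 γ, ‖∫ a in α..β, (G a b : ℂ) * ex (a * X)‖ ≤ M)
    (h2 : ∀ b ∈ Icc 0 γ, ‖∫ a in α..β, (Gb a b : ℂ) * ex (a * X)‖ ≤ M')
    (h3 : ∀ a ∈ Icc α β, ∀ b ∈ Icc 0 γ, HasDerivAt (G a) (Gb a b) b)
    (h4 : ContinuousOn (Function.uncurry G) (Icc α β ×ˢ Icc 0 γ))
    (h5 : ContinuousOn (Function.uncurry Gb) (Icc α β ×ˢ Icc 0 γ)) :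
    ‖∫ a in α..β, ∫ b in (0:ℝ)..γ, (G a b : ℂ) * ex (a * X) * ex (b * Y)‖ ≤ γ * M ∧
    (Y ≠ 0 → ‖∫ a in α..β, ∫ b in (0:ℝ)..γ, (G a b : ℂ) * ex (a * X) * ex (b * Y)‖ ≤
      |Y|⁻¹ * (2 * M + γ * M')) := by
  have c1 : ContinuousOn (Function.uncurry fun a b : ℝ => (G a b : ℂ) * ex (a * X) * ex (b * Y))
      (Icc α β ×ˢ Icc 0 γ) := by
    refine ContinuousOn.mul (ContinuousOn.mul ?_ ?_) ?_
    · exact Complex.continuous_ofReal.comp_continuousOn h4
    · exact (ex_cont.comp (by fun_prop : Continuous fun z : ℝ × ℝ => z.1 * X)).continuousOn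
    · exact (ex_cont.comp (by fun_prop : Continuous fun z : ℝ × ℝ => z.2 * Y)).continuousOn
  have c2 : ContinuousOn (Function.uncurry fun a b : ℝ => (Gb a b : ℂ) * ex (a * X) * ex (b * Y))
      (Icc α β ×ˢ Icc 0 γ) := by
    refine ContinuousOn.mul (ContinuousOn.mul ?_ ?_) ?_
    · exact Complex.continuous_ofReal.comp_continuousOn h5
    · exact (ex_cont.comp (by fun_prop : Continuous fun z : ℝ × ℝ => z.1 * X)).continuousOn
    · exact (ex_cont.comp (by fun_prop : Continuous fun z : ℝ × ℝ => z.2 * Y)).continuousOn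
  have sw : ∀ (K : ℝ → ℝ → ℝ) (M0 : ℝ), ContinuousOn (Function.uncurry fun a b : ℝ => (K a b : ℂ) * ex (a * X) * ex (b * Y))
      (Icc α β ×ˢ Icc 0 γ) → (∀ b ∈ Icc 0 γ, ‖∫ a in α..β, (K a b : ℂ) * ex (a * X)‖ ≤ M0) →
      ‖∫ a in α..β, ∫ b in (0:ℝ)..γ, (K a b : ℂ) * ex (a * X) * ex (b * Y)‖ ≤ γ * M0 := by
    intro K M0 hc hK
    rw [fub hαβ hγ hc]
    have := intervalIntegral.norm_integral_le_of_norm_le_const (a := 0) (b := γ) (C := M0)
      (f := fun b : ℝ => ∫ a in α..β, (K a b : ℂ) * ex (a * X) * ex (b * Y)) (by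
        intro b hb
        rw [uIoc_of_le hγ] at hb
        rw [intervalIntegral.integral_mul_const, norm_mul, norm_ex, mul_one]
        exact hK b ⟨hb.1.le, hb.2⟩)
    rw [sub_zero, abs_of_nonneg hγ, mul_comm] at this
    exact this
  refine ⟨sw G M c1 h1, fun hY => ?_⟩
  have s2 := sw Gb M' c2 h2
  -- inner integration by parts
  have e1 : ∀ a ∈ Icc α β, ∫ b in (0:ℝ)..γ, (G a b : ℂ) * ex (a * X) * ex (b * Y) =
      (I * Y)⁻¹ * (((G a γ : ℂ) * ex (a * X)) * ex (γ * Y) - (G a 0 : ℂ) * ex (a * X) -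
        ∫ b in (0:ℝ)..γ, (Gb a b : ℂ) * ex (a * X) * ex (b * Y)) := by
    intro a ha
    have k1 := ibp' hγ (h := G a) (h1 := Gb a) (h3 a ha)
      (h5.comp (f := fun b : ℝ => (a, b)) (by fun_prop) (fun b hb => ⟨ha, hb⟩)) hY
    have e2 : ∀ K : ℝ → ℝ → ℝ, ∫ b in (0:ℝ)..γ, (K a b : ℂ) * ex (a * X) * ex (b * Y) =
        ex (a * X) * ∫ b in (0:ℝ)..γ, (K a b : ℂ) * ex (b * Y) := by
      intro K
      rw [← intervalIntegral.integral_const_mul]
      congr 1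
      funext b
      ring
    rw [e2 G, e2 Gb, k1, zero_mul]
    have : ex 0 = 1 := by unfold ex; simp
    rw [this]
    ring
  have hG : ∀ b ∈ Icc 0 γ, IntervalIntegrable (fun a => (G a b : ℂ) * ex (a * X)) volume α β := by
    intro b hb
    apply ContinuousOn.intervalIntegrable
    rw [uIcc_of_le hαβ]
    refine ContinuousOn.mul ?_ (ex_cont.comp (by fun_prop)).continuousOn
    refine Complex.continuous_ofReal.comp_continuousOn ?_
    exact h4.comp (f := fun a : ℝ => (a, b)) (by fun_prop) (fun a ha => ⟨ha, hb⟩)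
  have hI : IntervalIntegrable (fun a => ∫ b in (0:ℝ)..γ, (Gb a b : ℂ) * ex (a * X) * ex (b * Y)) volume α β := by
    have h1 : IntegrableOn (Function.uncurry fun a b : ℝ => (Gb a b : ℂ) * ex (a * X) * ex (b * Y))
        (Icc α β ×ˢ Icc 0 γ) (volume.prod volume) :=
      c2.integrableOn_compact (isCompact_Icc.prod isCompact_Icc)
    have h2 := h1.mono_set (prod_mono (Ioc_subset_Icc_self (a := α) (b := β))
      (Ioc_subset_Icc_self (a := (0:ℝ)) (b := γ)))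
    rw [IntegrableOn, ← Measure.prod_restrict] at h2
    have h3 := h2.integral_prod_left
    rw [intervalIntegrable_iff_integrableOn_Ioc_of_le hαβ]
    simp only [intervalIntegral.integral_of_le hγ]
    exact h3
  have e3 : ∫ a in α..β, ∫ b in (0:ℝ)..γ, (G a b : ℂ) * ex (a * X) * ex (b * Y) =
      (I * Y)⁻¹ * ((∫ a in α..β, (G a γ : ℂ) * ex (a * X)) * ex (γ * Y) -
        (∫ a in α..β, (G a 0 : ℂ) * ex (a * X)) -
        ∫ a in α..β, ∫ b in (0:ℝ)..γ, (Gb a b : ℂ) * ex (a * X) * ex (b * Y)) := by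
    rw [intervalIntegral.integral_congr (g := fun a => (I * Y)⁻¹ * (((G a γ : ℂ) * ex (a * X)) * ex (γ * Y) -
      (G a 0 : ℂ) * ex (a * X) - ∫ b in (0:ℝ)..γ, (Gb a b : ℂ) * ex (a * X) * ex (b * Y)))
      (fun a ha => e1 a (by rwa [uIcc_of_le hαβ] at ha))]
    rw [intervalIntegral.integral_const_mul, intervalIntegral.integral_sub, intervalIntegral.integral_sub,
      intervalIntegral.integral_mul_const]
    · exact (hG γ ⟨hγ, le_rfl⟩).mul_const _
    · exact hG 0 ⟨le_rfl, hγ⟩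
    · exact ((hG γ ⟨hγ, le_rfl⟩).mul_const _).sub (hG 0 ⟨le_rfl, hγ⟩)
    · exact hI
  rw [e3, norm_mul, nrm_inv]
  refine mul_le_mul_of_nonneg_left ?_ (by positivity)
  have n1 : ‖(∫ a in α..β, (G a γ : ℂ) * ex (a * X)) * ex (γ * Y)‖ ≤ M := by
    rw [norm_mul, norm_ex, mul_one]
    exact h1 γ ⟨hγ, le_rfl⟩
  have n2 := h1 0 ⟨le_rfl, hγ⟩
  have n3 := norm_sub_le ((∫ a in α..β, (G a γ : ℂ) * ex (a * X)) * ex (γ * Y) -
        (∫ a in α..β, (G a 0 : ℂ) * ex (a * X))) (∫ a in α..β, ∫ b in (0:ℝ)..γ, (Gb a b : ℂ) * ex (a * X) * ex (b * Y))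
  have n4 := norm_sub_le ((∫ a in α..β, (G a γ : ℂ) * ex (a * X)) * ex (γ * Y))
        (∫ a in α..β, (G a 0 : ℂ) * ex (a * X))
  linarith

end Pool.Agent.H471.QP
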